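import Pool.Agent.Work.Tools.GridThm.Stmts

set_option autoImplicit false

namespace Pool.Agent.GridThm

namespace AuxA0

variable {V : Type} {G : SimpleGraph V}

theorem nbs_sub {C X C' : Set V} (hN : nbs G C ⊆ X) (hc : Comp G (C \ X) C') :
    nbs G C' ⊆ X := by
  rintro v ⟨hv, u, hu, huv⟩
  by_contra hvX
  by_cases hvC : v ∈ C
  · exact hv (hc.closed u hu v ⟨hvC, hvX⟩ huv)
  · exact hvX (hN ⟨hvC, u, (hc.sub hu).1, huv⟩)

end AuxA0

open AuxA0

theorem A0 : PA0 := by
  intro V _ G w C X hN hX hc h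
  have key := TD.mk (G := G) (w := w) X {C' // Comp G (C \ X) C'}
    (fun i => i.1 ∪ nbs G i.1) (fun i => nbs G i.1) (nbs G C)
    (by
      rw [← X.toFinite.cast_ncard_eq]
      exact_mod_cast hc)
    (fun i => h i.1 i.2) (fun i => Set.subset_union_right) (fun i => nbs_sub hN i.2)
    (by
      rintro ⟨C', hC'⟩ x ⟨hx | hx, hxX⟩
      · exact absurd hxX (hC'.sub hx).2
      · exact hx)
    (by
      rintro ⟨A, hA⟩ ⟨B, hB⟩ hij x ⟨hx1, hx2⟩
      by_contra hxX
      rcases hx1 with hx1 | hx1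
      · rcases hx2 with hx2 | hx2
        · exact hij (Subtype.ext (hA.eq hB ⟨x, hx1, hx2⟩))
        · exact hxX (nbs_sub hN hB hx2)
      · exact hxX (nbs_sub hN hA hx1))
    (by
      rintro ⟨A, hA⟩ u hu huX v hv huv
      rcases hu with hu | hu
      · by_cases hvA : v ∈ A
        · exact Or.inl hvA
        · exact Or.inr ⟨hvA, u, hu, huv⟩
      · exact absurd (nbs_sub hN hA hu) huX)
    hN
  have hS : X ∪ ⋃ i : {C' // Comp G (C \ X) C'}, (i.1 ∪ nbs G i.1) = C ∪ nbs G C := by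
    apply Set.Subset.antisymm
    · rintro x (hx | hx)
      · exact hX hx
      · rw [Set.mem_iUnion] at hx
        obtain ⟨⟨A, hA⟩, hx | hx⟩ := hx
        · exact Or.inl (hA.sub hx).1
        · exact hX (nbs_sub hN hA hx)
    · rintro x (hx | hx)
      · by_cases hxX : x ∈ X
        · exact Or.inl hxX
        · obtain ⟨E, hE, hxE⟩ := exists_comp (G := G) (D := C \ X) (v := x) ⟨hx, hxX⟩
          exact Or.inr (Set.mem_iUnion.2 ⟨⟨E, hE⟩, Or.inl hxE⟩)
      · exact Or.inl (hN hx)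
  rw [hS] at key
  exact key

end Pool.Agent.GridThm
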