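import Pool.Agent.Work.Tools.GridThm.Stmts

set_option autoImplicit false

namespace Pool.Agent.GridThm

theorem A1 : PA1 := by
  intro V _ G h w C S c hw hI hlt
  classical
  obtain ⟨u, hu, hcu⟩ := hI.leaf
  have hu0 := hu
  obtain ⟨huC, v, hvC, hvu⟩ := hu
  have hvS : v ∉ S := fun hh => Set.disjoint_left.1 hI.disj hh hvC
  have hvu' : v ≠ u := fun hh => huC (hh ▸ hvC)
  have hcard : (insert v (nbs G C)).ncard ≤ h := by
    have := Set.ncard_insert_le v (nbs G C)
    omega
  refine ⟨insert v (nbs G C), Set.subset_insert _ _, ?_, by omega, ⟨v, Set.mem_insert _ _, hvC⟩, ?_⟩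
  · rintro x (rfl | hx)
    · exact Or.inl hvC
    · exact Or.inr hx
  · intro C' hC'
    have hsub : nbs G C' ⊆ insert v (nbs G C) := by
      rintro x ⟨hx, y, hy, hyx⟩
      by_contra hxX
      by_cases hxC : x ∈ C
      · exact hx (hC'.closed y hy x ⟨hxC, hxX⟩ hyx)
      · exact hxX (Or.inr ⟨hxC, y, (hC'.sub hy).1, hyx⟩)
    have hvC' : v ∉ C' := fun hh => (hC'.sub hh).2 (Set.mem_insert _ _)
    refine ⟨insert v S, fun x => if x = u then 1 else if x = v then 0 else c x, ?_⟩
    refine ⟨hC'.conn, ?_, ?_, ?_, ?_, ?_, ?_⟩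
    · refine Bt.add S c _ u v hI.bt (hI.sub hu0) hvS hvu.symm (by omega) ?_ ?_ ?_
      · simp [hcu]
      · simp [hvu']
      · intro x hxu hxv
        simp [hxu, hxv]
    · rw [Set.disjoint_left]
      rintro x (rfl | hx) hx'
      · exact hvC' hx'
      · exact Set.disjoint_left.1 hI.disj hx (hC'.sub hx').1
    · intro x hx
      rcases hsub hx with rfl | hx
      · exact Set.mem_insert _ _
      · exact Or.inr (hI.sub hx)
    · exact (Set.ncard_le_ncard hsub (Set.toFinite _)).trans hcard
    · intro x hx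
      by_cases hxu : x = u
      · simp [hxu]
      · by_cases hxv : x = v
        · simp [hxv, hvu']
        · simp only [hxu, hxv, if_false]
          rcases hsub hx with rfl | hx
          · exact absurd rfl hxv
          · exact hI.one x hx
    · refine ⟨v, ?_, by simp [hvu']⟩
      obtain ⟨⟨x, hx⟩⟩ := hC'.conn.nonempty
      obtain ⟨a, ha, b, hb, hbC', hab⟩ := exists_edge hI.conn (E := C')
        (fun z hz => (hC'.sub hz).1) hx hvC hvC'
      have hbn : b ∈ nbs G C' := ⟨hbC', a, ha, hab⟩
      rcases hsub hbn with rfl | hb'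
      · exact hbn
      · exact absurd hb hb'.1

end Pool.Agent.GridThm
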