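import Pool.Agent.Work.Tools.GridThm.Stmts

/-!
# The excluded grid theorem, item A2: paths attached to a binary tree
-/

set_option autoImplicit false

namespace Pool.Agent.GridThm

namespace AuxA2

variable {V : Type} {G : SimpleGraph V}

/-- One path attached to a binary tree. -/
theorem one : ∀ (r : List V) (y : V) (S : Set V) (c : V → ℕ), Bt G S c → y ∈ S → c y ≤ 1 →
    (y :: r).IsChain G.Adj → (y :: r).Nodup → (∀ x ∈ r, x ∉ S) →
    ∃ c', Bt G (S ∪ {x | x ∈ r}) c' ∧ (∀ x ∈ S, x ≠ y → c' x = c x) ∧ (r = [] → c' = c) ∧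
      (∀ z ∈ r.getLast?, c' z = 0) := by
  classical
  intro r
  induction r with
  | nil =>
    intro y S c h _ _ _ _ _
    refine ⟨c, ?_, fun _ _ _ => rfl, fun _ => rfl, ?_⟩
    · have : S ∪ {x | x ∈ ([] : List V)} = S := by
        ext x
        simp
      rw [this]
      exact h
    · intro z hz
      simp at hz
  | cons v r ih =>
    intro y S c h hy hc hch hnd hr
    have hvS : v ∉ S := hr v (by simp)
    have hvy : v ≠ y := fun e => hvS (e ▸ hy)
    rw [List.isChain_cons_cons] at hch
    let c1 : V → ℕ := fun x => if x = y then c y + 1 else if x = v then 0 else c x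
    have h1 : Bt G (insert v S) c1 := by
      refine Bt.add S c c1 y v h hy hvS hch.1 (by omega) ?_ ?_ ?_
      · simp [c1]
      · simp [c1, hvy]
      · intro x hx hx'
        simp [c1, hx, hx']
    have hc1v : c1 v = 0 := by simp [c1, hvy]
    obtain ⟨c', h2, h3, h4, h5⟩ := ih v (insert v S) c1 h1 (Set.mem_insert _ _) (by omega) hch.2
      (List.nodup_cons.1 hnd).2 (fun x hx hx' => by
        rcases Set.mem_insert_iff.1 hx' with rfl | hx'
        · exact (List.nodup_cons.1 (List.nodup_cons.1 hnd).2).1 hx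
        · exact hr x (by simp [hx]) hx')
    refine ⟨c', ?_, ?_, fun h => absurd h (by simp), ?_⟩
    · have : S ∪ {x | x ∈ v :: r} = insert v S ∪ {x | x ∈ r} := by
        ext x
        simp only [Set.mem_union, Set.mem_ofPred_eq, List.mem_cons, Set.mem_insert_iff]
        tauto
      rw [this]
      exact h2
    · intro x hx hxy
      have hxv : x ≠ v := fun e => hvS (e ▸ hx)
      rw [h3 x (Set.mem_insert_of_mem _ hx) hxv]
      simp [c1, hxy, hxv]
    · intro z hz
      rcases r with _ | ⟨w, r⟩
      · have hz' : z = v := by simpa using hz.symm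
        rw [hz', h4 rfl]
        exact hc1v
      · apply h5
        rw [List.getLast?_cons_cons] at hz
        exact hz

end AuxA2

theorem A2 : PA2 := by
  classical
  intro V _ G S c L hB
  induction L using Finset.induction_on with
  | empty =>
    intro _ _
    refine ⟨c, ?_, fun _ _ _ => rfl, ?_⟩
    · have : S ∪ {x | ∃ l ∈ (∅ : Finset (List V)), x ∈ l} = S := by
        ext x
        simp
      rw [this]
      exact hB
    · intro l hl
      simp at hl
  | insert l L hl ih =>
    intro h1 h2
    obtain ⟨c1, hB1, hc1, hz1⟩ := ih (fun l' hl' => h1 l' (Finset.mem_insert_of_mem hl'))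
      (fun l' hl' l'' hl'' => h2 l' (Finset.mem_insert_of_mem hl') l''
        (Finset.mem_insert_of_mem hl''))
    obtain ⟨hch, hnd, y, r, hlr, hr, hyS, hcy, hrS⟩ := h1 l (Finset.mem_insert_self _ _)
    have hdis : ∀ l' ∈ L, ∀ x ∈ l, x ∉ l' := by
      intro l' hl' x hx hx'
      have hne : l ≠ l' := fun e => hl (e ▸ hl')
      exact h2 l (Finset.mem_insert_self _ _) l' (Finset.mem_insert_of_mem hl') hne hx hx'
    have hyl : y ∈ l := by rw [hlr]; simp
    have hc1y : c1 y = c y := hc1 y hyS fun l' hl' => hdis l' hl' y hyl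
    obtain ⟨c2, hB2, h3, -, h5⟩ := AuxA2.one r y (S ∪ {x | ∃ l ∈ L, x ∈ l}) c1 hB1 (Or.inl hyS)
      (by omega) (hlr ▸ hch) (hlr ▸ hnd) (by
        rintro x hx (hx' | ⟨l', hl', hx'⟩)
        · exact hrS x hx hx'
        · exact hdis l' hl' x (by rw [hlr]; simp [hx]) hx')
    refine ⟨c2, ?_, ?_, ?_⟩
    · have : S ∪ {x | ∃ l' ∈ insert l L, x ∈ l'} = S ∪ {x | ∃ l ∈ L, x ∈ l} ∪ {x | x ∈ r} := by
        ext x
        simp only [Set.mem_union, Set.mem_ofPred_eq, Finset.mem_insert]
        constructor
        · rintro (hx | ⟨l', rfl | hl', hx⟩)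
          · exact Or.inl (Or.inl hx)
          · rw [hlr] at hx
            rcases List.mem_cons.1 hx with rfl | hx
            · exact Or.inl (Or.inl hyS)
            · exact Or.inr hx
          · exact Or.inl (Or.inr ⟨l', hl', hx⟩)
        · rintro ((hx | ⟨l', hl', hx⟩) | hx)
          · exact Or.inl hx
          · exact Or.inr ⟨l', Or.inr hl', hx⟩
          · exact Or.inr ⟨l, Or.inl rfl, by rw [hlr]; exact List.mem_cons_of_mem _ hx⟩
      rw [this]
      exact hB2
    · intro x hx hxl
      have hxy : x ≠ y := fun e => hxl l (Finset.mem_insert_self _ _) (e ▸ hyl)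
      rw [h3 x (Or.inl hx) hxy]
      exact hc1 x hx fun l' hl' => hxl l' (Finset.mem_insert_of_mem hl')
    · intro l' hl' z hz
      rcases Finset.mem_insert.1 hl' with rfl | hl'
      · apply h5
        obtain ⟨w, r', rfl⟩ := List.exists_cons_of_ne_nil hr
        rw [hlr, List.getLast?_cons_cons] at hz
        exact hz
      · have hzl : z ∈ l' := List.mem_of_getLast? hz
        have hzy : z ≠ y := fun e => hdis l' hl' y hyl (e ▸ hzl)
        rw [h3 z (Or.inr ⟨l', hl', hzl⟩) hzy]
        exact hz1 l' hl' z hz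

end Pool.Agent.GridThm
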