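import Pool.Agent.Work.Tools.GridThm.Stmts

/-!
# The excluded grid theorem: item A3
-/

set_option autoImplicit false

namespace Pool.Agent.GridThm

namespace AuxA3

variable {V : Type} {G : SimpleGraph V}

theorem back {D C' : Set V} (h : Comp G D C') {v : V} (hv : v ∈ C') :
    ∀ (m : List V) (a : V), List.IsChain G.Adj (a :: m ++ [v]) → (∀ u ∈ m, u ∈ D) →
      ∃ u ∈ C', G.Adj u a := by
  intro m
  induction m with
  | nil =>
    intro a hc _
    rw [List.cons_append, List.nil_append, List.isChain_cons_cons] at hc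
    exact ⟨v, hv, hc.1.symm⟩
  | cons b m ih =>
    intro a hc hm
    rw [List.cons_append, List.cons_append, List.isChain_cons_cons] at hc
    obtain ⟨u, hu, hub⟩ := ih b hc.2 (fun u hu => hm u (List.mem_cons_of_mem _ hu))
    exact ⟨b, h.closed u hu b (hm b List.mem_cons_self) hub, hc.1.symm⟩

/-- The initial part of the path through `x ∈ S ∩ C`. -/
structure Seg (G : SimpleGraph V) (C Y S : Set V) (P : Finset (List V)) (x : V)
    (lam l m : List V) (y : V) : Prop where
  mem : l ∈ P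
  eq : lam = y :: (m ++ [x])
  ch : lam.IsChain G.Adj
  nd : lam.Nodup
  sub : ∀ v ∈ lam, v ∈ l
  y_mem : y ∈ Y
  y_not : y ∉ S
  m_C : ∀ v ∈ m, v ∈ C ∧ v ∉ S
  uniq : ∀ v ∈ l, v ∈ S → v = x

theorem exists_seg {C Y Z S : Set V} {P : Finset (List V)} (hY : Disjoint Y C)
    (hZ : Disjoint Z C) (hP : Fam G C Y Z P)
    (hS1 : ∀ l ∈ P, ∃ x ∈ l, x ∈ S ∧ ∀ y ∈ l, y ∈ S → y = x) (hS2 : ∀ x ∈ S, ∃ l ∈ P, x ∈ l)
    {x : V} (hxS : x ∈ S) (hxC : x ∈ C) : ∃ lam l m y, Seg G C Y S P x lam l m y := by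
  obtain ⟨l, hl, hxl⟩ := hS2 x hxS
  obtain ⟨x', hx'l, hx'S, hu⟩ := hS1 l hl
  have hxx' : x = x' := hu x hxl hxS
  subst hxx'
  obtain ⟨hch, hnd, y, mid, z, rfl, hy, hz, -, hmid⟩ := hP.cp l hl
  have hxy : x ≠ y := by
    rintro rfl
    exact Set.disjoint_left.1 hY hy hxC
  have hxz : x ≠ z := by
    rintro rfl
    exact Set.disjoint_left.1 hZ hz hxC
  have hxm : x ∈ mid := by
    simp only [List.cons_append, List.mem_cons, List.mem_append, List.not_mem_nil, or_false,
      hxy, hxz, false_or] at hxl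
    exact hxl
  obtain ⟨m1, m2, rfl⟩ := List.append_of_mem hxm
  have heq : y :: (m1 ++ x :: m2) ++ [z] = (y :: (m1 ++ [x])) ++ (m2 ++ [z]) := by simp
  refine ⟨y :: (m1 ++ [x]), y :: (m1 ++ x :: m2) ++ [z], m1, y, ⟨hl, rfl, ?_, ?_, ?_, hy, ?_, ?_,
    hu⟩⟩
  · rw [heq] at hch
    exact hch.left_of_append
  · rw [heq] at hnd
    exact hnd.of_append_left
  · intro v hv
    rw [heq]
    exact List.mem_append_left _ hv
  · intro hyS
    exact hxy (hu y (by simp) hyS).symm
  · intro v hv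
    refine ⟨hmid v (by simp [hv]), fun hvS => ?_⟩
    have h1 : v = x := hu v (by simp [hv]) hvS
    subst h1
    rw [heq, List.nodup_append] at hnd
    have h2 := hnd.1
    rw [List.nodup_cons, List.nodup_append] at h2
    exact h2.2.2.2 v hv v (by simp) rfl

end AuxA3

open AuxA3 in
theorem A3 (h1 : PA2) : PA3 := by
  classical
  intro V _ G h C S₀ c Y Z S P C' hinv hYX hZX hYZ hSsub hcard hP hS1 hS2 hC' hYC'
  have hYC : Disjoint Y C := Set.disjoint_left.2 fun v hv hvC => (hYX hv).1 hvC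
  have hZC : Disjoint Z C := Set.disjoint_left.2 fun v hv hvC => (hZX hv).1 hvC
  have hC'C : C' ⊆ C := fun v hv => (hC'.sub hv).1
  have hC'S : ∀ v ∈ C', v ∉ S := fun v hv => (hC'.sub hv).2
  -- neighbours of the component
  have hF1 : ∀ v ∈ nbs G C', (v ∈ C ∧ v ∈ S) ∨ (v ∈ nbs G C ∧ (v ∈ Y → v ∈ S)) := by
    rintro v ⟨hv, u, hu, huv⟩
    by_cases hvC : v ∈ C
    · left
      refine ⟨hvC, ?_⟩
      by_contra hvS
      exact hv (hC'.closed u hu v ⟨hvC, hvS⟩ huv)
    · right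
      refine ⟨⟨hvC, u, hC'C hu, huv⟩, fun hvY => ?_⟩
      by_contra hvS
      exact hYC' v hvY hvS ⟨hv, u, hu, huv⟩
  have hcardC' : (nbs G C').ncard ≤ h := by
    have h2 : nbs G C' ⊆ (nbs G C \ Y) ∪ S := by
      intro v hv
      rcases hF1 v hv with h | h
      · exact Or.inr h.2
      · by_cases hvY : v ∈ Y
        · exact Or.inr (h.2 hvY)
        · exact Or.inl ⟨h.1, hvY⟩
    have h3 := Set.ncard_le_ncard h2 (Set.toFinite _)
    have h4 := Set.ncard_union_le (nbs G C \ Y) S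
    have h5 := Set.ncard_sdiff_add_ncard_of_subset hYX (Set.toFinite _)
    have h6 := hinv.card
    omega
  -- the lists
  choose lam l m y hseg using fun x : {x : V // x ∈ S ∧ x ∈ C} =>
    exists_seg hYC hZC hP hS1 hS2 x.2.1 x.2.2
  have : Fintype {x : V // x ∈ S ∧ x ∈ C} := Fintype.ofFinite _
  set L : Finset (List V) := Finset.univ.image lam with hL
  have hlC : ∀ x, ∀ v ∈ m x ++ [(x : V)], v ∈ C := by
    intro x v hv
    rw [List.mem_append, List.mem_singleton] at hv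
    rcases hv with hv | hv
    · exact ((hseg x).m_C v hv).1
    · rw [hv]
      exact x.2.2
  obtain ⟨c', hbt, hc1, hc2⟩ := h1 G S₀ c L hinv.bt (by
    intro k hk
    rw [hL, Finset.mem_image] at hk
    obtain ⟨x, -, rfl⟩ := hk
    refine ⟨(hseg x).ch, (hseg x).nd, y x, m x ++ [(x : V)], (hseg x).eq, by simp,
      hinv.sub (hYX (hseg x).y_mem), hinv.one _ (hYX (hseg x).y_mem), ?_⟩
    intro v hv hvS
    exact Set.disjoint_left.1 hinv.disj hvS (hlC x v hv)) (by
    intro k hk k' hk' hne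
    rw [hL, Finset.mem_image] at hk hk'
    obtain ⟨x, -, rfl⟩ := hk
    obtain ⟨x', -, rfl⟩ := hk'
    have hll : l x ≠ l x' := by
      intro hll
      apply hne
      have h2 : (x : V) = x' := by
        apply (hseg x').uniq x _ x.2.1
        rw [← hll]
        apply (hseg x).sub
        rw [(hseg x).eq]
        simp
      rw [Subtype.ext h2]
    intro v hv hv'
    exact hP.dis _ (hseg x).mem _ (hseg x').mem hll ((hseg x).sub v hv) ((hseg x').sub v hv'))
  set S' : Set V := S₀ ∪ {x | ∃ l ∈ L, x ∈ l} with hS'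
  have hmemL : ∀ v, (∃ k ∈ L, v ∈ k) ↔ ∃ x, v ∈ lam x := by
    intro v
    simp [hL]
  have hself : ∀ x : {x : V // x ∈ S ∧ x ∈ C}, (x : V) ∈ lam x := by
    intro x
    rw [(hseg x).eq]
    simp
  have hzero : ∀ v, v ∈ S → v ∈ C → c' v = 0 := by
    intro v hvS hvC
    refine hc2 (lam ⟨v, hvS, hvC⟩) (by simp [hL]) v ?_
    rw [(hseg ⟨v, hvS, hvC⟩).eq]
    simp [List.getLast?_cons, List.getLast?_append]
  have hyN : ∀ x, y x ∉ nbs G C' := fun x => hYC' _ (hseg x).y_mem (hseg x).y_not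
  refine ⟨S', c', ⟨hC'.conn, hbt, ?_, ?_, hcardC', ?_, ?_⟩⟩
  · -- disjoint
    rw [Set.disjoint_left]
    rintro v (hv | hv) hvC'
    · exact Set.disjoint_left.1 hinv.disj hv (hC'C hvC')
    · obtain ⟨x, hx⟩ := (hmemL v).1 hv
      rw [(hseg x).eq, List.mem_cons, List.mem_append, List.mem_singleton] at hx
      rcases hx with hx | hx | hx
      · rw [hx] at hvC'
        exact (hYX (hseg x).y_mem).1 (hC'C hvC')
      · obtain ⟨m1, m2, hm⟩ := List.append_of_mem hx
        have hch := (hseg x).ch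
        rw [(hseg x).eq, hm] at hch
        have heq : y x :: (m1 ++ v :: m2 ++ [(x : V)]) = (y x :: m1 ++ [v]) ++ (m2 ++ [(x : V)]) := by
          simp
        rw [heq] at hch
        obtain ⟨u, hu, huy⟩ := back hC' hvC' m1 (y x) hch.left_of_append (fun w hw =>
          (hseg x).m_C w (by rw [hm]; simp [hw]))
        exact hyN x ⟨fun h => (hYX (hseg x).y_mem).1 (hC'C h), u, hu, huy⟩
      · rw [hx] at hvC'
        exact hC'S _ hvC' x.2.1
  · -- contains the neighbours
    intro v hv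
    rcases hF1 v hv with h | h
    · exact Or.inr ((hmemL v).2 ⟨⟨v, h.2, h.1⟩, hself _⟩)
    · exact Or.inl (hinv.sub h.1)
  · -- at most one child
    intro v hv
    rcases hF1 v hv with h | h
    · rw [hzero v h.2 h.1]
      exact Nat.zero_le _
    · rw [hc1 v (hinv.sub h.1) ?_]
      · exact hinv.one v h.1
      · intro k hk hvk
        rw [hL, Finset.mem_image] at hk
        obtain ⟨x, -, rfl⟩ := hk
        rw [(hseg x).eq, List.mem_cons] at hvk
        rcases hvk with hvk | hvk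
        · rw [hvk] at hv
          exact hyN x hv
        · exact h.1.1 (hlC x v hvk)
  · -- a leaf
    obtain ⟨y₀, hy₀, hy₀S⟩ : ∃ y₀ ∈ Y, y₀ ∉ S := by
      by_contra hcon
      push Not at hcon
      have := Set.ncard_le_ncard (show Y ⊆ S from hcon) (Set.toFinite _)
      omega
    obtain ⟨hy₀C, u, huC, huy⟩ := hYX hy₀
    have huC' : u ∉ C' := fun hu => hYC' y₀ hy₀ hy₀S ⟨fun h => hy₀C (hC'C h), u, hu, huy⟩
    obtain ⟨⟨x₀, hx₀⟩⟩ := hC'.conn.nonempty
    obtain ⟨a, ha, b, hb, hbC', hab⟩ := exists_edge hinv.conn hC'C hx₀ huC huC'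
    have hbn : b ∈ nbs G C' := ⟨hbC', a, ha, hab⟩
    refine ⟨b, hbn, ?_⟩
    rcases hF1 b hbn with h | h
    · exact hzero b h.2 h.1
    · exact absurd hb h.1.1

end Pool.Agent.GridThm
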