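import Pool.Agent.Work.Tools.GridThm.Stmts

/-!
# The excluded grid theorem, item A4 (helper85): one step if there is no mesh
-/

set_option autoImplicit false

namespace Pool.Agent.GridThm

namespace AuxA4

variable {V : Type} {G : SimpleGraph V}

theorem exists_list {D : Set V} (a b : D) (p : (G.induce D).Walk a b) :
    ∃ l : List V, l.IsChain G.Adj ∧ l.head? = some (a : V) ∧ l.getLast? = some (b : V) ∧
      ∀ x ∈ l, x ∈ D := by
  induction p with
  | @nil u => exact ⟨[(u : V)], by simp, rfl, rfl, by simp⟩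
  | @cons a c b hac q ih =>
    obtain ⟨l, h1, h2, h3, h4⟩ := ih
    rcases l with _ | ⟨x, l⟩
    · simp at h2
    · have hx : x = (c : V) := by simpa using h2
      subst hx
      refine ⟨(a : V) :: (c : V) :: l, ?_, rfl, ?_, ?_⟩
      · rw [List.isChain_cons_cons]
        exact ⟨hac, h1⟩
      · rw [List.getLast?_cons_cons]
        exact h3
      · intro x hx
        rcases List.mem_cons.1 hx with rfl | hx
        · exact a.2
        · exact h4 x hx

/-- The relation of the item. -/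
def R (G : SimpleGraph V) (C Y Z : Set V) (a b : V) : Prop :=
  G.Adj a b ∧ (a ∈ C ∨ b ∈ C) ∧ a ∈ C ∪ Y ∪ Z ∧ b ∈ C ∪ Y ∪ Z

theorem chain_R {C Y Z : Set V} : ∀ l : List V, l.IsChain G.Adj → (∀ x ∈ l, x ∈ C) →
    l.IsChain (R G C Y Z) := by
  intro l
  induction l with
  | nil => intro _ _; simp
  | cons a t ih =>
    intro h1 h2
    rcases t with _ | ⟨b, t⟩
    · simp
    · rw [List.isChain_cons_cons] at h1 ⊢
      have ha : a ∈ C := h2 a (by simp)
      have hb : b ∈ C := h2 b (by simp)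
      exact ⟨⟨h1.1, Or.inl ha, Or.inl (Or.inl ha), Or.inl (Or.inl hb)⟩,
        ih h1.2 (fun x hx => h2 x (List.mem_cons_of_mem _ hx))⟩

theorem no_both {C Y Z T D : Set V} (hDC : D ⊆ C) (hD : (G.induce D).Connected)
    (hDT : ∀ x ∈ D, x ∉ T)
    (hcut : ∀ w : List V, w.IsChain (R G C Y Z) → (∃ a ∈ w.head?, a ∈ Y) →
      (∃ b ∈ w.getLast?, b ∈ Z) → ∃ x ∈ w, x ∈ T)
    {y z : V} (hy : y ∈ Y) (hyT : y ∉ T) (hyn : y ∈ nbs G D) (hz : z ∈ Z) (hzT : z ∉ T)
    (hzn : z ∈ nbs G D) : False := by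
  obtain ⟨_, u, hu, huy⟩ := hyn
  obtain ⟨_, v, hv, hvz⟩ := hzn
  obtain ⟨p⟩ := hD.preconnected ⟨u, hu⟩ ⟨v, hv⟩
  obtain ⟨l, h1, h2, h3, h4⟩ := exists_list _ _ p
  have h5 : l.IsChain (R G C Y Z) := chain_R l h1 (fun x hx => hDC (h4 x hx))
  have h6 : (y :: (l ++ [z])).IsChain (R G C Y Z) := by
    rw [List.isChain_cons]
    constructor
    · intro x hx
      rw [List.head?_append, h2] at hx
      have hx' : u = x := by simpa using hx
      subst hx'
      exact ⟨huy.symm, Or.inr (hDC hu), Or.inl (Or.inr hy), Or.inl (Or.inl (hDC hu))⟩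
    · rw [List.isChain_append]
      refine ⟨h5, by simp, ?_⟩
      intro x hx x' hx'
      rw [h3] at hx
      have e1 : v = x := by simpa using hx
      have e2 : z = x' := by simpa using hx'
      subst e1
      subst e2
      exact ⟨hvz, Or.inl (hDC hv), Or.inl (Or.inl (hDC hv)), Or.inr hz⟩
  obtain ⟨x, hx, hxT⟩ := hcut _ h6 ⟨y, by simp, hy⟩
    ⟨z, by rw [← List.cons_append, List.getLast?_concat]; rfl, hz⟩
  rw [List.mem_cons, List.mem_append, List.mem_singleton] at hx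
  rcases hx with rfl | hx | rfl
  · exact hyT hxT
  · exact hDT x (h4 x hx) hxT
  · exact hzT hxT

theorem cp_mem {C Y Z : Set V} {l : List V} (h : CP G C Y Z l) {x : V} (hx : x ∈ l) :
    x ∈ C ∪ Y ∪ Z := by
  obtain ⟨y, mid, z, rfl, hy, hz, _, hm⟩ := h.ex
  simp only [List.cons_append, List.mem_cons, List.mem_append, List.not_mem_nil, or_false] at hx
  rcases hx with rfl | hx | rfl
  · exact Or.inl (Or.inr hy)
  · exact Or.inl (Or.inl (hm x hx))
  · exact Or.inr hz

theorem cp_rev {C Y Z : Set V} {l : List V} (h : CP G C Y Z l) : CP G C Z Y l.reverse := by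
  refine ⟨?_, List.nodup_reverse.2 h.nd, ?_⟩
  · rw [List.isChain_reverse]
    exact h.ch.imp fun a b hab => hab.symm
  · obtain ⟨y, mid, z, rfl, hy, hz, hne, hm⟩ := h.ex
    refine ⟨z, mid.reverse, y, by simp, hz, hy, by simpa using hne, ?_⟩
    intro v hv
    exact hm v (List.mem_reverse.1 hv)

theorem fam_rev {C Y Z : Set V} {P : Finset (List V)} (h : Fam G C Y Z P) :
    Fam G C Z Y (P.map ⟨List.reverse, List.reverse_injective⟩) := by
  refine ⟨?_, ?_⟩
  · intro l hl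
    obtain ⟨m, hm, rfl⟩ := Finset.mem_map.1 hl
    exact cp_rev (h.cp m hm)
  · intro l hl l' hl' hne
    obtain ⟨m, hm, rfl⟩ := Finset.mem_map.1 hl
    obtain ⟨m', hm', rfl⟩ := Finset.mem_map.1 hl'
    have h1 : m ≠ m' := fun e => hne (by rw [e])
    have h2 := h.dis m hm m' hm' h1
    intro x hx hx'
    exact h2 (List.mem_reverse.1 hx) (List.mem_reverse.1 hx')

end AuxA4

open AuxA4

theorem A4 (h1 : PM) (h2 : PA3) : PA4 := by
  intro V _ G h k w C S c hkw hI hcard hM
  classical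
  have hfail : ∃ Y Z : Set V, Y ⊆ nbs G C ∧ Z ⊆ nbs G C ∧ Disjoint Y Z ∧ Y.ncard = Z.ncard ∧
      Y.ncard ≤ k ∧ ¬ ∃ P : Finset (List V), Fam G C Y Z P ∧ P.card = Y.ncard := by
    by_contra hc
    push Not at hc
    refine hM ⟨hI.conn, hI.bt, hI.disj, hI.sub, hcard, ?_⟩
    intro Y Z hY hZ hYZ he hk
    exact hc Y Z hY hZ hYZ he hk
  obtain ⟨Y, Z, hY, hZ, hYZ, hYZc, hYk, hno⟩ := hfail
  have hYC : Disjoint Y C := Set.disjoint_left.2 fun x hx hx' => (hY hx).1 hx'
  have hZC : Disjoint Z C := Set.disjoint_left.2 fun x hx hx' => (hZ hx).1 hx'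
  obtain ⟨T, P, hP, hPc, _, hPone, hTP, hcut⟩ := h1 G C Y Z (R G C Y Z) hYC hZC hYZ
    (fun a b hab => hab)
  have hTY : T.ncard < Y.ncard := by
    by_contra hc
    rw [not_lt, ← hPc] at hc
    obtain ⟨P', hP', hP'c⟩ := Finset.exists_subset_card_eq hc
    exact hno ⟨P', ⟨fun l hl => hP.cp l (hP' hl),
      fun l hl l' hl' => hP.dis l (hP' hl) l' (hP' hl')⟩, hP'c⟩
  have hTsub : T ⊆ C ∪ nbs G C := by
    intro x hx
    obtain ⟨l, hl, hxl⟩ := hTP x hx
    rcases cp_mem (hP.cp l hl) hxl with (h3 | h3) | h3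
    · exact Or.inl h3
    · exact Or.inr (hY h3)
    · exact Or.inr (hZ h3)
  have hex : ∀ W : Set V, T.ncard < W.ncard → ∃ y ∈ W, y ∉ T := by
    intro W hW
    by_contra hc
    push Not at hc
    have := Set.ncard_le_ncard (show W ⊆ T from hc) (Set.toFinite _)
    omega
  obtain ⟨y0, hy0, hy0T⟩ := hex Y hTY
  obtain ⟨z0, hz0, hz0T⟩ := hex Z (by rw [← hYZc]; exact hTY)
  refine ⟨nbs G C ∪ T, Set.subset_union_left, ?_, ?_, ?_, ?_⟩
  · exact Set.union_subset Set.subset_union_right hTsub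
  · have := Set.ncard_union_le (nbs G C) T
    omega
  · by_contra hne
    rw [Set.not_nonempty_iff_eq_empty] at hne
    refine no_both (D := C) (T := T) (le_refl C) hI.conn (fun x hx hxT => ?_) hcut hy0 hy0T (hY hy0)
      hz0 hz0T (hZ hz0)
    have : x ∈ (nbs G C ∪ T) ∩ C := ⟨Or.inr hxT, hx⟩
    rw [hne] at this
    exact this
  · intro C' hC'
    have hCT : C \ (nbs G C ∪ T) = C \ T := by
      ext x
      constructor
      · rintro ⟨h3, h4⟩
        exact ⟨h3, fun h5 => h4 (Or.inr h5)⟩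
      · rintro ⟨h3, h4⟩
        refine ⟨h3, ?_⟩
        rintro (h5 | h5)
        · exact h5.1 h3
        · exact h4 h5
    rw [hCT] at hC'
    by_cases hcase : ∀ y ∈ Y, y ∉ T → y ∉ nbs G C'
    · exact h2 G h C S c Y Z T P C' hI hY hZ hYZ hTsub hTY hP hPone hTP hC' hcase
    · push Not at hcase
      obtain ⟨y, hy, hyT, hyn⟩ := hcase
      refine h2 G h C S c Z Y T (P.map ⟨List.reverse, List.reverse_injective⟩) C' hI hZ hY
        hYZ.symm hTsub (by rw [← hYZc]; exact hTY) (fam_rev hP) ?_ ?_ hC' ?_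
      · intro l hl
        obtain ⟨m, hm, rfl⟩ := Finset.mem_map.1 hl
        obtain ⟨x, hx, hxT, hx1⟩ := hPone m hm
        exact ⟨x, List.mem_reverse.2 hx, hxT, fun y hy hyT => hx1 y (List.mem_reverse.1 hy) hyT⟩
      · intro x hx
        obtain ⟨l, hl, hxl⟩ := hTP x hx
        exact ⟨l.reverse, Finset.mem_map.2 ⟨l, hl, rfl⟩, List.mem_reverse.2 hxl⟩
      · intro z hz hzT hzn
        exact no_both (D := C') (T := T) (fun x hx => (hC'.sub hx).1) hC'.conn
          (fun x hx => (hC'.sub hx).2) hcut hy hyT hyn hz hzT hzn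

end Pool.Agent.GridThm
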