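import Pool.Agent.Work.Tools.GridThm.Stmts

/-!
# The excluded grid theorem: A5, recursion on the size of `C`
-/

set_option autoImplicit false

namespace Pool.Agent.GridThm

theorem A5 (h1 : PA0) (h2 : PA1) (h3 : PA4) : PA5 := by
  intro V _ G h k w hk hw hM
  have key : ∀ (n : ℕ) (C S : Set V) (c : V → ℕ), C.ncard = n → Inv G h C S c →
      TD G w (C ∪ nbs G C) (nbs G C) := by
    intro n
    induction n using Nat.strong_induction_on with
    | _ n ih =>
      intro C S c hn hI
      have hgood : Good G h w C := by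
        rcases Nat.lt_or_ge (nbs G C).ncard h with hlt | hge
        · exact h2 G h w C S c (by omega) hI hlt
        · exact h3 G h k w C S c hw hI (le_antisymm hI.card hge) (hM C S c)
      obtain ⟨X, hX1, hX2, hX3, hX4, hX5⟩ := hgood
      refine h1 G w C X hX1 hX2 hX3 ?_
      intro C' hC'
      obtain ⟨S', c', hI'⟩ := hX5 C' hC'
      refine ih C'.ncard ?_ C' S' c' rfl hI'
      rw [← hn]
      refine Set.ncard_lt_ncard ?_ (Set.toFinite _)
      refine ⟨fun x hx => (hC'.sub hx).1, ?_⟩
      intro hsub
      obtain ⟨x, hxX, hxC⟩ := hX4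
      exact (hC'.sub (hsub hxC)).2 hxX
  intro C S c hI
  exact key _ C S c rfl hI

end Pool.Agent.GridThm
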