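import Pool.Agent.Work.Tools.GridThm.Stmts

set_option autoImplicit false

namespace Pool.Agent.GridThm

theorem A6 (h1 : PT1) (h2 : PA0) (h3 : PA5) : PA6 := by
  intro V _ G h k w hh hk hw hM
  have hcomp : ∀ D, Comp G Set.univ D → TD G w D ∅ := by
    intro D hD
    have hnD : nbs G D = ∅ := by
      rw [Set.eq_empty_iff_forall_notMem]
      rintro x ⟨hx, u, hu, hux⟩
      exact hx (hD.closed u hu x (Set.mem_univ x) hux)
    obtain ⟨⟨v, hv⟩⟩ := hD.conn.nonempty
    have h4 := h2 G w D {v} (by rw [hnD]; exact Set.empty_subset _)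
      (by rintro x rfl; exact Or.inl hv) (by rw [Set.ncard_singleton]; omega) ?_
    · rw [hnD, Set.union_empty] at h4
      exact h4
    · intro C' hC'
      refine h3 G h k w hk hw hM C' {v} (fun _ => 0) ?_
      have hvC' : v ∉ C' := fun hh => (hC'.sub hh).2 rfl
      have hsub : nbs G C' ⊆ {v} := by
        rintro x ⟨hx, y, hy, hyx⟩
        by_contra hxv
        exact hx (hC'.closed y hy x ⟨hD.closed y (hC'.sub hy).1 x (Set.mem_univ x) hyx, hxv⟩ hyx)
      refine ⟨hC'.conn, Bt.single v, ?_, hsub, ?_, ?_, ?_⟩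
      · rw [Set.disjoint_left]
        rintro x rfl
        exact hvC'
      · refine (Set.ncard_le_ncard hsub (Set.toFinite _)).trans ?_
        rw [Set.ncard_singleton]
        exact hh
      · intro x _
        exact Nat.zero_le _
      · obtain ⟨⟨x, hx⟩⟩ := hC'.conn.nonempty
        obtain ⟨a, ha, b, hb, hbC', hab⟩ := exists_edge hD.conn (E := C')
          (fun z hz => (hC'.sub hz).1) hx hv hvC'
        have hbn : b ∈ nbs G C' := ⟨hbC', a, ha, hab⟩
        have := hsub hbn
        rw [Set.mem_singleton_iff] at this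
        subst this
        exact ⟨b, hbn, rfl⟩
  have key := TD.mk (G := G) (w := w) ∅ {D // Comp G Set.univ D} (fun i => i.1) (fun _ => ∅) ∅
    (by simp) (fun i => hcomp i.1 i.2) (fun i => Set.empty_subset _) (fun i => Set.empty_subset _)
    (by
      rintro i x ⟨_, hx⟩
      exact hx)
    (by
      rintro ⟨A, hA⟩ ⟨B, hB⟩ hij x ⟨hx1, hx2⟩
      exact absurd (Subtype.ext (hA.eq hB ⟨x, hx1, hx2⟩)) hij)
    (by
      rintro ⟨A, hA⟩ u hu _ v _ huv
      exact hA.closed u hu v (Set.mem_univ v) huv)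
    (Set.empty_subset _)
  have hU : (∅ : Set V) ∪ ⋃ i : {D // Comp G Set.univ D}, i.1 = Set.univ := by
    rw [Set.eq_univ_iff_forall]
    intro x
    obtain ⟨E, hE, hxE⟩ := exists_comp (G := G) (D := Set.univ) (v := x) (Set.mem_univ x)
    exact Or.inr (Set.mem_iUnion.2 ⟨⟨E, hE⟩, hxE⟩)
  rw [hU] at key
  obtain ⟨T, t, bag, x₀, ht, _, hc, he, hb, _⟩ := h1 G w _ _ key
  exact ⟨T, t, bag, ht, fun v => hc v (Set.mem_univ v),
    fun u v huv => he u (Set.mem_univ u) v (Set.mem_univ v) huv, hb⟩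

end Pool.Agent.GridThm
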