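import Pool.Agent.Work.Tools.GridThm.Stmts

/-!
# The excluded grid theorem, item B (helper61): partition of a binary tree
-/

set_option autoImplicit false

namespace Pool.Agent.GridThm

namespace AuxB

variable {V : Type} {G : SimpleGraph V}

/-- the union of the bags -/
def un (S : Set V) (K : V → Set V) : Set V := ⋃ x ∈ S, K x

theorem mem_un {S : Set V} {K : V → Set V} {y : V} : y ∈ un S K ↔ ∃ x ∈ S, y ∈ K x := by
  simp [un]

theorem main (X : Set V) (k : ℕ) (hk : 1 ≤ k) {S : Set V} {c : V → ℕ} (h : Bt G S c) :
    ∀ (K : V → Set V) (m : ℕ), (∀ x ∈ S, (G.induce (K x)).Connected) → (∀ x ∈ S, x ∈ K x) →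
      (∀ x ∈ S, ∀ y ∈ S, x ≠ y → Disjoint (K x) (K y)) →
      (∀ x ∈ S, (K x ∩ X).ncard ≤ 1 + (2 - c x) * (k - 1)) →
      m * (2 * k - 1) ≤ (un S K ∩ X).ncard →
      ∃ A : ℕ → Set V, (∀ i < m, A i ⊆ un S K ∧ (G.induce (A i)).Connected ∧
        k ≤ (A i ∩ X).ncard) ∧ ∀ i < m, ∀ j < m, i ≠ j → Disjoint (A i) (A j) := by
  classical
  induction h with
  | single r =>
    intro K m hconn _ _ hb hm
    have hun : un {r} K = K r := by
      ext y
      simp [mem_un]
    rw [hun] at hm
    have hb' := hb r rfl
    have hm1 : m ≤ 1 := by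
      by_contra hcon
      have h2 : 2 ≤ m := by omega
      have h3 : 2 * (2 * k - 1) ≤ m * (2 * k - 1) := Nat.mul_le_mul_right _ h2
      simp only [Nat.sub_zero] at hb'
      omega
    rcases Nat.le_one_iff_eq_zero_or_eq_one.mp hm1 with rfl | rfl
    · exact ⟨fun _ => ∅, fun i hi => absurd hi (Nat.not_lt_zero _),
        fun i hi => absurd hi (Nat.not_lt_zero _)⟩
    · refine ⟨fun _ => K r, fun i _ => ⟨?_, hconn r rfl, ?_⟩, ?_⟩
      · rw [hun]
      · show k ≤ (K r ∩ X).ncard
        omega
      · intro i hi j hj hij
        omega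
  | add S c c' u v hbt hu hv ha hc hc' hv' ho ih =>
    intro K m hconn hself hdis hb hm
    have huv : u ≠ v := fun e => hv (e ▸ hu)
    have hvS : v ∈ insert v S := Set.mem_insert _ _
    have hSS : S ⊆ insert v S := Set.subset_insert _ _
    by_cases hbig : k ≤ (K v ∩ X).ncard
    · -- cut off K v
      rcases m with _ | m
      · exact ⟨fun _ => ∅, fun i hi => absurd hi (Nat.not_lt_zero _),
          fun i hi => absurd hi (Nat.not_lt_zero _)⟩
      have hle : ∀ x ∈ S, (K x ∩ X).ncard ≤ 1 + (2 - c x) * (k - 1) := by
        intro x hx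
        refine (hb x (hSS hx)).trans ?_
        have hcx : c x ≤ c' x := by
          by_cases hxu : x = u
          · rw [hxu, hc']
            exact Nat.le_succ _
          · rw [ho x hxu fun e => hv (e ▸ hx)]
        have : (2 - c' x) * (k - 1) ≤ (2 - c x) * (k - 1) :=
          Nat.mul_le_mul_right _ (Nat.sub_le_sub_left hcx 2)
        omega
      have hKv : (K v ∩ X).ncard ≤ 2 * k - 1 := by
        have := hb v hvS
        rw [hv'] at this
        omega
      have hsplit : un (insert v S) K ∩ X = (K v ∩ X) ∪ (un S K ∩ X) := by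
        ext y
        simp only [Set.mem_inter_iff, Set.mem_union, mem_un, Set.mem_insert_iff]
        constructor
        · rintro ⟨⟨x, rfl | hx, hy⟩, hX⟩
          · exact Or.inl ⟨hy, hX⟩
          · exact Or.inr ⟨⟨x, hx, hy⟩, hX⟩
        · rintro (⟨hy, hX⟩ | ⟨⟨x, hx, hy⟩, hX⟩)
          · exact ⟨⟨v, Or.inl rfl, hy⟩, hX⟩
          · exact ⟨⟨x, Or.inr hx, hy⟩, hX⟩
      have hm' : m * (2 * k - 1) ≤ (un S K ∩ X).ncard := by
        rw [hsplit] at hm
        have h1 := Set.ncard_union_le (K v ∩ X) (un S K ∩ X)
        have h2 : (m + 1) * (2 * k - 1) = m * (2 * k - 1) + (2 * k - 1) := by ring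
        omega
      obtain ⟨A, hA1, hA2⟩ := ih K m (fun x hx => hconn x (hSS hx)) (fun x hx => hself x (hSS hx))
        (fun x hx y hy => hdis x (hSS hx) y (hSS hy)) hle hm'
      have hdv : Disjoint (un S K) (K v) := by
        rw [Set.disjoint_left]
        intro y hy hyv
        obtain ⟨x, hx, hyx⟩ := mem_un.mp hy
        exact Set.disjoint_left.mp (hdis x (hSS hx) v hvS fun e => hv (e ▸ hx)) hyx hyv
      let A' : ℕ → Set V := fun i => if i = m then K v else A i
      have hAm : ∀ i, i = m → A' i = K v := fun i h => if_pos h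
      have hAn : ∀ i, i ≠ m → A' i = A i := fun i h => if_neg h
      refine ⟨A', ?_, ?_⟩
      · intro i hi
        by_cases him : i = m
        · rw [hAm i him]
          exact ⟨fun y hy => mem_un.mpr ⟨v, hvS, hy⟩, hconn v hvS, hbig⟩
        · rw [hAn i him]
          obtain ⟨h1, h2, h3⟩ := hA1 i (by omega)
          refine ⟨fun y hy => ?_, h2, h3⟩
          obtain ⟨x, hx, hyx⟩ := mem_un.mp (h1 hy)
          exact mem_un.mpr ⟨x, hSS hx, hyx⟩
      · intro i hi j hj hij
        by_cases him : i = m
        · have hjm : j ≠ m := fun e => hij (him.trans e.symm)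
          rw [hAm i him, hAn j hjm]
          exact (hdv.mono_left (hA1 j (by omega)).1).symm
        · by_cases hjm : j = m
          · rw [hAn i him, hAm j hjm]
            exact hdv.mono_left (hA1 i (by omega)).1
          · rw [hAn i him, hAn j hjm]
            exact hA2 i (by omega) j (by omega) hij
    · -- merge K v into K u
      have hsmall : (K v ∩ X).ncard ≤ k - 1 := by omega
      let K' : V → Set V := Function.update K u (K u ∪ K v)
      have hK'u : K' u = K u ∪ K v := Function.update_self u _ K
      have hK' : ∀ x, x ≠ u → K' x = K x := fun x hx => Function.update_of_ne hx _ K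
      have hun : un S K' = un (insert v S) K := by
        ext y
        rw [mem_un, mem_un]
        constructor
        · rintro ⟨x, hx, hy⟩
          by_cases hxu : x = u
          · subst hxu
            rw [hK'u] at hy
            rcases hy with hy | hy
            · exact ⟨x, hSS hx, hy⟩
            · exact ⟨v, hvS, hy⟩
          · rw [hK' x hxu] at hy
            exact ⟨x, hSS hx, hy⟩
        · rintro ⟨x, hx, hy⟩
          rcases hx with rfl | hx
          · exact ⟨u, hu, by rw [hK'u]; exact Or.inr hy⟩
          · by_cases hxu : x = u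
            · subst hxu
              exact ⟨x, hx, by rw [hK'u]; exact Or.inl hy⟩
            · exact ⟨x, hx, by rw [hK' x hxu]; exact hy⟩
      have hneS : ∀ x ∈ S, x ≠ v := fun x hx e => hv (e ▸ hx)
      rw [← hun] at hm ⊢
      refine ih K' m ?_ ?_ ?_ ?_ hm
      · intro x hx
        by_cases hxu : x = u
        · subst hxu
          rw [hK'u]
          exact conn_adj (hconn x (hSS hx)) (hconn v hvS) (hself x (hSS hx)) (hself v hvS) ha
        · rw [hK' x hxu]
          exact hconn x (hSS hx)
      · intro x hx
        by_cases hxu : x = u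
        · subst hxu
          rw [hK'u]
          exact Or.inl (hself x (hSS hx))
        · rw [hK' x hxu]
          exact hself x (hSS hx)
      · intro x hx y hy hxy
        by_cases hxu : x = u
        · subst hxu
          rw [hK'u, hK' y hxy.symm]
          exact Disjoint.union_left (hdis x (hSS hx) y (hSS hy) hxy)
            (hdis v hvS y (hSS hy) (hneS y hy).symm)
        · rw [hK' x hxu]
          by_cases hyu : y = u
          · subst hyu
            rw [hK'u]
            exact Disjoint.union_right (hdis x (hSS hx) y (hSS hy) hxy)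
              (hdis x (hSS hx) v hvS (hneS x hx))
          · rw [hK' y hyu]
            exact hdis x (hSS hx) y (hSS hy) hxy
      · intro x hx
        by_cases hxu : x = u
        · subst hxu
          rw [hK'u, Set.union_inter_distrib_right]
          have h1 := Set.ncard_union_le (K x ∩ X) (K v ∩ X)
          have h2 := hb x (hSS hx)
          rw [hc'] at h2
          have h3 : (2 - c x) * (k - 1) = (2 - (c x + 1)) * (k - 1) + (k - 1) := by
            have : 2 - c x = (2 - (c x + 1)) + 1 := by omega
            rw [this]
            ring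
          omega
        · rw [hK' x hxu, ← ho x hxu (hneS x hx)]
          exact hb x (hSS hx)

end AuxB

theorem B : PB := by
  intro V _ G S c X m k hbt hXS hk hm
  have hun : AuxB.un S (fun x => {x}) = S := by
    ext y
    simp [AuxB.mem_un]
  have h := AuxB.main X k hk hbt (fun x => {x}) m (fun x _ => conn_single x) (fun x _ => rfl)
    (fun x _ y _ hxy => Set.disjoint_singleton.mpr hxy) (fun x _ => by
      have : (({x} : Set V) ∩ X).ncard ≤ ({x} : Set V).ncard :=
        Set.ncard_le_ncard Set.inter_subset_left (Set.toFinite _)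
      rw [Set.ncard_singleton] at this
      omega) (by
      rw [hun, Set.inter_eq_self_of_subset_right hXS]
      exact hm)
  rw [hun] at h
  exact h

end Pool.Agent.GridThm
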