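import Pool.Agent.Work.Tools.GridThm.Stmts

/-!
# The excluded grid theorem: C2, many verticals with the same hit graph
-/

set_option autoImplicit false

namespace Pool.Agent.GridThm

namespace AuxC2

variable {V : Type}

theorem ht_symm {N : ℕ} {hz : ℕ → List V} {v : List V} {i j : ℕ} (h : Ht N hz v i j) :
    Ht N hz v j i := by
  obtain ⟨s, mid, t, x, y, h1, h2, h3⟩ := h
  exact ⟨s, mid, t, x, y, h1, h2.symm, h3⟩

end AuxC2

open Classical in
theorem C2 (h1 : PC1) : PC2 := by
  intro V G d D N Vs hz hN hC hd
  rcases Nat.eq_zero_or_pos D with rfl | hD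
  · refine ⟨⊤, id, ?_, ?_, ?_, ?_⟩
    · have : Nonempty (Fin N) := ⟨⟨0, hN⟩⟩
      exact SimpleGraph.connected_top
    · intro n hn; omega
    · intro n hn; omega
    · intro n hn; omega
  · let φ : ℕ → (Fin N × Fin N → Bool) := fun n q => decide (Ht N hz (Vs n) q.1 q.2)
    have hcard : (Finset.univ : Finset (Fin N × Fin N → Bool)).card * D ≤
        (Finset.range d).card := by
      rw [Finset.card_range, Finset.card_univ, Fintype.card_fun, Fintype.card_prod,
        Fintype.card_fin, Fintype.card_bool]
      exact hd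
    obtain ⟨y, _, hy⟩ := Finset.exists_le_card_fiber_of_mul_le_card_of_maps_to
      (s := Finset.range d) (t := Finset.univ) (f := φ) (n := D) (fun a _ => Finset.mem_univ _)
      ⟨φ 0, Finset.mem_univ _⟩ hcard
    set F : Finset ℕ := {x ∈ Finset.range d | φ x = y} with hF
    have hFd : ∀ x ∈ F, x < d ∧ φ x = y := by
      intro x hx
      rw [hF, Finset.mem_filter, Finset.mem_range] at hx
      exact hx
    let f : ℕ → ℕ := fun n => if h : n < F.card then F.orderEmbOfFin rfl ⟨n, h⟩ else 0
    have hf : ∀ n < D, f n ∈ F := by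
      intro n hn
      have h' : n < F.card := lt_of_lt_of_le hn hy
      simp only [f, dif_pos h']
      exact Finset.orderEmbOfFin_mem F rfl _
    have hmono : ∀ n < D, ∀ n' < D, n < n' → f n < f n' := by
      intro n hn n' hn' hlt
      have h' : n < F.card := lt_of_lt_of_le hn hy
      have h'' : n' < F.card := lt_of_lt_of_le hn' hy
      simp only [f, dif_pos h', dif_pos h'']
      exact (F.orderEmbOfFin rfl).strictMono hlt
    have hht : ∀ x ∈ F, ∀ i j : Fin N, Ht N hz (Vs x) i j ↔ y (i, j) = true := by
      intro x hx i j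
      have := (hFd x hx).2
      rw [← this]
      simp [φ]
    have h0 : f 0 ∈ F := hf 0 hD
    refine ⟨SimpleGraph.fromRel fun i j : Fin N => Ht N hz (Vs (f 0)) i j, f, ?_, ?_, ?_, ?_⟩
    · exact h1 N hz (Vs (f 0)) hN hC.hdis (fun i hi => hC.meet (f 0) (hFd _ h0).1 i hi)
    · intro n hn
      exact (hFd _ (hf n hn)).1
    · exact hmono
    · intro n hn i j hij
      rw [SimpleGraph.fromRel_adj] at hij
      have h2 : Ht N hz (Vs (f 0)) i j := by
        rcases hij.2 with h | h
        · exact h
        · exact AuxC2.ht_symm h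
      rw [hht _ (hf n hn)]
      exact (hht _ h0 i j).1 h2

end Pool.Agent.GridThm
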