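import Pool.Agent.Work.Tools.GridThm.Stmts

/-!
# The excluded grid theorem, item C3 (helper43): long path or vertex of large degree
-/

set_option autoImplicit false

namespace Pool.Agent.GridThm

namespace AuxC3

open Classical in
/-- the ball of radius `r` -/
noncomputable def ball {N : ℕ} (G : SimpleGraph (Fin N)) (v : Fin N) : ℕ → Finset (Fin N)
  | 0 => {v}
  | r + 1 => (ball G v r).biUnion fun u => insert u (Finset.univ.filter fun w => G.Adj u w)

theorem ball_mono {N : ℕ} (G : SimpleGraph (Fin N)) (v : Fin N) (r : ℕ) :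
    ball G v r ⊆ ball G v (r + 1) := by
  classical
  intro x hx
  rw [ball, Finset.mem_biUnion]
  exact ⟨x, hx, Finset.mem_insert_self _ _⟩

theorem ball_mono' {N : ℕ} (G : SimpleGraph (Fin N)) (v : Fin N) {r r' : ℕ} (h : r ≤ r') :
    ball G v r ⊆ ball G v r' := by
  induction r', h using Nat.le_induction with
  | base => exact Finset.Subset.refl _
  | succ n _ ih => exact ih.trans (ball_mono G v n)

theorem ball_walk {N : ℕ} (G : SimpleGraph (Fin N)) (v : Fin N) {a b : Fin N}
    (w : G.Walk a b) : ∀ r, a ∈ ball G v r → b ∈ ball G v (r + w.length) := by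
  classical
  induction w with
  | nil => intro r h; simpa using h
  | @cons a c b hac w ih =>
    intro r h
    have hc : c ∈ ball G v (r + 1) := by
      rw [ball, Finset.mem_biUnion]
      exact ⟨a, h, Finset.mem_insert_of_mem (Finset.mem_filter.2 ⟨Finset.mem_univ _, hac⟩)⟩
    have := ih (r + 1) hc
    rw [SimpleGraph.Walk.length_cons]
    rwa [add_assoc, add_comm 1] at this

open Classical in
theorem ball_card {N : ℕ} (G : SimpleGraph (Fin N)) (v : Fin N) (D : ℕ)
    (h : ∀ u : Fin N, (Finset.univ.filter fun w => G.Adj u w).card + 1 ≤ D) (r : ℕ) :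
    (ball G v r).card ≤ D ^ r := by
  induction r with
  | zero => simp [ball]
  | succ r ih =>
    rw [ball]
    have h1 : ∀ u ∈ ball G v r,
        (insert u (Finset.univ.filter fun w => G.Adj u w)).card ≤ D := fun u _ =>
      (Finset.card_insert_le _ _).trans (h u)
    refine (Finset.card_biUnion_le_card_mul _ _ D h1).trans ?_
    · rw [pow_succ]
      exact Nat.mul_le_mul_right _ ih

end AuxC3

theorem C3 : PC3 := by
  classical
  intro K Δ N Γ hN hc
  by_cases hdeg : ∃ c : Fin N, Δ ≤ (Finset.univ.filter fun w => Γ.Adj c w).card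
  · right
    obtain ⟨c, hcd⟩ := hdeg
    obtain ⟨s, hs⟩ : ∃ s, s = Finset.univ.filter fun w => Γ.Adj c w := ⟨_, rfl⟩
    rw [← hs] at hcd
    have hsa : ∀ x ∈ s, Γ.Adj c x := by
      intro x hx
      rw [hs] at hx
      exact (Finset.mem_filter.1 hx).2
    have e := s.equivFin
    refine ⟨c, fun i => if h : i < s.card then (e.symm ⟨i, h⟩).1 else c, ?_, ?_⟩
    · intro i hi
      have h1 : i < s.card := lt_of_lt_of_le hi hcd
      dsimp only
      rw [dif_pos h1]
      exact hsa _ (e.symm ⟨i, h1⟩).2
    · intro i hi j hj hij heq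
      have h1 : i < s.card := lt_of_lt_of_le hi hcd
      have h2 : j < s.card := lt_of_lt_of_le hj hcd
      dsimp only at heq
      rw [dif_pos h1, dif_pos h2] at heq
      have h3 := e.symm.injective (Subtype.ext heq)
      rw [Fin.mk.injEq] at h3
      exact hij h3
  · left
    push Not at hdeg
    obtain ⟨v⟩ := hc.nonempty
    rcases Nat.eq_zero_or_pos K with hK | hK
    · subst hK
      exact ⟨fun _ => v, fun i hi => absurd hi (Nat.not_lt_zero _), fun i hi => by omega⟩
    · have hball := AuxC3.ball_card Γ v Δ (fun u => hdeg u) (K - 1)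
      have hlt : (AuxC3.ball Γ v (K - 1)).card < (Finset.univ : Finset (Fin N)).card := by
        rw [Finset.card_univ, Fintype.card_fin]
        refine lt_of_le_of_lt hball (lt_of_lt_of_le ?_ hN)
        calc Δ ^ (K - 1) ≤ (Δ + 1) ^ (K - 1) := Nat.pow_le_pow_left (Nat.le_succ _) _
          _ < (Δ + 1) ^ K := by
            apply Nat.pow_lt_pow_right
            · have := hdeg v
              omega
            · omega
      obtain ⟨x, -, hx⟩ := Finset.exists_mem_notMem_of_card_lt_card hlt
      obtain ⟨p, hp, hpl⟩ := (hc.preconnected v x).exists_path_of_dist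
      have hlen : K ≤ p.length := by
        by_contra hlt'
        apply hx
        have h1 := AuxC3.ball_walk Γ v p 0 (by simp [AuxC3.ball])
        rw [zero_add] at h1
        exact AuxC3.ball_mono' Γ v (by omega) h1
      refine ⟨fun i => p.getVert i, ?_, ?_⟩
      · intro i hi j hj hij heq
        apply hij
        exact hp.getVert_injOn (by simp; omega) (by simp; omega) heq
      · intro i hi
        exact p.adj_getVert_succ (by omega)

end Pool.Agent.GridThm
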