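import Pool.Agent.Work.Tools.GridThm.Stmts

/-!
# The excluded grid theorem: item C4 (segments of the horizontals)
-/

set_option autoImplicit false

namespace Pool.Agent.GridThm

namespace AuxC4

variable {V : Type}

/-- the positions `a, …, b - 1` of the list -/
def seg (l : List V) (a b : ℕ) : List V := (l.take b).drop a

theorem mem_seg {l : List V} {a b : ℕ} {x : V} :
    x ∈ seg l a b ↔ ∃ p, a ≤ p ∧ p < b ∧ l[p]? = some x := by
  unfold seg
  rw [List.mem_iff_getElem?]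
  constructor
  · rintro ⟨i, hi⟩
    rw [List.getElem?_drop, List.getElem?_take] at hi
    split_ifs at hi with h
    exact ⟨a + i, Nat.le_add_right _ _, h, hi⟩
  · rintro ⟨p, h1, h2, h3⟩
    refine ⟨p - a, ?_⟩
    rw [List.getElem?_drop, List.getElem?_take, Nat.add_sub_cancel' h1, if_pos h2, h3]

theorem getElem?_unique {l : List V} (hl : l.Nodup) {p q : ℕ} {x : V} (hp : l[p]? = some x)
    (hq : l[q]? = some x) : p = q := by
  have h1 : p < l.length := by
    by_contra h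
    rw [List.getElem?_eq_none (not_lt.1 h)] at hp
    exact absurd hp (by simp)
  exact (List.getElem?_inj h1 hl).1 (hp.trans hq.symm)

theorem aux (G : SimpleGraph V) (d N : ℕ) (Vs hz : ℕ → List V) (h : Crs G d N Vs hz) (i : ℕ)
    (hi : i < N) : ∃ sg : ℕ → List V,
    (∀ n < d, sg n ≠ [] ∧ (sg n).IsChain G.Adj ∧ (∀ x ∈ sg n, x ∈ hz i) ∧
      ∀ x ∈ hz i, x ∈ Vs n → x ∈ sg n) ∧
    (∀ n < d, ∀ n' < d, n ≠ n' → List.Disjoint (sg n) (sg n')) ∧
    ∀ n, n + 1 < d → ∃ a ∈ sg n, ∃ b ∈ sg (n + 1), G.Adj a b := by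
  classical
  have hex : ∀ n, n < d → ∃ p : ℕ, ∃ x : V, (hz i)[p]? = some x ∧ x ∈ Vs n := by
    intro n hn
    obtain ⟨x, hx, hx'⟩ := h.meet n hn i hi
    obtain ⟨p, hp⟩ := List.mem_iff_getElem?.1 hx'
    exact ⟨p, x, hp, hx⟩
  let a : ℕ → ℕ := fun n => if hn : n < d then Nat.find (hex n hn) else (hz i).length
  have ha1 : ∀ n, n < d → ∃ x, (hz i)[a n]? = some x ∧ x ∈ Vs n := by
    intro n hn
    have : a n = Nat.find (hex n hn) := dif_pos hn
    rw [this]
    exact Nat.find_spec (hex n hn)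
  have ha2 : ∀ n, n < d → ∀ (p : ℕ) (x : V), (hz i)[p]? = some x → x ∈ Vs n → a n ≤ p := by
    intro n hn p x hp hx
    have : a n = Nat.find (hex n hn) := dif_pos hn
    rw [this]
    exact Nat.find_min' (hex n hn) ⟨x, hp, hx⟩
  have ha3 : ∀ n, ¬ n < d → a n = (hz i).length := fun n hn => dif_neg hn
  have hlt : ∀ (p : ℕ) (x : V), (hz i)[p]? = some x → p < (hz i).length := by
    intro p x hp
    by_contra hc
    rw [List.getElem?_eq_none (not_lt.1 hc)] at hp
    exact absurd hp (by simp)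
  -- positions of hits of `Vs n` lie before `a (n + 1)`
  have ha4 : ∀ n, n < d → ∀ (p : ℕ) (x : V), (hz i)[p]? = some x → x ∈ Vs n → p < a (n + 1) := by
    intro n hn p x hp hx
    by_cases hn1 : n + 1 < d
    · obtain ⟨y, hy, hy'⟩ := ha1 (n + 1) hn1
      exact h.ord n hn (n + 1) hn1 (Nat.lt_succ_self n) i hi p (a (n + 1)) x y hp hy hx hy'
    · rw [ha3 _ hn1]
      exact hlt p x hp
  have ha5 : ∀ n, n < d → a n < a (n + 1) := by
    intro n hn
    obtain ⟨x, hx, hx'⟩ := ha1 n hn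
    exact ha4 n hn _ x hx hx'
  have ha6 : ∀ n, a n ≤ (hz i).length := by
    intro n
    by_cases hn : n < d
    · obtain ⟨x, hx, _⟩ := ha1 n hn
      exact (hlt _ x hx).le
    · rw [ha3 n hn]
  have ha7 : ∀ n n', n < n' → n' < d → a (n + 1) ≤ a n' := by
    intro n n' hnn hn'
    rcases Nat.lt_or_ge (n + 1) n' with h1 | h1
    · obtain ⟨x, hx, hx'⟩ := ha1 (n + 1) (h1.trans hn')
      obtain ⟨y, hy, hy'⟩ := ha1 n' hn'
      exact (h.ord (n + 1) (h1.trans hn') n' hn' h1 i hi _ _ x y hx hy hx' hy').le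
    · have : n' = n + 1 := by omega
      rw [this]
  have hdisj : ∀ n < d, ∀ n' < d, n < n' →
      List.Disjoint (seg (hz i) (a n) (a (n + 1))) (seg (hz i) (a n') (a (n' + 1))) := by
    intro n hn n' hn' hnn x hx hx'
    obtain ⟨p, hp1, hp2, hp3⟩ := mem_seg.1 hx
    obtain ⟨q, hq1, hq2, hq3⟩ := mem_seg.1 hx'
    have := getElem?_unique (h.hch i hi).2 hp3 hq3
    have := ha7 n n' hnn hn'
    omega
  refine ⟨fun n => seg (hz i) (a n) (a (n + 1)), ?_, ?_, ?_⟩
  · intro n hn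
    refine ⟨?_, ?_, ?_, ?_⟩
    · obtain ⟨x, hx, _⟩ := ha1 n hn
      have : x ∈ seg (hz i) (a n) (a (n + 1)) := mem_seg.2 ⟨a n, le_rfl, ha5 n hn, hx⟩
      exact List.ne_nil_of_mem this
    · exact ((h.hch i hi).1.take _).drop _
    · intro x hx
      obtain ⟨p, _, _, hp⟩ := mem_seg.1 hx
      exact List.mem_iff_getElem?.2 ⟨p, hp⟩
    · intro x hx hxn
      obtain ⟨p, hp⟩ := List.mem_iff_getElem?.1 hx
      exact mem_seg.2 ⟨p, ha2 n hn p x hp hxn, ha4 n hn p x hp hxn, hp⟩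
  · intro n hn n' hn' hne
    rcases lt_or_gt_of_ne hne with h1 | h1
    · exact hdisj n hn n' hn' h1
    · exact (hdisj n' hn' n hn h1).symm
  · intro n hn
    have h1 := ha5 n (by omega)
    obtain ⟨y, hy, hy'⟩ := ha1 (n + 1) hn
    have hy1 := hlt _ y hy
    have hch := List.isChain_iff_getElem.1 (h.hch i hi).1 (a (n + 1) - 1) (by omega)
    have he : a (n + 1) - 1 + 1 = a (n + 1) := by omega
    refine ⟨(hz i)[a (n + 1) - 1], mem_seg.2 ⟨a (n + 1) - 1, by omega, by omega,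
      List.getElem?_eq_getElem _⟩, y, mem_seg.2 ⟨a (n + 1), le_rfl, ha5 (n + 1) hn, hy⟩, ?_⟩
    have h2 : (hz i)[a (n + 1) - 1 + 1] = y := by
      have h3 : (hz i)[a (n + 1) - 1 + 1]? = some y := by rw [he]; exact hy
      rw [List.getElem?_eq_getElem (by omega)] at h3
      exact Option.some_injective _ h3
    rw [h2] at hch
    exact hch

end AuxC4

theorem C4 : PC4 := by
  intro V G d N Vs hz h
  have := fun i (hi : i < N) => AuxC4.aux G d N Vs hz h i hi
  choose f hf using this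
  refine ⟨fun i => if hi : i < N then f i hi else fun _ => [], fun i hi => ?_⟩
  simp only [dif_pos hi]
  exact hf i hi

end Pool.Agent.GridThm
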