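import Pool.Agent.Work.Tools.GridThm.Stmts

/-!
# The excluded grid theorem: C5, subpaths between consecutive hits
-/

set_option autoImplicit false

namespace Pool.Agent.GridThm

namespace AuxC5

variable {V : Type}

theorem split_unique {z : V} : ∀ {l1 l1' l2 l2' : List V}, (l1 ++ z :: l2).Nodup →
    l1 ++ z :: l2 = l1' ++ z :: l2' → l1 = l1' ∧ l2 = l2' := by
  intro l1
  induction l1 with
  | nil =>
    intro l1' l2 l2' hn h
    rcases l1' with _ | ⟨a, l1'⟩
    · simp only [List.nil_append, List.cons.injEq, true_and] at h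
      exact ⟨rfl, h⟩
    · exfalso
      simp only [List.nil_append, List.cons_append, List.cons.injEq] at h
      obtain ⟨h1, h2⟩ := h
      rw [List.nil_append, List.nodup_cons] at hn
      apply hn.1
      rw [h2]
      simp
  | cons a l1 ih =>
    intro l1' l2 l2' hn h
    rcases l1' with _ | ⟨b, l1'⟩
    · exfalso
      simp only [List.nil_append, List.cons_append, List.cons.injEq] at h
      obtain ⟨h1, h2⟩ := h
      rw [List.cons_append, List.nodup_cons] at hn
      apply hn.1
      rw [h1]
      simp
    · simp only [List.cons_append, List.cons.injEq] at h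
      obtain ⟨h1, h2⟩ := h
      rw [List.cons_append, List.nodup_cons] at hn
      obtain ⟨h3, h4⟩ := ih hn.2 h2
      exact ⟨by rw [h1, h3], h4⟩

theorem first_eq {A : Set V} : ∀ {m m' t t' : List V} {y y' : V}, y ∈ A → y' ∈ A →
    (∀ u ∈ m, u ∉ A) → (∀ u ∈ m', u ∉ A) → m ++ y :: t = m' ++ y' :: t' → y = y' := by
  intro m
  induction m with
  | nil =>
    intro m' t t' y y' hy hy' _ hm' h
    rcases m' with _ | ⟨a, m'⟩
    · simp only [List.nil_append, List.cons.injEq] at h
      exact h.1
    · simp only [List.nil_append, List.cons_append, List.cons.injEq] at h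
      exact absurd (h.1 ▸ hy) (hm' a (by simp))
  | cons b m ih =>
    intro m' t t' y y' hy hy' hm hm' h
    rcases m' with _ | ⟨a, m'⟩
    · simp only [List.nil_append, List.cons_append, List.cons.injEq] at h
      exact absurd (h.1 ▸ hy') (hm b (by simp))
    · simp only [List.cons_append, List.cons.injEq] at h
      exact ih hy hy' (fun u hu => hm u (by simp [hu])) (fun u hu => hm' u (by simp [hu])) h.2

end AuxC5

theorem C5 : PC5 := by
  intro V A v s mid t s' mid' t' x y x' y' z hn h h' hx hy hx' hy' hm hm' hz hz'
  obtain ⟨m1, m2, rfl⟩ := List.append_of_mem hz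
  obtain ⟨m1', m2', rfl⟩ := List.append_of_mem hz'
  have e1 : v = (s ++ x :: m1) ++ z :: (m2 ++ y :: t) := by rw [h]; simp
  have e2 : v = (s' ++ x' :: m1') ++ z :: (m2' ++ y' :: t') := by rw [h']; simp
  obtain ⟨h3, h4⟩ := AuxC5.split_unique (e1 ▸ hn) (e1.symm.trans e2)
  refine ⟨?_, ?_⟩
  · have h5 : m1.reverse ++ x :: s.reverse = m1'.reverse ++ x' :: s'.reverse := by
      have := congrArg List.reverse h3
      simpa using this
    refine AuxC5.first_eq hx hx' ?_ ?_ h5
    · intro u hu
      exact hm u (by simp at hu; simp [hu])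
    · intro u hu
      exact hm' u (by simp at hu; simp [hu])
  · refine AuxC5.first_eq hy hy' ?_ ?_ h4
    · intro u hu
      exact hm u (by simp [hu])
    · intro u hu
      exact hm' u (by simp [hu])

end Pool.Agent.GridThm
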