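import Pool.Agent.Work.Tools.GridThm.Stmts

/-!
# The excluded grid theorem: item C6 (path case: grid)
-/

set_option autoImplicit false

namespace Pool.Agent.GridThm

namespace AuxC6

variable {V : Type}

theorem ends {G : SimpleGraph V} {s mid t : List V} {x y : V}
    (h : (s ++ x :: mid ++ y :: t).IsChain G.Adj) : mid.IsChain G.Adj ∧ (mid = [] → G.Adj x y) ∧
      (mid ≠ [] → (∃ a ∈ mid, G.Adj x a) ∧ ∃ b ∈ mid, G.Adj b y) := by
  rw [List.isChain_append] at h
  obtain ⟨h1, _, h3⟩ := h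
  have h4 : (x :: mid).IsChain G.Adj := h1.right_of_append
  refine ⟨h4.tail, ?_, ?_⟩
  · rintro rfl
    exact h3 x (by simp) y (by simp)
  · intro hm
    constructor
    · cases mid with
      | nil => exact absurd rfl hm
      | cons m ms =>
        rw [List.isChain_cons_cons] at h4
        exact ⟨m, by simp, h4.1⟩
    · rcases List.eq_nil_or_concat mid with h5 | ⟨ms, b, h5⟩
      · exact absurd h5 hm
      · refine ⟨b, by rw [h5]; simp, h3 b ?_ y (by simp)⟩
        have : s ++ x :: mid = (s ++ x :: ms) ++ [b] := by rw [h5]; simp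
        rw [this]
        exact List.getLast?_concat

end AuxC6

theorem C6 (h1 : PC4) (h2 : PC5) : PC6 := by
  classical
  intro V G K Vs hz hcrs hht
  obtain ⟨sg, hsg⟩ := h1 G K K Vs hz hcrs
  have huniq : ∀ i < K, ∀ j < K, ∀ x, x ∈ hz i → x ∈ hz j → i = j := by
    intro i hi j hj x hx hx'
    by_contra hne
    exact hcrs.hdis i hi j hj hne hx hx'
  have hht' : ∀ n (_ : n < K) t (_ : t + 1 < K), Ht K hz (Vs n) t (t + 1) := hht
  unfold Ht at hht'
  choose s mid t x y hv hxy hmid using hht'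
  -- the connecting pieces
  obtain ⟨md, hmd, hmd0⟩ : ∃ md : ℕ → ℕ → List V,
      (∀ n (hn : n < K) i (hi : i + 1 < K), md n i = mid n hn i hi) ∧
      ∀ n i, ¬ (n < K ∧ i + 1 < K) → md n i = [] :=
    ⟨fun n i => if h : n < K ∧ i + 1 < K then mid n h.1 i h.2 else [],
      fun n hn i hi => dif_pos ⟨hn, hi⟩, fun n i h => dif_neg h⟩
  have hmdz : ∀ n i, ∀ z ∈ md n i, ∀ l < K, z ∉ hz l := by
    intro n i z hzm l hl
    by_cases h : n < K ∧ i + 1 < K
    · rw [hmd n h.1 i h.2] at hzm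
      exact hmid n h.1 i h.2 z hzm l hl
    · rw [hmd0 n i h] at hzm
      simp at hzm
  have hmdV : ∀ n i, ∀ z ∈ md n i, z ∈ Vs n := by
    intro n i z hzm
    by_cases h : n < K ∧ i + 1 < K
    · rw [hmd n h.1 i h.2] at hzm
      rw [hv n h.1 i h.2]
      simp [hzm]
    · rw [hmd0 n i h] at hzm
      simp at hzm
  -- the ends on the horizontals
  have hends : ∀ n (_ : n < K) i (_ : i + 1 < K), ∃ p ∈ sg i n, ∃ q ∈ sg (i + 1) n,
      (md n i).IsChain G.Adj ∧ (md n i = [] → G.Adj p q) ∧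
      (md n i ≠ [] → (∃ a ∈ md n i, G.Adj p a) ∧ ∃ b ∈ md n i, G.Adj b q) := by
    intro n hn i hi
    have hch := (hcrs.vch n hn).1
    rw [hv n hn i hi] at hch
    obtain ⟨e1, e2, e3⟩ := AuxC6.ends hch
    have hxV : x n hn i hi ∈ Vs n := by rw [hv n hn i hi]; simp
    have hyV : y n hn i hi ∈ Vs n := by rw [hv n hn i hi]; simp
    rw [hmd n hn i hi]
    rcases hxy n hn i hi with ⟨hx, hy⟩ | ⟨hx, hy⟩
    · exact ⟨_, ((hsg i (by omega)).1 n hn).2.2.2 _ hx hxV, _,
        ((hsg (i + 1) hi).1 n hn).2.2.2 _ hy hyV, e1, e2, e3⟩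
    · refine ⟨_, ((hsg i (by omega)).1 n hn).2.2.2 _ hy hyV, _,
        ((hsg (i + 1) hi).1 n hn).2.2.2 _ hx hxV, e1, fun h => (e2 h).symm, fun h => ?_⟩
      obtain ⟨⟨a, ha, ha'⟩, b, hb, hb'⟩ := e3 h
      exact ⟨⟨b, hb, hb'.symm⟩, a, ha, ha'.symm⟩
  refine ⟨fun n i => {u | u ∈ sg i n ∨ u ∈ md n i}, ?_, ?_, ?_, ?_⟩
  · -- connected
    intro n i hn hi
    have c1 := conn_list ((hsg i hi).1 n hn).1 ((hsg i hi).1 n hn).2.1
    by_cases hm : md n i = []
    · have : {u | u ∈ sg i n ∨ u ∈ md n i} = {u | u ∈ sg i n} := by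
        ext u; simp [hm]
      rw [this]
      exact c1
    · have hi1 : i + 1 < K := by
        by_contra hc
        exact hm (hmd0 n i (fun h => hc h.2))
      obtain ⟨p, hp, q, hq, e1, e2, e3⟩ := hends n hn i hi1
      obtain ⟨⟨a, ha, ha'⟩, _⟩ := e3 hm
      have c2 := conn_list hm e1
      exact conn_adj c1 c2 (a := p) (b := a) hp ha ha'
  · -- disjoint
    intro n i n' i' hn hi hn' hi' hne
    rw [Set.disjoint_left]
    rintro u (hu | hu) (hu' | hu')
    · have ht : i = i' := huniq i hi i' hi' u (((hsg i hi).1 n hn).2.2.1 u hu)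
        (((hsg i' hi').1 n' hn').2.2.1 u hu')
      subst ht
      have hnn : n ≠ n' := fun h => hne (by rw [h])
      exact (hsg i hi).2.1 n hn n' hn' hnn hu hu'
    · exact hmdz n' i' u hu' i hi (((hsg i hi).1 n hn).2.2.1 u hu)
    · exact hmdz n i u hu i' hi' (((hsg i' hi').1 n' hn').2.2.1 u hu')
    · by_cases hnn : n = n'
      · subst hnn
        have hii : i ≠ i' := fun h => hne (by rw [h])
        have g1 : i + 1 < K := by
          by_contra hc
          rw [hmd0 n i (fun h => hc h.2)] at hu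
          simp at hu
        have g2 : i' + 1 < K := by
          by_contra hc
          rw [hmd0 n i' (fun h => hc h.2)] at hu'
          simp at hu'
        rw [hmd n hn i g1] at hu
        rw [hmd n hn i' g2] at hu'
        have hA : ∀ j (hj : j + 1 < K), x n hn j hj ∈ {v | ∃ l < K, v ∈ hz l} ∧
            y n hn j hj ∈ {v | ∃ l < K, v ∈ hz l} := by
          intro j hj
          rcases hxy n hn j hj with ⟨ha, hb⟩ | ⟨ha, hb⟩
          · exact ⟨⟨j, by omega, ha⟩, ⟨j + 1, hj, hb⟩⟩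
          · exact ⟨⟨j + 1, hj, ha⟩, ⟨j, by omega, hb⟩⟩
        obtain ⟨ex, ey⟩ := h2 {v | ∃ l < K, v ∈ hz l} (Vs n) _ _ _ _ _ _ _ _ _ _ u
          (hcrs.vch n hn).2 (hv n hn i g1) (hv n hn i' g2) (hA i g1).1 (hA i g1).2
          (hA i' g2).1 (hA i' g2).2
          (fun w hw ⟨l, hl, hw'⟩ => hmid n hn i g1 w hw l hl hw')
          (fun w hw ⟨l, hl, hw'⟩ => hmid n hn i' g2 w hw l hl hw') hu hu'
        have k1 := hxy n hn i g1
        have k2 := hxy n hn i' g2
        rw [ex, ey] at k1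
        rcases k1 with ⟨a1, a2⟩ | ⟨a1, a2⟩
        · rcases k2 with ⟨b1, b2⟩ | ⟨b1, b2⟩
          · exact hii (huniq i hi i' hi' _ a1 b1)
          · have c1 := huniq i hi (i' + 1) g2 _ a1 b1
            have c2 := huniq (i + 1) g1 i' hi' _ a2 b2
            omega
        · rcases k2 with ⟨b1, b2⟩ | ⟨b1, b2⟩
          · have c1 := huniq (i + 1) g1 i' hi' _ a1 b1
            have c2 := huniq i hi (i' + 1) g2 _ a2 b2
            omega
          · exact hii (huniq i hi i' hi' _ a2 b2)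
      · exact hcrs.vdis n hn n' hn' hnn (hmdV n i u hu) (hmdV n' i' u hu')
  · -- horizontal
    intro n i hn hi
    obtain ⟨a, ha, b, hb, hab⟩ := (hsg i hi).2.2 n hn
    exact ⟨a, Or.inl ha, b, Or.inl hb, hab⟩
  · -- vertical
    intro n i hn hi
    obtain ⟨p, hp, q, hq, e1, e2, e3⟩ := hends n hn i hi
    by_cases hm : md n i = []
    · exact ⟨p, Or.inl hp, q, Or.inl hq, e2 hm⟩
    · obtain ⟨_, b, hb, hb'⟩ := e3 hm
      exact ⟨b, Or.inr hb, q, Or.inl hq, hb'⟩

end Pool.Agent.GridThm
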