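import Pool.Agent.Work.Tools.GridThm.Stmts

/-!
# The excluded grid theorem, item C7: a star in the hit graphs gives a complete minor
-/

set_option autoImplicit false

namespace Pool.Agent.GridThm

namespace AuxC7

variable {V : Type} {G : SimpleGraph V}

/-- One vertical hits `hz i` and `hz Δ` in consecutive order: the part between, together with the
segment of `hz Δ`, is connected and attached to `hz i`. -/
theorem link {N : ℕ} {hz : ℕ → List V} {v sg : List V} {i j : ℕ} (hv : v.IsChain G.Adj)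
    (h : Ht N hz v i j) (hs : sg ≠ []) (hc : sg.IsChain G.Adj)
    (hsub : ∀ x ∈ hz j, x ∈ v → x ∈ sg) :
    ∃ M : Set V, (∀ m ∈ M, m ∈ v) ∧ (∀ m ∈ M, ∀ l < N, m ∉ hz l) ∧
      (G.induce (M ∪ {x | x ∈ sg})).Connected ∧
      ∃ x ∈ hz i, ∃ m ∈ M ∪ {x | x ∈ sg}, G.Adj x m := by
  obtain ⟨s, mid, t, x, y, hvv, hxy, hmid⟩ := h
  have hsg := conn_list hs hc
  refine ⟨{z | z ∈ mid}, ?_, hmid, ?_⟩
  · intro m hm
    rw [hvv]
    simp only [Set.mem_ofPred_eq] at hm
    simp [hm]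
  have hx : x ∈ v := by rw [hvv]; simp
  have hy : y ∈ v := by rw [hvv]; simp
  have hv1 : (x :: (mid ++ [y])).IsChain G.Adj := by
    have h1 : v = s ++ ((x :: (mid ++ [y])) ++ t) := by rw [hvv]; simp
    rw [h1] at hv
    exact (List.isChain_append.1 (List.isChain_append.1 hv).2.1).1
  rcases hxy with ⟨hxi, hyj⟩ | ⟨hxj, hyi⟩
  · -- `mid ++ [y]` is a chain
    have hys : y ∈ sg := hsub y hyj hy
    have h2 : (mid ++ [y]).IsChain G.Adj := hv1.tail
    have h3 := conn_list (by simp) h2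
    have h4 := conn_union h3 hsg ⟨y, by simp, hys⟩
    have h5 : ({z | z ∈ mid ++ [y]} ∪ {z | z ∈ sg} : Set V) = {z | z ∈ mid} ∪ {z | z ∈ sg} := by
      ext z
      simp only [List.mem_append, List.mem_singleton, Set.mem_union, Set.mem_ofPred_eq]
      constructor
      · rintro ((h | rfl) | h)
        · exact Or.inl h
        · exact Or.inr hys
        · exact Or.inr h
      · rintro (h | h)
        · exact Or.inl (Or.inl h)
        · exact Or.inr h
    rw [h5] at h4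
    refine ⟨h4, x, hxi, ?_⟩
    rcases mid with _ | ⟨m, mid⟩
    · exact ⟨y, Or.inr hys, by simpa using hv1⟩
    · refine ⟨m, Or.inl (by simp), ?_⟩
      rw [List.cons_append, List.isChain_cons_cons] at hv1
      exact hv1.1
  · have hxs : x ∈ sg := hsub x hxj hx
    have h2 : (x :: mid).IsChain G.Adj := by
      have : x :: (mid ++ [y]) = (x :: mid) ++ [y] := by simp
      rw [this] at hv1
      exact (List.isChain_append.1 hv1).1
    have h3 := conn_list (by simp) h2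
    have h4 := conn_union h3 hsg ⟨x, by simp, hxs⟩
    have h5 : ({z | z ∈ x :: mid} ∪ {z | z ∈ sg} : Set V) = {z | z ∈ mid} ∪ {z | z ∈ sg} := by
      ext z
      simp only [List.mem_cons, Set.mem_union, Set.mem_ofPred_eq]
      constructor
      · rintro ((rfl | h) | h)
        · exact Or.inr hxs
        · exact Or.inl h
        · exact Or.inr h
      · rintro (h | h)
        · exact Or.inl (Or.inr h)
        · exact Or.inr h
    rw [h5] at h4
    refine ⟨h4, y, hyi, ?_⟩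
    have h6 : ∀ z ∈ (x :: mid).getLast?, G.Adj z y := by
      have : x :: (mid ++ [y]) = (x :: mid) ++ [y] := by simp
      rw [this] at hv1
      intro z hz'
      exact (List.isChain_append.1 hv1).2.2 z hz' y (by simp)
    have h7 : (x :: mid).getLast? = some ((x :: mid).getLast (by simp)) :=
      List.getLast?_eq_some_getLast _
    have h8 := h6 _ h7
    have h9 : (x :: mid).getLast (by simp) ∈ x :: mid := List.getLast_mem _
    rw [List.mem_cons] at h9
    refine ⟨(x :: mid).getLast (by simp), ?_, h8.symm⟩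
    rcases h9 with h9 | h9
    · rw [h9]; exact Or.inr hxs
    · exact Or.inl h9

end AuxC7

theorem C7 (h1 : PC4) : PC7 := by
  intro V G D Δ Vs hz h hD hH
  obtain ⟨sg, hsg⟩ := h1 G D (Δ + 1) Vs hz h
  obtain ⟨hs1, hs2, -⟩ := hsg Δ (Nat.lt_succ_self Δ)
  -- the vertical with the number `i * Δ + j`
  have hn : ∀ i j, i < Δ → j < Δ → i * Δ + j < D := by
    intro i j hi hj
    have : (i + 1) * Δ ≤ Δ * Δ := Nat.mul_le_mul_right _ hi
    nlinarith
  have hinj : ∀ i j i' j', j < Δ → j' < Δ → i * Δ + j = i' * Δ + j' → i = i' := by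
    intro i j i' j' hj hj' he
    have hΔ : 0 < Δ := by omega
    have e1 : (i * Δ + j) / Δ = i := by
      rw [Nat.add_comm, Nat.add_mul_div_right _ _ hΔ, Nat.div_eq_of_lt hj, Nat.zero_add]
    have e2 : (i' * Δ + j') / Δ = i' := by
      rw [Nat.add_comm, Nat.add_mul_div_right _ _ hΔ, Nat.div_eq_of_lt hj', Nat.zero_add]
    rw [← e1, ← e2, he]
  have hlink : ∀ n i, ∃ M : Set V, n < D → i < Δ → (∀ m ∈ M, m ∈ Vs n) ∧
      (∀ m ∈ M, ∀ l < Δ + 1, m ∉ hz l) ∧ (G.induce (M ∪ {x | x ∈ sg Δ n})).Connected ∧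
      ∃ x ∈ hz i, ∃ m ∈ M ∪ {x | x ∈ sg Δ n}, G.Adj x m := by
    intro n i
    by_cases hn' : n < D
    · by_cases hi : i < Δ
      · obtain ⟨hne, hch, -, hhit⟩ := hs1 n hn'
        obtain ⟨M, hM⟩ := AuxC7.link (h.vch n hn').1 (hH n hn' i hi) hne hch hhit
        exact ⟨M, fun _ _ => hM⟩
      · exact ⟨∅, fun _ h => absurd h hi⟩
    · exact ⟨∅, fun h => absurd h hn'⟩
  choose M hM using hlink
  -- the connection between `hz i` and `hz j`
  let X : ℕ → ℕ → Set V := fun i j => (M (i * Δ + j) i ∪ {x | x ∈ sg Δ (i * Δ + j)}) ∪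
    (M (i * Δ + j) j ∪ {x | x ∈ sg Δ (i * Δ + j)})
  have hXc : ∀ i j, i < Δ → j < Δ → (G.induce (X i j)).Connected := by
    intro i j hi hj
    have hnn := hn i j hi hj
    obtain ⟨-, -, hc1, -⟩ := hM _ i hnn hi
    obtain ⟨-, -, hc2, -⟩ := hM _ j hnn hj
    obtain ⟨hne, -⟩ := hs1 _ hnn
    obtain ⟨z, hz'⟩ := List.exists_mem_of_ne_nil _ hne
    exact conn_union hc1 hc2 ⟨z, Or.inr hz', Or.inr hz'⟩
  have hXi : ∀ i j, i < Δ → j < Δ → ∃ x ∈ hz i, ∃ m ∈ X i j, G.Adj x m := by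
    intro i j hi hj
    obtain ⟨-, -, -, x, hx, m, hm, hxm⟩ := hM _ i (hn i j hi hj) hi
    exact ⟨x, hx, m, Or.inl hm, hxm⟩
  have hXj : ∀ i j, i < Δ → j < Δ → ∃ x ∈ hz j, ∃ m ∈ X i j, G.Adj x m := by
    intro i j hi hj
    obtain ⟨-, -, -, x, hx, m, hm, hxm⟩ := hM _ j (hn i j hi hj) hj
    exact ⟨x, hx, m, Or.inr hm, hxm⟩
  -- a vertex of `X i j` is an inner vertex of a vertical or in a segment of `hz Δ`
  have hXm : ∀ i j, i < Δ → j < Δ → ∀ x ∈ X i j,
      (x ∈ Vs (i * Δ + j) ∧ ∀ l < Δ + 1, x ∉ hz l) ∨ x ∈ sg Δ (i * Δ + j) := by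
    intro i j hi hj x hx
    have hnn := hn i j hi hj
    rcases hx with (hx | hx) | (hx | hx)
    · exact Or.inl ⟨(hM _ i hnn hi).1 x hx, (hM _ i hnn hi).2.1 x hx⟩
    · exact Or.inr hx
    · exact Or.inl ⟨(hM _ j hnn hj).1 x hx, (hM _ j hnn hj).2.1 x hx⟩
    · exact Or.inr hx
  have hXh : ∀ i j k, i < Δ → j < Δ → k < Δ → ∀ x ∈ X i j, x ∉ hz k := by
    intro i j k hi hj hk x hx hxk
    rcases hXm i j hi hj x hx with ⟨-, h2⟩ | h2
    · exact h2 k (by omega) hxk
    · have h3 := (hs1 _ (hn i j hi hj)).2.2.1 x h2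
      exact h.hdis k (by omega) Δ (by omega) (by omega) hxk h3
  have hXX : ∀ i j i' j', i < Δ → j < Δ → i' < Δ → j' < Δ → i ≠ i' → ∀ x ∈ X i j,
      x ∉ X i' j' := by
    intro i j i' j' hi hj hi' hj' hii x hx hx'
    have hnn := hn i j hi hj
    have hnn' := hn i' j' hi' hj'
    have hne : i * Δ + j ≠ i' * Δ + j' := fun e => hii (hinj i j i' j' hj hj' e)
    rcases hXm i j hi hj x hx with ⟨h1, h2⟩ | h2
    · rcases hXm i' j' hi' hj' x hx' with ⟨h1', -⟩ | h2'
      · exact h.vdis _ hnn _ hnn' hne h1 h1'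
      · exact h2 Δ (by omega) ((hs1 _ hnn').2.2.1 x h2')
    · rcases hXm i' j' hi' hj' x hx' with ⟨-, h2'⟩ | h2'
      · exact h2' Δ (by omega) ((hs1 _ hnn).2.2.1 x h2)
      · exact hs2 _ hnn _ hnn' hne h2 h2'
  let B : ℕ → Set V := fun i => {x | x ∈ hz i} ∪ ⋃ j : {j : ℕ // j < Δ}, X i j
  have hB : ∀ i x, x ∈ B i ↔ x ∈ hz i ∨ ∃ j < Δ, x ∈ X i j := by
    intro i x
    simp only [B, Set.mem_union, Set.mem_ofPred_eq, Set.mem_iUnion, Subtype.exists, exists_prop]
  refine ⟨B, ?_, ?_, ?_⟩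
  · intro i hi
    refine conn_iUnion ?_ (fun j => hXc i j hi j.2) ?_
    · refine conn_list ?_ (h.hch i (by omega)).1
      obtain ⟨x, -, hx⟩ := h.meet 0 (by have := hn i i hi hi; omega) i (by omega)
      exact List.ne_nil_of_mem hx
    · rintro ⟨j, hj⟩
      obtain ⟨x, hx, m, hm, hxm⟩ := hXi i j hi hj
      exact ⟨x, hx, m, hm, Or.inr hxm⟩
  · intro i hi i' hi' hii
    rw [Set.disjoint_left]
    intro x hx hx'
    rw [hB] at hx hx'
    rcases hx with hx | ⟨j, hj, hx⟩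
    · rcases hx' with hx' | ⟨j', hj', hx'⟩
      · exact h.hdis i (by omega) i' (by omega) hii hx hx'
      · exact hXh i' j' i hi' hj' hi x hx' hx
    · rcases hx' with hx' | ⟨j', hj', hx'⟩
      · exact hXh i j i' hi hj hi' x hx hx'
      · exact hXX i j i' j' hi hj hi' hj' hii x hx hx'
  · intro i hi j hj _
    obtain ⟨x, hx, m, hm, hxm⟩ := hXj i j hi hj
    exact ⟨m, (hB i m).2 (Or.inr ⟨j, hj, hm⟩), x, (hB j x).2 (Or.inl hx), hxm.symm⟩

end Pool.Agent.GridThm
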