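import Pool.Agent.Work.Tools.GridThm.Stmts

/-!
# The excluded grid theorem, item C8 (helper61): a large complete minor contains a grid minor
-/

set_option autoImplicit false

namespace Pool.Agent.GridThm

namespace AuxC8

theorem idx_lt {K m x y : ℕ} (hm : K * K ≤ m) (hx : x < K) (hy : y < K) : x * K + y < m := by
  have h1 : (x + 1) * K ≤ K * K := Nat.mul_le_mul_right K hx
  have h2 : (x + 1) * K = x * K + K := by ring
  omega

theorem idx_inj {K x y x' y' : ℕ} (hy : y < K) (hy' : y' < K) (h : x * K + y = x' * K + y') :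
    (x, y) = (x', y') := by
  have hK : 0 < K := by omega
  have e1 : (x * K + y) / K = x := by
    rw [Nat.add_comm, Nat.add_mul_div_right _ _ hK, Nat.div_eq_of_lt hy, Nat.zero_add]
  have e2 : (x' * K + y') / K = x' := by
    rw [Nat.add_comm, Nat.add_mul_div_right _ _ hK, Nat.div_eq_of_lt hy', Nat.zero_add]
  have e3 : x = x' := by rw [← e1, ← e2, h]
  subst e3
  have e4 : y = y' := Nat.add_left_cancel h
  rw [e4]

end AuxC8

theorem C8 : PC8 := by
  rintro V G K m hKm ⟨B, hconn, hdisj, hadj⟩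
  refine ⟨fun x y => B (x * K + y), ?_, ?_, ?_, ?_⟩
  · intro x y hx hy
    exact hconn _ (AuxC8.idx_lt hKm hx hy)
  · intro x y x' y' hx hy hx' hy' hne
    exact hdisj _ (AuxC8.idx_lt hKm hx hy) _ (AuxC8.idx_lt hKm hx' hy')
      fun h => hne (AuxC8.idx_inj hy hy' h)
  · intro x y hx hy
    refine hadj _ (AuxC8.idx_lt hKm (by omega) hy) _ (AuxC8.idx_lt hKm hx hy) fun h => ?_
    have := AuxC8.idx_inj hy hy h
    simp at this
  · intro x y hx hy
    refine hadj _ (AuxC8.idx_lt hKm hx (by omega)) _ (AuxC8.idx_lt hKm hx hy) fun h => ?_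
    have := AuxC8.idx_inj (by omega) hy h
    simp at this

end Pool.Agent.GridThm
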