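import Pool.Agent.Work.Tools.GridThm.Stmts

/-!
# C9: a large ordered crossing gives a grid
-/

set_option autoImplicit false

namespace Pool.Agent.GridThm

namespace AuxC9

variable {V : Type} {G : SimpleGraph V}

/-- A sub-selection of the verticals and of the horizontals. -/
theorem crs_sub {d N D M : ℕ} {Vs hz : ℕ → List V} (h : Crs G d N Vs hz) (f g : ℕ → ℕ)
    (hf : ∀ n < D, f n < d) (hf' : ∀ n < D, ∀ n' < D, n < n' → f n < f n')
    (hg : ∀ i < M, g i < N) (hg' : ∀ i < M, ∀ j < M, i ≠ j → g i ≠ g j) :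
    Crs G D M (fun n => Vs (f n)) (fun i => hz (g i)) where
  vch n hn := h.vch _ (hf n hn)
  vdis n hn n' hn' hne := by
    refine h.vdis _ (hf n hn) _ (hf n' hn') ?_
    rcases lt_or_gt_of_ne hne with h1 | h1
    · exact (hf' n hn n' hn' h1).ne
    · exact (hf' n' hn' n hn h1).ne'
  hch i hi := h.hch _ (hg i hi)
  hdis i hi j hj hij := h.hdis _ (hg i hi) _ (hg j hj) (hg' i hi j hj hij)
  meet n hn i hi := h.meet _ (hf n hn) _ (hg i hi)
  ord n hn n' hn' hnn i hi a b x y hx hy hxv hyv :=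
    h.ord _ (hf n hn) _ (hf n' hn') (hf' n hn n' hn' hnn) _ (hg i hi) a b x y hx hy hxv hyv

theorem ht_sub {N M : ℕ} {hz : ℕ → List V} {v : List V} {i j : ℕ} (g : ℕ → ℕ)
    (hg : ∀ i < M, g i < N) (h : Ht N hz v (g i) (g j)) :
    Ht M (fun i => hz (g i)) v i j := by
  obtain ⟨s, mid, t, x, y, h1, h2, h3⟩ := h
  exact ⟨s, mid, t, x, y, h1, h2, fun z hz' l hl => h3 z hz' _ (hg l hl)⟩

theorem ht_symm {N : ℕ} {hz : ℕ → List V} {v : List V} {i j : ℕ} (h : Ht N hz v i j) :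
    Ht N hz v j i := by
  obtain ⟨s, mid, t, x, y, h1, h2, h3⟩ := h
  exact ⟨s, mid, t, x, y, h1, h2.symm, h3⟩

end AuxC9

open AuxC9 in
theorem C9 (h2 : PC2) (h3 : PC3) (h6 : PC6) (h7 : PC7) (h8 : PC8) : PC9 := by
  intro K
  set Δ : ℕ := K * K with hΔ
  set N : ℕ := (Δ + 1) ^ K with hN
  set D : ℕ := max K (Δ * Δ) with hD
  have hN0 : 0 < N := by positivity
  refine ⟨N, 2 ^ (N * N) * D, ?_⟩
  intro V G Vs hz hcrs
  obtain ⟨Γ, f, hΓ, hf1, hf2, hf3⟩ := h2 G (2 ^ (N * N) * D) D N Vs hz hN0 hcrs le_rfl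
  have hKD : K ≤ D := le_max_left _ _
  have hΔD : Δ * Δ ≤ D := le_max_right _ _
  rcases h3 K Δ N Γ le_rfl hΓ with ⟨p, hp1, hp2⟩ | ⟨c, p, hp1, hp2⟩
  · -- a long path
    have hg : ∀ i < K, (fun i => ((p i : Fin N) : ℕ)) i < N := fun i _ => (p i).2
    have hcr := crs_sub (D := K) (M := K) hcrs f (fun i => ((p i : Fin N) : ℕ))
      (fun n hn => hf1 n (lt_of_lt_of_le hn hKD))
      (fun n hn n' hn' => hf2 n (lt_of_lt_of_le hn hKD) n' (lt_of_lt_of_le hn' hKD)) hg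
      (fun i hi j hj hij h => hp1 i hi j hj hij (Fin.ext h))
    refine h6 G K _ _ hcr fun n hn t ht => ?_
    exact ht_sub (fun i => ((p i : Fin N) : ℕ)) hg
      (hf3 n (lt_of_lt_of_le hn hKD) _ _ (hp2 t ht))
  · -- a vertex of large degree
    set g : ℕ → ℕ := fun i => if i < Δ then ((p i : Fin N) : ℕ) else (c : ℕ) with hgdef
    have hg : ∀ i < Δ + 1, g i < N := by
      intro i _
      simp only [hgdef]
      split_ifs
      · exact (p i).2
      · exact c.2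
    have hcp : ∀ i < Δ, (c : ℕ) ≠ (p i : ℕ) := fun i hi h => (hp1 i hi).ne (Fin.ext h)
    have hg' : ∀ i < Δ + 1, ∀ j < Δ + 1, i ≠ j → g i ≠ g j := by
      intro i hi j hj hij
      simp only [hgdef]
      split_ifs with h1 h2 h2
      · exact fun h => hp2 i h1 j h2 hij (Fin.ext h)
      · exact (hcp i h1).symm
      · exact hcp j h2
      · omega
    have hcr := crs_sub (D := D) (M := Δ + 1) hcrs f g hf1 hf2 hg hg'
    have hcl := h7 G D Δ _ _ hcr hΔD fun n hn t ht => by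
      refine ht_sub g hg ?_
      have e1 : g t = (p t : ℕ) := if_pos ht
      have e2 : g Δ = (c : ℕ) := if_neg (lt_irrefl Δ)
      rw [e1, e2]
      exact ht_symm (hf3 n hn _ _ (hp1 t ht))
    exact h8 G K Δ le_rfl hcl

end Pool.Agent.GridThm
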