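import Pool.Agent.Work.Tools.GridThm.Stmts

/-!
# The excluded grid theorem, item D1 (helper61): tight families exist
-/

set_option autoImplicit false

namespace Pool.Agent.GridThm

namespace AuxD1

variable {V : Type}

theorem nx_mem {l : List V} {u v : V} (h : Nx l u v) : u ∈ l ∧ v ∈ l := by
  obtain ⟨s, t, rfl⟩ := h
  simp

theorem ed_mem {P : Finset (List V)} {u v : V} (h : Ed P u v) : ∃ l ∈ P, u ∈ l ∧ v ∈ l := by
  obtain ⟨l, hl, h | h⟩ := h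
  · exact ⟨l, hl, nx_mem h⟩
  · exact ⟨l, hl, (nx_mem h).2, (nx_mem h).1⟩

theorem ed_symm {P : Finset (List V)} {u v : V} (h : Ed P u v) : Ed P v u := by
  obtain ⟨l, hl, h | h⟩ := h
  · exact ⟨l, hl, Or.inr h⟩
  · exact ⟨l, hl, Or.inl h⟩

/-- the edges of `Q` outside `P` -/
def out (P Q : Finset (List V)) : Set (V × V) := {p | Ed Q p.1 p.2 ∧ ¬ Ed P p.1 p.2}

theorem out_finite (P Q : Finset (List V)) : (out P Q).Finite := by
  have h1 : {x : V | ∃ l ∈ Q, x ∈ l}.Finite := by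
    have : {x : V | ∃ l ∈ Q, x ∈ l} = ⋃ l ∈ Q, {x | x ∈ l} := by
      ext x
      simp
    rw [this]
    exact Set.Finite.biUnion Q.finite_toSet fun l _ => List.finite_toSet l
  refine (h1.prod h1).subset ?_
  rintro ⟨u, v⟩ ⟨h, -⟩
  obtain ⟨l, hl, hu, hv⟩ := ed_mem h
  exact ⟨⟨l, hl, hu⟩, ⟨l, hl, hv⟩⟩

end AuxD1

theorem D1 : PD1 := by
  classical
  intro V G C Y Z P Q hQ
  let p : ℕ → Prop := fun n => ∃ Q' : Finset (List V), Fam G C Y Z Q' ∧ Q'.card = Q.card ∧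
    (AuxD1.out P Q').ncard = n
  have hp : ∃ n, p n := ⟨_, Q, hQ, rfl, rfl⟩
  obtain ⟨Q', hF, hc, hn⟩ := Nat.find_spec hp
  refine ⟨Q', hF, hc, ?_⟩
  rintro u v huv hP ⟨Q'', hF', hc', hE⟩
  have hlt : (AuxD1.out P Q'').ncard < (AuxD1.out P Q').ncard := by
    refine Set.ncard_lt_ncard ?_ (AuxD1.out_finite P Q')
    refine ⟨?_, ?_⟩
    · rintro ⟨a, b⟩ ⟨h1, h2⟩
      rcases (hE a b h1).1 with h | h
      · exact absurd h h2
      · exact ⟨h, h2⟩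
    · intro hsub
      have h3 : (u, v) ∈ AuxD1.out P Q' := ⟨huv, hP⟩
      exact (hE u v (hsub h3).1).2.1 ⟨rfl, rfl⟩
  rw [hn] at hlt
  exact Nat.find_min hp hlt ⟨Q'', hF', hc'.trans hc, rfl⟩

end Pool.Agent.GridThm
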