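import Pool.Agent.Work.Tools.GridThm.Stmts

/-!
# The excluded grid theorem: item D2
-/

set_option autoImplicit false

namespace Pool.Agent.GridThm

namespace AuxD2

variable {V : Type} {G : SimpleGraph V}

theorem rel_of_nx {R : V → V → Prop} {l : List V} (h : l.IsChain R) {a b : V} (hn : Nx l a b) :
    R a b := by
  obtain ⟨s, t, rfl⟩ := hn
  have h1 := h.right_of_append
  rw [List.isChain_cons_cons] at h1
  exact h1.1

theorem chain_of_nx {R : V → V → Prop} : ∀ l : List V, (∀ a b, Nx l a b → R a b) →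
    l.IsChain R := by
  intro l
  induction l with
  | nil => intro _; exact List.isChain_nil
  | cons a l ih =>
    intro h
    rcases l with _ | ⟨b, t⟩
    · exact List.isChain_singleton a
    · rw [List.isChain_cons_cons]
      refine ⟨h a b ⟨[], t, rfl⟩, ih fun a' b' hn => ?_⟩
      obtain ⟨s, t', hs⟩ := hn
      exact h a' b' ⟨a :: s, t', by rw [hs]; rfl⟩

theorem mem_of_nx {l : List V} {a b : V} (h : Nx l a b) : a ∈ l ∧ b ∈ l := by
  obtain ⟨s, t, rfl⟩ := h
  simp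

theorem nx_C {C Y Z : Set V} {l : List V} (h : CP G C Y Z l) {a b : V} (hn : Nx l a b) :
    a ∈ C ∨ b ∈ C := by
  obtain ⟨-, -, y, mid, z, hl, -, -, hmid, hC⟩ := h
  obtain ⟨s, t, hs⟩ := hn
  rw [hl] at hs
  rcases s with _ | ⟨y', s⟩
  · right
    rcases mid with _ | ⟨b', mid⟩
    · exact absurd rfl hmid
    · simp only [List.cons_append, List.nil_append, List.cons.injEq] at hs
      rw [← hs.2.1]
      exact hC b' (by simp)
  · left
    simp only [List.cons_append, List.cons.injEq] at hs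
    have h1 := congrArg List.dropLast hs.2
    rw [List.dropLast_append_of_ne_nil (by simp), List.dropLast_append_of_ne_nil (by simp)] at h1
    apply hC
    have h2 : mid = s ++ (a :: b :: t).dropLast := by simpa using h1
    rw [h2]
    simp

theorem mem_CP {C Y Z : Set V} {l : List V} (h : CP G C Y Z l) {a : V} (ha : a ∈ l) :
    a ∈ C ∪ Y ∪ Z := by
  obtain ⟨-, -, y, mid, z, rfl, hy, hz, -, hC⟩ := h
  simp only [List.cons_append, List.mem_cons, List.mem_append, List.not_mem_nil, or_false] at ha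
  rcases ha with rfl | ha | rfl
  · exact Or.inl (Or.inr hy)
  · exact Or.inl (Or.inl (hC a ha))
  · exact Or.inr hz

theorem ed_symm {P : Finset (List V)} {a b : V} (h : Ed P a b) : Ed P b a := by
  obtain ⟨l, hl, h | h⟩ := h
  · exact ⟨l, hl, Or.inr h⟩
  · exact ⟨l, hl, Or.inl h⟩

theorem ed_adj {C Y Z : Set V} {P : Finset (List V)} (hP : Fam G C Y Z P) {a b : V}
    (h : Ed P a b) : G.Adj a b ∧ (a ∈ C ∨ b ∈ C) := by
  obtain ⟨l, hl, h | h⟩ := h
  · exact ⟨rel_of_nx (hP.cp l hl).ch h, nx_C (hP.cp l hl) h⟩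
  · exact ⟨(rel_of_nx (hP.cp l hl).ch h).symm, (nx_C (hP.cp l hl) h).symm⟩

end AuxD2

open AuxD2 in
theorem D2 (h1 : PM) : PD2 := by
  classical
  intro V _ G C Y Z Y₀ Z₀ P Q q u v hYC hZC hYZ hP hQ hT hq hquv huv
  set R : V → V → Prop := Rl C Y Z P Q u v with hR
  have hRadj : ∀ a b, R a b → G.Adj a b ∧ (a ∈ C ∨ b ∈ C) ∧ a ∈ C ∪ Y ∪ Z ∧ b ∈ C ∪ Y ∪ Z := by
    rintro a b ⟨hab, ha, hb, -, -⟩
    rcases hab with hab | hab
    · exact ⟨(ed_adj hP hab).1, (ed_adj hP hab).2, ha, hb⟩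
    · exact ⟨(ed_adj hQ hab).1, (ed_adj hQ hab).2, ha, hb⟩
  obtain ⟨S, P', hP', hcard, hch, -, -, hcut⟩ := h1 G C Y Z R hYC hZC hYZ hRadj
  -- the separator is small
  have hlt : S.ncard < Q.card := by
    by_contra hcon
    push Not at hcon
    rw [← hcard] at hcon
    obtain ⟨Q', hQ'P, hQ'c⟩ := Finset.exists_subset_card_eq hcon
    refine hT u v ⟨q, hq, Or.inl hquv⟩ huv ⟨Q', ⟨fun l hl => hP'.cp l (hQ'P hl),
      fun l hl l' hl' hne => hP'.dis l (hQ'P hl) l' (hQ'P hl') hne⟩, hQ'c, ?_⟩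
    rintro a b ⟨l, hl, hab | hab⟩
    · obtain ⟨h1, -, -, h2, h3⟩ := rel_of_nx (hch l (hQ'P hl)) hab
      exact ⟨h1, h2, h3⟩
    · obtain ⟨h1, -, -, h2, h3⟩ := rel_of_nx (hch l (hQ'P hl)) hab
      exact ⟨h1.imp ed_symm ed_symm, fun h => h3 ⟨h.2, h.1⟩, fun h => h2 ⟨h.2, h.1⟩⟩
  -- every other path meets the separator
  have hmeet : ∀ l ∈ Q, l ≠ q → ∃ x ∈ l, x ∈ S := by
    intro l hl hlq
    have hd := hQ.dis l hl q hq hlq
    apply hcut l
    · refine chain_of_nx l fun a b hab => ?_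
      obtain ⟨ha, hb⟩ := mem_of_nx hab
      obtain ⟨huq, hvq⟩ := mem_of_nx hquv
      refine ⟨Or.inr ⟨l, hl, Or.inl hab⟩, mem_CP (hQ.cp l hl) ha, mem_CP (hQ.cp l hl) hb, ?_, ?_⟩
      · rintro ⟨rfl, rfl⟩
        exact hd ha huq
      · rintro ⟨rfl, rfl⟩
        exact hd ha hvq
    · obtain ⟨-, -, y, mid, z, rfl, hy, -⟩ := hQ.cp l hl
      exact ⟨y, by simp, hy⟩
    · obtain ⟨-, -, y, mid, z, rfl, -, hz, -⟩ := hQ.cp l hl
      exact ⟨z, by simp [List.getLast?_cons, List.getLast?_append], hz⟩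
  have : Nonempty V := ⟨u⟩
  choose! x hxl hxS using hmeet
  have hinj : ∀ l ∈ Q, l ≠ q → ∀ l' ∈ Q, l' ≠ q → x l = x l' → l = l' := by
    intro l hl hlq l' hl' hlq' h
    by_contra hne
    exact hQ.dis l hl l' hl' hne (hxl l hl hlq) (h ▸ hxl l' hl' hlq')
  have himg : S = ((Q.erase q).image x : Finset V) := by
    symm
    apply Set.eq_of_subset_of_ncard_le
    · intro z hz
      rw [Finset.mem_coe, Finset.mem_image] at hz
      obtain ⟨l, hl, rfl⟩ := hz
      rw [Finset.mem_erase] at hl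
      exact hxS l hl.2 hl.1
    · rw [Set.ncard_coe_finset, Finset.card_image_of_injOn, Finset.card_erase_of_mem hq]
      · omega
      · intro l hl l' hl' h
        rw [Finset.mem_coe, Finset.mem_erase] at hl hl'
        exact hinj l hl.2 hl.1 l' hl'.2 hl'.1 h
    · exact Set.toFinite _
  have hS : ∀ z ∈ S, ∃ l ∈ Q, l ≠ q ∧ z = x l := by
    intro z hz
    rw [himg, Finset.mem_coe, Finset.mem_image] at hz
    obtain ⟨l, hl, rfl⟩ := hz
    rw [Finset.mem_erase] at hl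
    exact ⟨l, hl.2, hl.1, rfl⟩
  refine ⟨S, ⟨?_, ?_, hlt, hcut⟩⟩
  · intro l hl hlq
    refine ⟨x l, hxl l hl hlq, hxS l hl hlq, fun y hy hyS => ?_⟩
    obtain ⟨l', hl', hlq', rfl⟩ := hS y hyS
    have : l = l' := by
      by_contra hne
      exact hQ.dis l hl l' hl' hne hy (hxl l' hl' hlq')
    rw [this]
  · intro z hz hzS
    obtain ⟨l', hl', hlq', rfl⟩ := hS z hzS
    exact hQ.dis l' hl' q hq hlq' (hxl l' hl' hlq') hz

end Pool.Agent.GridThm
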