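import Pool.Agent.Work.Tools.GridThm.Stmts

/-!
# The excluded grid theorem, item D3 (helper43): segments that meet many paths
-/

set_option autoImplicit false

namespace Pool.Agent.GridThm

namespace AuxD3

variable {V : Type}

open Classical in
/-- the paths of `W` which meet the positions `a ≤ i < b` -/
noncomputable def hit (W : Finset (List V)) (q : List V) (a b : ℕ) : Finset (List V) :=
  W.filter fun l => ∃ (i : ℕ) (x : V), q[i]? = some x ∧ x ∈ l ∧ a ≤ i ∧ i < b

/-- a good position -/
def Gd (P : Finset (List V)) (q : List V) (b : ℕ) : Prop :=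
  ∃ (s : List V) (u v : V) (r : List V), q = s ++ u :: v :: r ∧ s.length + 1 = b ∧ ¬ Ed P u v

theorem mem_hit {W : Finset (List V)} {q : List V} {a b : ℕ} {l : List V} :
    l ∈ hit W q a b ↔ l ∈ W ∧ ∃ (i : ℕ) (x : V), q[i]? = some x ∧ x ∈ l ∧ a ≤ i ∧ i < b := by
  classical
  unfold hit
  rw [Finset.mem_filter]

theorem hit_empty (W : Finset (List V)) (q : List V) (a : ℕ) : hit W q a a = ∅ := by
  classical
  rw [Finset.eq_empty_iff_forall_notMem]
  intro l hl
  rw [mem_hit] at hl
  obtain ⟨-, i, x, -, -, h1, h2⟩ := hl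
  omega

theorem step {P W : Finset (List V)} (hW : W ⊆ P)
    (hdis : ∀ l ∈ P, ∀ l' ∈ P, l ≠ l' → List.Disjoint l l') (q : List V) (a b : ℕ) :
    (hit W q a (b + 1)).card ≤ (hit W q a b).card + 1 := by
  classical
  have hsub : hit W q a (b + 1) ⊆ hit W q a b ∪ W.filter (fun l => ∃ x, q[b]? = some x ∧ x ∈ l) := by
    intro l hl
    rw [mem_hit] at hl
    obtain ⟨hlW, i, x, h1, h2, h3, h4⟩ := hl
    rw [Finset.mem_union]
    rcases Nat.lt_or_ge i b with h | h
    · left
      rw [mem_hit]
      exact ⟨hlW, i, x, h1, h2, h3, h⟩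
    · right
      have : i = b := by omega
      subst this
      exact Finset.mem_filter.2 ⟨hlW, x, h1, h2⟩
  have hcard : (W.filter (fun l => ∃ x, q[b]? = some x ∧ x ∈ l)).card ≤ 1 := by
    rw [Finset.card_le_one]
    intro l hl l' hl'
    rw [Finset.mem_filter] at hl hl'
    obtain ⟨h1, x, h2, h3⟩ := hl
    obtain ⟨h1', x', h2', h3'⟩ := hl'
    by_contra hne
    have : x = x' := Option.some.inj (h2.symm.trans h2')
    subst this
    exact hdis l (hW h1) l' (hW h1') hne h3 h3'
  calc _ ≤ _ := Finset.card_le_card hsub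
    _ ≤ _ := Finset.card_union_le _ _
    _ ≤ _ := by omega

theorem step_bad {P W : Finset (List V)} (hW : W ⊆ P)
    (hdis : ∀ l ∈ P, ∀ l' ∈ P, l ≠ l' → List.Disjoint l l') (q : List V) (a b : ℕ) (hab : a < b)
    (hb : ¬ Gd P q b) : hit W q a (b + 1) ⊆ hit W q a b := by
  classical
  intro l hl
  rw [mem_hit] at hl ⊢
  obtain ⟨hlW, i, x, h1, h2, h3, h4⟩ := hl
  rcases Nat.lt_or_ge i b with h | h
  · exact ⟨hlW, i, x, h1, h2, h3, h⟩
  · have : i = b := by omega
    subst this
    obtain ⟨hiL, hix⟩ := List.getElem?_eq_some_iff.1 h1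
    have hi1 : i - 1 < q.length := by omega
    have hq : q = q.take (i - 1) ++ q[i - 1] :: x :: q.drop (i + 1) := by
      have e1 : q = q.take (i - 1) ++ q.drop (i - 1) := (List.take_append_drop _ _).symm
      have e2 : q.drop (i - 1) = q[i - 1] :: q.drop (i - 1 + 1) :=
        List.drop_eq_getElem_cons hi1
      have e3 : i - 1 + 1 = i := by omega
      have e4 : q.drop i = q[i] :: q.drop (i + 1) := List.drop_eq_getElem_cons hiL
      rw [e3, e4, hix] at e2
      rw [← e2]
      exact e1
    have hEd : Ed P q[i - 1] x := by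
      by_contra hne
      apply hb
      refine ⟨q.take (i - 1), q[i - 1], x, q.drop (i + 1), hq, ?_, hne⟩
      rw [List.length_take]
      omega
    obtain ⟨l', hl', hnx⟩ := hEd
    have hmem : q[i - 1] ∈ l' ∧ x ∈ l' := by
      rcases hnx with ⟨s, t, rfl⟩ | ⟨s, t, rfl⟩ <;> simp
    have hll : l = l' := by
      by_contra hne
      exact hdis l (hW hlW) l' hl' hne h2 hmem.2
    refine ⟨hlW, i - 1, q[i - 1], ?_, ?_, by omega, by omega⟩
    · exact List.getElem?_eq_getElem hi1
    · rw [hll]
      exact hmem.1

theorem find {P W : Finset (List V)} (hW : W ⊆ P)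
    (hdis : ∀ l ∈ P, ∀ l' ∈ P, l ≠ l' → List.Disjoint l l') (q : List V) (a M : ℕ) (hM : 0 < M)
    (n : ℕ) : (∃ b, a < b ∧ b ≤ a + n ∧ Gd P q b ∧ (hit W q a b).card = M) ∨
      (hit W q a (a + n)).card ≤ M := by
  classical
  induction n with
  | zero =>
    right
    rw [add_zero, hit_empty]
    simp
  | succ n ih =>
    rcases ih with ⟨b, h1, h2, h3, h4⟩ | h
    · exact Or.inl ⟨b, h1, by omega, h3, h4⟩
    · have hst := step hW hdis q a (a + n)
      rcases Nat.lt_or_ge (hit W q a (a + n)).card M with hlt | hge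
      · right
        rw [← add_assoc]
        omega
      · have hn : 0 < n := by
          by_contra h0
          have : n = 0 := by omega
          subst this
          rw [add_zero, hit_empty] at hge
          simp at hge
          omega
        by_cases hg : Gd P q (a + n)
        · left
          exact ⟨a + n, by omega, by omega, hg, by omega⟩
        · right
          rw [← add_assoc]
          exact (Finset.card_le_card (step_bad hW hdis q a (a + n) (by omega) hg)).trans h

end AuxD3

theorem D3 : PD3 := by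
  classical
  intro V P W q d M hM hd hW hdis hmeet hcard
  have key : ∀ d : ℕ, 1 ≤ d → ∀ p : ℕ, d * M ≤ (AuxD3.hit W q p (p + q.length)).card →
      ∃ t : ℕ → ℕ, t 0 = p ∧ (∀ n n', n ≤ n' → n' < d → t n ≤ t n') ∧
        (∀ n, 0 < n → n < d → AuxD3.Gd P q (t n)) ∧
        ∀ n < d, ∃ W' ⊆ W, M ≤ W'.card ∧ ∀ l ∈ W', ∃ (i : ℕ) (x : V), q[i]? = some x ∧ x ∈ l ∧
          t n ≤ i ∧ (n + 1 < d → i < t (n + 1)) := by
    intro d hd
    induction d, hd using Nat.le_induction with
    | base =>
      intro p hp
      refine ⟨fun _ => p, rfl, fun _ _ _ _ => le_rfl, fun n h1 h2 => by omega, ?_⟩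
      intro n hn
      refine ⟨AuxD3.hit W q p (p + q.length), fun l hl => (AuxD3.mem_hit.1 hl).1, by omega, ?_⟩
      intro l hl
      obtain ⟨-, i, x, h1, h2, h3, h4⟩ := AuxD3.mem_hit.1 hl
      exact ⟨i, x, h1, h2, h3, fun h => by omega⟩
    | succ d hd ih =>
      intro p hp
      have hMd : M < (d + 1) * M := by nlinarith
      rcases AuxD3.find hW hdis q p M hM q.length with ⟨b, h1, h2, h3, h4⟩ | h
      · have hsub : AuxD3.hit W q p (p + q.length) ⊆
            AuxD3.hit W q p b ∪ AuxD3.hit W q b (b + q.length) := by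
          intro l hl
          obtain ⟨hlW, i, x, g1, g2, g3, g4⟩ := AuxD3.mem_hit.1 hl
          rw [Finset.mem_union, AuxD3.mem_hit, AuxD3.mem_hit]
          rcases Nat.lt_or_ge i b with hib | hib
          · exact Or.inl ⟨hlW, i, x, g1, g2, g3, hib⟩
          · exact Or.inr ⟨hlW, i, x, g1, g2, hib, by omega⟩
        have hc := (Finset.card_le_card hsub).trans (Finset.card_union_le _ _)
        have hb : d * M ≤ (AuxD3.hit W q b (b + q.length)).card := by
          rw [h4] at hc
          have : (d + 1) * M = d * M + M := by ring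
          omega
        obtain ⟨t, ht0, htm, htg, hth⟩ := ih b hb
        refine ⟨fun n => if n = 0 then p else t (n - 1), by simp, ?_, ?_, ?_⟩
        · intro n n' hn hn'
          dsimp only
          rcases Nat.eq_zero_or_pos n with h0 | h0
          · rw [if_pos h0]
            split_ifs with h5
            · exact le_rfl
            · have := htm 0 (n' - 1) (Nat.zero_le _) (by omega)
              omega
          · rw [if_neg (by omega), if_neg (by omega)]
            exact htm _ _ (by omega) (by omega)
        · intro n h0 hn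
          dsimp only
          rw [if_neg (by omega)]
          rcases Nat.eq_zero_or_pos (n - 1) with h5 | h5
          · rw [h5, ht0]
            exact h3
          · exact htg _ h5 (by omega)
        · intro n hn
          dsimp only
          rcases Nat.eq_zero_or_pos n with h0 | h0
          · subst h0
            refine ⟨AuxD3.hit W q p b, fun l hl => (AuxD3.mem_hit.1 hl).1, by omega, ?_⟩
            intro l hl
            obtain ⟨-, i, x, g1, g2, g3, g4⟩ := AuxD3.mem_hit.1 hl
            refine ⟨i, x, g1, g2, by simpa using g3, fun _ => ?_⟩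
            simp [ht0, g4]
          · obtain ⟨W', hW', hMW, hW'h⟩ := hth (n - 1) (by omega)
            refine ⟨W', hW', hMW, fun l hl => ?_⟩
            obtain ⟨i, x, g1, g2, g3, g4⟩ := hW'h l hl
            refine ⟨i, x, g1, g2, ?_, fun h => ?_⟩
            · rw [if_neg (by omega)]
              exact g3
            · rw [if_neg (by omega)]
              have := g4 (by omega)
              rwa [Nat.sub_add_cancel h0] at this
      · omega
  have h0 : d * M ≤ (AuxD3.hit W q 0 (0 + q.length)).card := by
    refine hcard.trans (Finset.card_le_card ?_)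
    intro l hl
    rw [AuxD3.mem_hit]
    obtain ⟨x, hx, hxq⟩ := hmeet l hl
    obtain ⟨i, hi, hix⟩ := List.getElem_of_mem hxq
    exact ⟨hl, i, x, by rw [List.getElem?_eq_getElem hi, hix], hx, Nat.zero_le _, by omega⟩
  obtain ⟨t, h1, h2, h3, h4⟩ := key d hd 0 h0
  exact ⟨t, h1, h2, h3, h4⟩

end Pool.Agent.GridThm
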