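import Pool.Agent.Work.Tools.GridThm.Stmts

/-!
# The excluded grid theorem, item D4 (helper43): order of two paths on both sides of a separator
-/

set_option autoImplicit false

namespace Pool.Agent.GridThm

namespace AuxD4

variable {V : Type}

/-- the relation `Rl` outside of `S` -/
def Rs (C Y Z : Set V) (P Q : Finset (List V)) (u v : V) (S : Set V) (a b : V) : Prop :=
  Rl C Y Z P Q u v a b ∧ a ∉ S ∧ b ∉ S

theorem ed_symm {P : Finset (List V)} {a b : V} (h : Ed P a b) : Ed P b a := by
  obtain ⟨l, hl, h | h⟩ := h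
  · exact ⟨l, hl, Or.inr h⟩
  · exact ⟨l, hl, Or.inl h⟩

theorem rs_symm {C Y Z : Set V} {P Q : Finset (List V)} {u v : V} {S : Set V} {a b : V}
    (h : Rs C Y Z P Q u v S a b) : Rs C Y Z P Q u v S b a := by
  obtain ⟨⟨h1, h2, h3, h4, h5⟩, h6, h7⟩ := h
  refine ⟨⟨?_, h3, h2, fun h => h5 ⟨h.2, h.1⟩, fun h => h4 ⟨h.2, h.1⟩⟩, h7, h6⟩
  exact h1.imp ed_symm ed_symm

/-- all elements of a chain are connected -/
theorem conn {R : V → V → Prop} (hs : ∀ a b, R a b → R b a) {L : List V} (hL : L.IsChain R) :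
    ∀ a ∈ L, ∀ b ∈ L, Relation.ReflTransGen R a b := by
  have hsym : ∀ a b, Relation.ReflTransGen R a b → Relation.ReflTransGen R b a := by
    intro a b h
    induction h with
    | refl => exact Relation.ReflTransGen.refl
    | tail _ h2 ih => exact (Relation.ReflTransGen.single (hs _ _ h2)).trans ih
  induction L with
  | nil => intro a ha; exact absurd ha List.not_mem_nil
  | cons c L ih =>
    rw [List.isChain_cons] at hL
    have hc : ∀ b ∈ L, Relation.ReflTransGen R c b := by
      intro b hb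
      cases L with
      | nil => exact absurd hb List.not_mem_nil
      | cons d L =>
        have h1 : R c d := hL.1 d rfl
        exact (Relation.ReflTransGen.single h1).trans (ih hL.2 d (by simp) b hb)
    intro a ha b hb
    rcases List.mem_cons.1 ha with ha' | ha'
    · rcases List.mem_cons.1 hb with hb' | hb'
      · rw [ha', hb']
      · rw [ha']
        exact hc b hb'
    · rcases List.mem_cons.1 hb with hb' | hb'
      · rw [hb']
        exact hsym _ _ (hc a ha')
      · exact ih hL.2 a ha' b hb'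

theorem sym' {R : V → V → Prop} (hs : ∀ a b, R a b → R b a) {a b : V}
    (h : Relation.ReflTransGen R a b) : Relation.ReflTransGen R b a := by
  induction h with
  | refl => exact Relation.ReflTransGen.refl
  | tail _ h2 ih => exact (Relation.ReflTransGen.single (hs _ _ h2)).trans ih

/-- a connection gives a walk -/
theorem walk {C Y Z : Set V} {P Q : Finset (List V)} {u v : V} {S : Set V} {a b : V}
    (hb : b ∉ S) (h : Relation.ReflTransGen (Rs C Y Z P Q u v S) a b) :
    ∃ w : List V, w.IsChain (Rl C Y Z P Q u v) ∧ w.head? = some a ∧ w.getLast? = some b ∧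
      ∀ x ∈ w, x ∉ S := by
  induction h using Relation.ReflTransGen.head_induction_on with
  | refl =>
    refine ⟨[b], by simp, rfl, rfl, ?_⟩
    intro x hx
    rw [List.mem_singleton] at hx
    rw [hx]
    exact hb
  | @head a c hac _ ih =>
    obtain ⟨w, h1, h2, h3, h4⟩ := ih
    cases w with
    | nil => simp at h2
    | cons d w =>
      simp only [List.head?_cons, Option.some.injEq] at h2
      subst h2
      refine ⟨a :: d :: w, ?_, rfl, ?_, ?_⟩
      · rw [List.isChain_cons_cons]
        exact ⟨hac.1, h1⟩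
      · rw [← h3]
        simp
      · intro x hx
        rcases List.mem_cons.1 hx with rfl | hx
        · exact hac.2.1
        · exact h4 x hx

theorem no_conn {C Y Z : Set V} {P Q : Finset (List V)} {q : List V} {u v : V} {S : Set V}
    (hSep : Sep C Y Z P Q q u v S) {a b : V} (ha : a ∈ Y) (hb : b ∈ Z) (hbS : b ∉ S)
    (h : Relation.ReflTransGen (Rs C Y Z P Q u v S) a b) : False := by
  obtain ⟨w, h1, h2, h3, h4⟩ := walk hbS h
  obtain ⟨x, hx, hxS⟩ := hSep.cut w h1 ⟨a, h2, ha⟩ ⟨b, h3, hb⟩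
  exact h4 x hx hxS

/-- chains from consecutive pairs -/
theorem chain_of {R : V → V → Prop} {L : List V} (h : ∀ a b, Nx L a b → R a b) :
    L.IsChain R := by
  rw [List.isChain_iff_forall_rel_of_append_cons_cons]
  intro a b l1 l2 hl
  exact h a b ⟨l1, l2, hl⟩

theorem nx_infix {L L1 M L2 : List V} (h : L = L1 ++ M ++ L2) {a b : V} (hab : Nx M a b) :
    Nx L a b := by
  obtain ⟨s, t, rfl⟩ := hab
  exact ⟨L1 ++ s, t ++ L2, by rw [h]; simp⟩

theorem nx_mem {L : List V} {a b : V} (hab : Nx L a b) : a ∈ L ∧ b ∈ L := by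
  obtain ⟨s, t, rfl⟩ := hab
  simp

theorem cp_sub {G : SimpleGraph V} {C Y Z : Set V} {l : List V} (h : CP G C Y Z l) :
    ∀ x ∈ l, x ∈ C ∪ Y ∪ Z := by
  obtain ⟨y, mid, z, rfl, hy, hz, -, hmid⟩ := h.ex
  intro x hx
  simp only [List.cons_append, List.mem_cons, List.mem_append, List.not_mem_nil, or_false] at hx
  rcases hx with rfl | hx | rfl
  · exact Or.inl (Or.inr hy)
  · exact Or.inl (Or.inl (hmid x hx))
  · exact Or.inr hz

/-- two vertices of a path in `P` which avoids `S` are connected -/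
theorem conn_P {G : SimpleGraph V} {C Y Z Y₀ Z₀ : Set V} {P Q : Finset (List V)} {u v : V}
    {S : Set V} (hP : Fam G C Y₀ Z₀ P) (huv : ¬ Ed P u v) {l : List V} (hl : l ∈ P)
    (hlS : ∀ x ∈ l, x ∉ S) {a b : V} (ha : a ∈ l) (hb : b ∈ l) (haD : a ∈ C ∪ Y ∪ Z)
    (hbD : b ∈ C ∪ Y ∪ Z) : Relation.ReflTransGen (Rs C Y Z P Q u v S) a b := by
  have hs : ∀ a b, Rs C Y Z P Q u v S a b → Rs C Y Z P Q u v S b a := fun a b h => rs_symm h
  have hR : ∀ a b, Nx l a b → a ∈ C ∪ Y ∪ Z → b ∈ C ∪ Y ∪ Z → Rs C Y Z P Q u v S a b := by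
    intro a b hab haD hbD
    have hE : Ed P a b := ⟨l, hl, Or.inl hab⟩
    refine ⟨⟨Or.inl hE, haD, hbD, ?_, ?_⟩, hlS a (nx_mem hab).1, hlS b (nx_mem hab).2⟩
    · rintro ⟨rfl, rfl⟩
      exact huv hE
    · rintro ⟨rfl, rfl⟩
      exact huv (ed_symm hE)
  obtain ⟨y, mid, z, hleq, -, -, hne, hmid⟩ := (hP.cp l hl).ex
  have hmD : ∀ x ∈ mid, x ∈ C ∪ Y ∪ Z := fun x hx => Or.inl (Or.inl (hmid x hx))
  have hmc : mid.IsChain (Rs C Y Z P Q u v S) := by
    refine chain_of fun a b hab => hR a b ?_ (hmD a (nx_mem hab).1) (hmD b (nx_mem hab).2)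
    exact nx_infix (L1 := [y]) (L2 := [z]) (by rw [hleq]; simp) hab
  -- every vertex in D is connected to a vertex of mid
  have hto : ∀ c ∈ l, c ∈ C ∪ Y ∪ Z → ∃ d ∈ mid, Relation.ReflTransGen (Rs C Y Z P Q u v S) c d := by
    intro c hc hcD
    rw [hleq] at hc
    simp only [List.cons_append, List.mem_cons, List.mem_append, List.not_mem_nil,
      or_false] at hc
    rcases hc with rfl | hc | rfl
    · obtain ⟨m0, mid', rfl⟩ := List.exists_cons_of_ne_nil hne
      refine ⟨m0, by simp, Relation.ReflTransGen.single (hR _ _ ?_ hcD (hmD _ (by simp)))⟩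
      exact ⟨[], mid' ++ [z], by rw [hleq]; simp⟩
    · exact ⟨c, hc, Relation.ReflTransGen.refl⟩
    · obtain ⟨mid', m0, rfl⟩ : ∃ mid' m0, mid = mid' ++ [m0] :=
        ⟨mid.dropLast, mid.getLast hne, (List.dropLast_append_getLast hne).symm⟩
      refine ⟨m0, by simp, Relation.ReflTransGen.single (hs _ _ (hR _ _ ?_ (hmD _ (by simp)) hcD))⟩
      exact ⟨y :: mid', [], by rw [hleq]; simp⟩
  obtain ⟨d, hd, had⟩ := hto a ha haD
  obtain ⟨e, he, hbe⟩ := hto b hb hbD
  exact had.trans ((conn hs hmc d hd e he).trans (sym' hs hbe))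

end AuxD4

open AuxD4 in
theorem D4 : PD4 := by
  intro V _ G C Y Z Y₀ Z₀ P Q S s t u v l l' hYC hZC hYZ hP hQ hq huv hSep hl hl' hlS hl'S ha hb
  have hs : ∀ a b, Rs C Y Z P Q u v S a b → Rs C Y Z P Q u v S b a := fun a b h => rs_symm h
  obtain ⟨a, hal, haq⟩ := ha
  obtain ⟨b, hbl, hbq⟩ := hb
  set q := s ++ u :: v :: t with hqd
  have hqD := cp_sub (hQ.cp q hq)
  have hnd : q.Nodup := (hQ.cp q hq).nd
  have hnd' : (s ++ ([u] ++ (v :: t))).Nodup := by
    rw [hqd] at hnd
    exact hnd
  have hdj : List.Disjoint (s ++ [u]) (v :: t) := by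
    have h1 : ((s ++ [u]) ++ (v :: t)).Nodup := by
      rw [List.append_assoc]
      exact hnd'
    exact (List.nodup_append'.1 h1).2.2
  have hv1 : v ∉ s ++ [u] := fun h => hdj h (by simp)
  have hu1 : u ∉ v :: t := fun h => hdj (by simp) h
  have hq1 : ∀ x ∈ s ++ [u], x ∈ q := by
    intro x hx
    rw [hqd]
    simp only [List.mem_append, List.mem_cons, List.not_mem_nil, or_false] at hx ⊢
    tauto
  have hq2 : ∀ x ∈ v :: t, x ∈ q := by
    intro x hx
    rw [hqd]
    simp only [List.mem_append, List.mem_cons] at hx ⊢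
    tauto
  have hc1 : (s ++ [u]).IsChain (Rs C Y Z P Q u v S) := by
    refine chain_of fun x y hxy => ?_
    have hm := nx_mem hxy
    have hn : Nx q x y := nx_infix (L1 := []) (L2 := v :: t) (by rw [hqd]; simp) hxy
    refine ⟨⟨Or.inr ⟨q, hq, Or.inl hn⟩, hqD _ (hq1 _ hm.1), hqD _ (hq1 _ hm.2), ?_, ?_⟩,
      hSep.off _ (hq1 _ hm.1), hSep.off _ (hq1 _ hm.2)⟩
    · rintro ⟨rfl, rfl⟩
      exact hv1 hm.2
    · rintro ⟨rfl, rfl⟩
      exact hv1 hm.1
  have hc2 : (v :: t).IsChain (Rs C Y Z P Q u v S) := by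
    refine chain_of fun x y hxy => ?_
    have hm := nx_mem hxy
    have hn : Nx q x y := nx_infix (L1 := s ++ [u]) (L2 := []) (by rw [hqd]; simp) hxy
    refine ⟨⟨Or.inr ⟨q, hq, Or.inl hn⟩, hqD _ (hq2 _ hm.1), hqD _ (hq2 _ hm.2), ?_, ?_⟩,
      hSep.off _ (hq2 _ hm.1), hSep.off _ (hq2 _ hm.2)⟩
    · rintro ⟨rfl, rfl⟩
      exact hu1 hm.1
    · rintro ⟨rfl, rfl⟩
      exact hu1 hm.2
  -- the ends of q
  obtain ⟨qy, qm, qz, hqe, hqy, hqz, hqm, -⟩ := (hQ.cp q hq).ex
  have hqy1 : qy ∈ s ++ [u] := by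
    rw [hqd] at hqe
    cases s with
    | nil =>
      simp only [List.nil_append, List.cons_append, List.cons.injEq] at hqe
      rw [← hqe.1]
      simp
    | cons s0 s =>
      simp only [List.cons_append, List.cons.injEq] at hqe
      rw [← hqe.1]
      simp
  have hqz1 : qz ∈ v :: t := by
    have h1 : q.getLast? = some qz := by
      rw [hqe, List.getLast?_append_of_ne_nil _ (by simp)]
      rfl
    have h2 : q.getLast? = (v :: t).getLast? := by
      rw [hqd]
      have : s ++ u :: v :: t = (s ++ [u]) ++ (v :: t) := by simp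
      rw [this, List.getLast?_append_of_ne_nil _ (by simp)]
    rw [h2] at h1
    exact List.mem_of_getLast? h1
  have hqzS : qz ∉ S := hSep.off _ (hq2 _ hqz1)
  have hreach1 : Relation.ReflTransGen (Rs C Y Z P Q u v S) qy a := conn hs hc1 _ hqy1 _ haq
  have hreach2 : Relation.ReflTransGen (Rs C Y Z P Q u v S) b qz := conn hs hc2 _ hbq _ hqz1
  have haD : a ∈ C ∪ Y ∪ Z := hqD _ (hq1 _ haq)
  have hbD : b ∈ C ∪ Y ∪ Z := hqD _ (hq2 _ hbq)
  refine ⟨?_, ?_⟩
  · rintro rfl
    exact no_conn hSep hqy hqz hqzS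
      (hreach1.trans ((conn_P hP huv hl hlS hal hbl haD hbD).trans hreach2))
  · intro h hh hhq i j x y hx hy hxl hyl'
    have hhD := cp_sub (hQ.cp h hh)
    obtain ⟨σ, hσh, hσS, hσu⟩ := hSep.one h hh hhq
    obtain ⟨hi, hix⟩ := List.getElem?_eq_some_iff.1 hx
    obtain ⟨hj, hjy⟩ := List.getElem?_eq_some_iff.1 hy
    obtain ⟨p, hp, hpσ⟩ := List.getElem_of_mem hσh
    have hndh : h.Nodup := (hQ.cp h hh).nd
    have hdisj : List.Disjoint h q := hQ.dis h hh q hq hhq
    have huh : u ∉ h := fun h1 => hdisj h1 (hq1 _ (by simp))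
    have hvh : v ∉ h := fun h1 => hdisj h1 (hq2 _ (by simp))
    -- the two pieces of h
    have hsplit : h = h.take p ++ [σ] ++ h.drop (p + 1) := by
      have e1 : h = h.take p ++ h.drop p := (List.take_append_drop _ _).symm
      have e2 : h.drop p = h[p] :: h.drop (p + 1) := List.drop_eq_getElem_cons hp
      rw [hpσ] at e2
      rw [e2] at e1
      rw [List.append_assoc]
      exact e1
    have hR : ∀ a b, Nx h a b → a ≠ σ → b ≠ σ → Rs C Y Z P Q u v S a b := by
      intro a b hab ha hb
      have hm := nx_mem hab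
      refine ⟨⟨Or.inr ⟨h, hh, Or.inl hab⟩, hhD _ hm.1, hhD _ hm.2, ?_, ?_⟩, ?_, ?_⟩
      · rintro ⟨rfl, rfl⟩
        exact huh hm.1
      · rintro ⟨rfl, rfl⟩
        exact hvh hm.1
      · exact fun hS => ha (hσu a hm.1 hS)
      · exact fun hS => hb (hσu b hm.2 hS)
    have hσ1 : σ ∉ h.take p := by
      intro h1
      obtain ⟨k, hk, hkσ⟩ := List.getElem_of_mem h1
      rw [List.getElem_take] at hkσ
      rw [List.length_take] at hk
      have := (List.Nodup.getElem_inj_iff hndh).1 (hkσ.trans hpσ.symm)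
      omega
    have hσ2 : σ ∉ h.drop (p + 1) := by
      intro h1
      obtain ⟨k, hk, hkσ⟩ := List.getElem_of_mem h1
      rw [List.getElem_drop] at hkσ
      have := (List.Nodup.getElem_inj_iff hndh).1 (hkσ.trans hpσ.symm)
      omega
    have hcA : (h.take p).IsChain (Rs C Y Z P Q u v S) := by
      refine chain_of fun a b hab => hR a b ?_ ?_ ?_
      · exact nx_infix (L1 := []) (L2 := [σ] ++ h.drop (p + 1))
          (by rw [List.nil_append, ← List.append_assoc]; exact hsplit) hab
      · rintro rfl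
        exact hσ1 (nx_mem hab).1
      · rintro rfl
        exact hσ1 (nx_mem hab).2
    have hcB : (h.drop (p + 1)).IsChain (Rs C Y Z P Q u v S) := by
      refine chain_of fun a b hab => hR a b ?_ ?_ ?_
      · exact nx_infix (L1 := h.take p ++ [σ]) (L2 := [])
          (by rw [List.append_nil]; exact hsplit) hab
      · rintro rfl
        exact hσ2 (nx_mem hab).1
      · rintro rfl
        exact hσ2 (nx_mem hab).2
    obtain ⟨hy0, hm0, hz0, hhe, hyY, hzZ, -, -⟩ := (hQ.cp h hh).ex
    have hhead : ∀ k, k < p → (hk : k < h.length) →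
        Relation.ReflTransGen (Rs C Y Z P Q u v S) hy0 h[k] ∧ hy0 ∉ S := by
      intro k hkp hk
      have h1 : h[k] ∈ h.take p := by
        rw [List.mem_take_iff_getElem]
        exact ⟨k, by omega, rfl⟩
      have h2 : hy0 ∈ h.take p := by
        rw [List.mem_take_iff_getElem]
        refine ⟨0, by omega, ?_⟩
        simp only [hhe, List.cons_append, List.getElem_cons_zero]
      refine ⟨conn hs hcA _ h2 _ h1, fun hS => hσ1 ?_⟩
      have := hσu hy0 (List.mem_of_mem_take h2) hS
      rwa [this] at h2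
    have hlast : ∀ k, p < k → (hk : k < h.length) →
        Relation.ReflTransGen (Rs C Y Z P Q u v S) h[k] hz0 ∧ hz0 ∉ S := by
      intro k hkp hk
      have h1 : h[k] ∈ h.drop (p + 1) := by
        rw [List.mem_drop_iff_getElem]
        refine ⟨k - (p + 1), by omega, ?_⟩
        congr 1
        omega
      have h2 : hz0 ∈ h.drop (p + 1) := by
        have e1 : h.getLast? = some hz0 := by
          rw [hhe, List.getLast?_append_of_ne_nil _ (by simp)]
          rfl
        have hne : h.drop (p + 1) ≠ [] := by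
          intro h0
          rw [h0] at h1
          exact List.not_mem_nil h1
        have e2 : h.getLast? = (h.drop (p + 1)).getLast? := by
          conv_lhs => rw [hsplit]
          rw [List.getLast?_append_of_ne_nil _ hne]
        rw [e2] at e1
        exact List.mem_of_getLast? e1
      refine ⟨conn hs hcB _ h1 _ h2, fun hS => hσ2 ?_⟩
      have := hσu hz0 (List.mem_of_mem_drop h2) hS
      rwa [this] at h2
    have hxS : x ∉ S := hlS x hxl
    have hyS : y ∉ S := hl'S y hyl'
    have hxD : x ∈ C ∪ Y ∪ Z := hhD _ (List.mem_of_getElem? hx)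
    have hyD : y ∈ C ∪ Y ∪ Z := hhD _ (List.mem_of_getElem? hy)
    have hip : i < p := by
      rcases Nat.lt_trichotomy i p with h1 | h1 | h1
      · exact h1
      · exfalso
        subst h1
        apply hxS
        rw [← hix, hpσ]
        exact hσS
      · exfalso
        have h2 := hlast i h1 hi
        rw [hix] at h2
        exact no_conn hSep hqy hzZ h2.2
          (hreach1.trans ((conn_P hP huv hl hlS hal hxl haD hxD).trans h2.1))
    have hpj : p < j := by
      rcases Nat.lt_trichotomy j p with h1 | h1 | h1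
      · exfalso
        have h2 := hhead j h1 hj
        rw [hjy] at h2
        exact no_conn hSep hyY hqz hqzS
          (h2.1.trans ((conn_P hP huv hl' hl'S hyl' hbl hyD hbD).trans hreach2))
      · exfalso
        subst h1
        apply hyS
        rw [← hjy, hpσ]
        exact hσS
      · exact h1
    omega

end Pool.Agent.GridThm
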