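import Pool.Agent.Work.Tools.GridThm.Stmts

/-!
# E1: one path of `P` can be chosen, or there is a grid
-/

set_option autoImplicit false

namespace Pool.Agent.GridThm

namespace AuxE1

variable {V : Type} {G : SimpleGraph V} {C Y Z : Set V}

theorem fam_mono {P Q : Finset (List V)} (h : Fam G C Y Z P) (hQ : Q ⊆ P) : Fam G C Y Z Q :=
  ⟨fun l hl => h.cp l (hQ hl), fun l hl l' hl' hne => h.dis l (hQ hl) l' (hQ hl') hne⟩

/-- A path disjoint from `p` avoids `p`. -/
theorem cp_diff {p l : List V} (h : CP G C Y Z l) (hd : List.Disjoint p l) :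
    CP G (C \ {x | x ∈ p}) (Y \ {x | x ∈ p}) (Z \ {x | x ∈ p}) l := by
  obtain ⟨hch, hnd, y, mid, z, rfl, hy, hz, hm, hmC⟩ := h
  refine ⟨hch, hnd, y, mid, z, rfl, ⟨hy, fun hyp => ?_⟩, ⟨hz, fun hzp => ?_⟩, hm,
    fun v hv => ⟨hmC v hv, fun hvp => ?_⟩⟩
  · exact hd hyp (by simp)
  · exact hd hzp (by simp)
  · exact hd hvp (by simp [hv])

theorem not_disjoint {l l' : List V} (h : ¬ List.Disjoint l l') : ∃ x ∈ l, x ∈ l' := by
  by_contra hc
  push Not at hc
  exact h fun x hx hx' => hc x hx hx'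

/-- Enumeration of `N` elements of a finite set. -/
theorem exists_enum {α : Type} [Inhabited α] (M : Finset α) (N : ℕ) (h : N ≤ M.card) :
    ∃ f : ℕ → α, (∀ i < N, f i ∈ M) ∧ ∀ i < N, ∀ j < N, i ≠ j → f i ≠ f j := by
  classical
  have hl : M.toList.length = M.card := Finset.length_toList M
  refine ⟨fun i => M.toList.getD i default, fun i hi => ?_, fun i hi j hj hij => ?_⟩
  · have hi' : i < M.toList.length := by omega
    show M.toList.getD i default ∈ M
    rw [List.getD_eq_getElem _ _ hi']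
    exact Finset.mem_toList.1 (List.getElem_mem hi')
  · have hi' : i < M.toList.length := by omega
    have hj' : j < M.toList.length := by omega
    show M.toList.getD i default ≠ M.toList.getD j default
    rw [List.getD_eq_getElem _ _ hi', List.getD_eq_getElem _ _ hj']
    intro he
    exact hij ((M.nodup_toList.getElem_inj_iff).1 he)

end AuxE1

open AuxE1 in
theorem E1 (h1 : PC9) (h2 : PD1) (h3 : PD5) : PE1 := by
  classical
  intro K b R
  obtain ⟨N, d, hNd⟩ := h1 K
  refine ⟨R * 2 ^ (b + N + 1) * (d * (d * (b + N + 1))) + (b + N + 1) + 1, ?_⟩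
  intro V _ G C Y₀ Z₀ Y Z P hdis hP hPc hQ
  -- tight families
  have hQ1 : ∀ s, s < R → ∃ Q, Fam G C (Y s) (Z s) Q ∧ Q.card = b + N + 1 ∧
      Tight G C (Y s) (Z s) P Q := by
    intro s hs
    obtain ⟨Q, hQ, hQc⟩ := hQ s hs
    obtain ⟨Q', hQ'1, hQ'2⟩ := Finset.exists_subset_card_eq (s := Q) (n := b + N + 1) (by
      rw [hQc]
      omega)
    obtain ⟨Q2, hf, hc, ht⟩ := h2 G C (Y s) (Z s) P Q' (fam_mono hQ hQ'1)
    exact ⟨Q2, hf, hc.trans hQ'2, ht⟩
  choose! Q hQf hQc hQt using hQ1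
  by_cases hp : ∃ p ∈ P, ∀ s < R, b ≤ ((Q s).filter fun l => List.Disjoint p l).card
  · right
    obtain ⟨p, hpP, hp⟩ := hp
    refine ⟨p, hpP, fun s hs => ?_⟩
    obtain ⟨Q', hQ'1, hQ'2⟩ := Finset.exists_subset_card_eq (hp s hs)
    refine ⟨Q', ⟨fun l hl => ?_, fun l hl l' hl' hne => ?_⟩, hQ'2⟩
    · have hl1 := hQ'1 hl
      rw [Finset.mem_filter] at hl1
      exact cp_diff ((hQf s hs).cp l hl1.1) hl1.2
    · exact (hQf s hs).dis l (Finset.mem_filter.1 (hQ'1 hl)).1 l'
        (Finset.mem_filter.1 (hQ'1 hl')).1 hne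
  · left
    push Not at hp
    choose! sf hsf hsf' using hp
    set φ : List V → (_ : ℕ) × Finset (List V) := fun p =>
      ⟨sf p, (Q (sf p)).filter fun l => ¬ List.Disjoint p l⟩ with hφ
    have hmaps : ∀ p ∈ P, φ p ∈ (Finset.range R).sigma fun s => (Q s).powerset := by
      intro p hp
      rw [Finset.mem_sigma]
      exact ⟨Finset.mem_range.2 (hsf p hp), Finset.mem_powerset.2 (Finset.filter_subset _ _)⟩
    have hcard : ((Finset.range R).sigma fun s => (Q s).powerset).card =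
        R * 2 ^ (b + N + 1) := by
      rw [Finset.card_sigma]
      rw [Finset.sum_congr rfl fun s hs => by
        rw [Finset.card_powerset, hQc s (Finset.mem_range.1 hs)]]
      simp
    obtain ⟨⟨s, M⟩, hsM, hlt⟩ := Finset.exists_lt_card_fiber_of_mul_lt_card_of_maps_to
      (n := d * (d * (b + N + 1))) hmaps (by rw [hcard, hPc]; omega)
    rw [Finset.mem_sigma, Finset.mem_range, Finset.mem_powerset] at hsM
    obtain ⟨hs, hM⟩ := hsM
    simp only at hs hM
    set W := P.filter fun p => φ p = ⟨s, M⟩ with hW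
    have hWne : W.Nonempty := Finset.card_pos.1 (by omega)
    have hWφ : ∀ p ∈ W, p ∈ P ∧ sf p = s ∧ M = (Q s).filter fun l => ¬ List.Disjoint p l := by
      intro p hp
      rw [hW, Finset.mem_filter] at hp
      obtain ⟨hp1, hp2⟩ := hp
      have h1 : sf p = s := congrArg Sigma.fst hp2
      refine ⟨hp1, h1, ?_⟩
      have h2 : ((Q (sf p)).filter fun l => ¬ List.Disjoint p l) = M := congrArg Sigma.snd hp2
      rw [← h2, h1]
    have hMc : N + 1 ≤ M.card := by
      obtain ⟨p, hp⟩ := hWne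
      obtain ⟨hp1, hp2, hp3⟩ := hWφ p hp
      have h4 := hsf' p hp1
      rw [hp2] at h4
      have h5 := Finset.card_filter_add_card_filter_not (s := Q s) fun l => List.Disjoint p l
      rw [hQc s hs, ← hp3] at h5
      omega
    have hmeet : ∀ p ∈ W, ∀ l ∈ M, ∃ x ∈ p, x ∈ l := by
      intro p hp l hl
      obtain ⟨_, _, hp3⟩ := hWφ p hp
      rw [hp3, Finset.mem_filter] at hl
      exact not_disjoint hl.2
    obtain ⟨q, hq⟩ : M.Nonempty := Finset.card_pos.1 (by omega)
    obtain ⟨hz, hz1, hz2⟩ := exists_enum (M.erase q) N (by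
      rw [Finset.card_erase_of_mem hq]
      omega)
    have hz3 : ∀ i < N, hz i ∈ M ∧ hz i ≠ q := fun i hi =>
      ⟨Finset.mem_of_mem_erase (hz1 i hi), Finset.ne_of_mem_erase (hz1 i hi)⟩
    obtain ⟨Vs, hVs⟩ := h3 G C (Y s) (Z s) Y₀ Z₀ P (Q s) W q d N hz (hdis s hs).1
      (hdis s hs).2.1 (hdis s hs).2.2 hP (hQf s hs) (hQt s hs) (Finset.filter_subset _ _)
      (hM hq) (fun i hi => ⟨hM (hz3 i hi).1, (hz3 i hi).2⟩) hz2
      (fun l hl => hmeet l hl q hq) (fun l hl i hi => hmeet l hl _ (hz3 i hi).1)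
      (by rw [hQc s hs]; exact hlt.le)
    exact hNd G Vs hz hVs

end Pool.Agent.GridThm
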