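import Pool.Agent.Work.Tools.GridThm.Stmts

set_option autoImplicit false

namespace Pool.Agent.GridThm

namespace AuxE2

variable {V : Type}

theorem mono {G : SimpleGraph V} {C Y Z D : Set V} {l : List V}
    (h : CP G (C \ D) (Y \ D) (Z \ D) l) : CP G C Y Z l := by
  obtain ⟨h1, h2, y, mid, z, h3, h4, h5, h6, h7⟩ := h
  exact ⟨h1, h2, y, mid, z, h3, h4.1, h5.1, h6, fun v hv => (h7 v hv).1⟩

theorem avoid {G : SimpleGraph V} {C Y Z D : Set V} {l : List V}
    (h : CP G (C \ D) (Y \ D) (Z \ D) l) : ∀ x ∈ l, x ∉ D := by
  obtain ⟨h1, h2, y, mid, z, h3, h4, h5, h6, h7⟩ := h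
  intro x hx
  rw [h3] at hx
  rcases List.mem_append.mp hx with hx | hx
  · rcases List.mem_cons.mp hx with hx | hx
    · rw [hx]; exact h4.2
    · exact (h7 x hx).2
  · rw [List.mem_singleton.mp hx]
    exact h5.2

end AuxE2

open AuxE2

theorem E2 (h1 : PE1) : PE2 := by
  intro K R
  induction R with
  | zero =>
    refine ⟨0, ?_⟩
    intro V _ G C Y Z _ _
    right
    exact ⟨fun _ => [], fun s hs => absurd hs (Nat.not_lt_zero s),
      fun s hs => absurd hs (Nat.not_lt_zero s)⟩
  | succ R ih =>
    obtain ⟨b, hb⟩ := ih
    obtain ⟨a, ha⟩ := h1 K b R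
    refine ⟨a, ?_⟩
    intro V _ G C Y Z hd hf
    obtain ⟨P, hP, hPc⟩ := hf R (Nat.lt_succ_self R)
    rcases ha G C (Y R) (Z R) Y Z P (fun s hs => hd s (by omega)) hP hPc
      (fun s hs => hf s (by omega)) with h | ⟨p, hp, hQ⟩
    · left; exact h
    · rcases hb G (C \ {x | x ∈ p}) (fun s => Y s \ {x | x ∈ p}) (fun s => Z s \ {x | x ∈ p})
        (fun s hs => by
          obtain ⟨h2, h3, h4⟩ := hd s (by omega)
          exact ⟨h2.mono Set.sdiff_subset Set.sdiff_subset,
            h3.mono Set.sdiff_subset Set.sdiff_subset,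
            h4.mono Set.sdiff_subset Set.sdiff_subset⟩) hQ with h | ⟨p', h2, h3⟩
      · left; exact h
      · right
        refine ⟨fun s => if s = R then p else p' s, ?_, ?_⟩
        · intro s hs
          by_cases hsR : s = R
          · simp only [if_pos hsR]
            rw [hsR]
            exact hP.cp p hp
          · simp only [if_neg hsR]
            exact mono (h2 s (by omega))
        · intro s hs s' hs' hne
          by_cases hsR : s = R
          · have hsR' : s' ≠ R := fun h => hne (hsR.trans h.symm)
            simp only [if_pos hsR, if_neg hsR']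
            intro x hx hx'
            exact avoid (h2 s' (by omega)) x hx' hx
          · by_cases hsR' : s' = R
            · simp only [if_neg hsR, if_pos hsR']
              intro x hx hx'
              exact avoid (h2 s (by omega)) x hx hx'
            · simp only [if_neg hsR, if_neg hsR']
              exact h3 s (by omega) s' (by omega) hne

end Pool.Agent.GridThm
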