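import Pool.Agent.Work.Tools.GridThm.Stmts

/-!
# The excluded grid theorem: item E3 (a complete minor from linked sets)
-/

set_option autoImplicit false

namespace Pool.Agent.GridThm

namespace AuxE3

variable {V : Type} {G : SimpleGraph V}

theorem split_chain {y z : V} {mid : List V} (hne : mid ≠ [])
    (h : (y :: mid ++ [z]).IsChain G.Adj) :
    mid.IsChain G.Adj ∧ G.Adj y (mid.head hne) ∧ G.Adj (mid.getLast hne) z := by
  obtain ⟨a, t, rfl⟩ : ∃ a t, mid = a :: t := List.exists_cons_of_ne_nil hne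
  have h1 : (y :: (a :: t ++ [z])).IsChain G.Adj := h
  have h2 : G.Adj y a ∧ (a :: t ++ [z]).IsChain G.Adj := by
    have := h1
    rw [List.cons_append, List.isChain_cons_cons] at this
    exact this
  rw [List.isChain_append] at h2
  refine ⟨h2.2.1, h2.1, ?_⟩
  exact h2.2.2.2 _ (List.getLast?_eq_some_getLast hne) z (by simp)

/-- The inner vertices of a path through `C`. -/
theorem inner {C Y Z : Set V} {l : List V} (h : CP G C Y Z l) (hY : Disjoint Y C)
    (hZ : Disjoint Z C) : (G.induce {v | v ∈ l ∧ v ∈ C}).Connected ∧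
      (∃ y ∈ Y, ∃ a, (a ∈ l ∧ a ∈ C) ∧ G.Adj y a) ∧ ∃ z ∈ Z, ∃ b, (b ∈ l ∧ b ∈ C) ∧ G.Adj b z := by
  obtain ⟨y, mid, z, rfl, hy, hz, hne, hC⟩ := h.ex
  obtain ⟨h1, h2, h3⟩ := split_chain hne h.ch
  have hyC : y ∉ C := fun h' => Set.disjoint_left.1 hY hy h'
  have hzC : z ∉ C := fun h' => Set.disjoint_left.1 hZ hz h'
  have hE : {v | v ∈ y :: mid ++ [z] ∧ v ∈ C} = {v | v ∈ mid} := by
    ext v
    constructor
    · rintro ⟨hv, hvC⟩
      rcases List.mem_append.1 hv with hv | hv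
      · rcases List.mem_cons.1 hv with rfl | hv
        · exact absurd hvC hyC
        · exact hv
      · rw [List.mem_singleton] at hv
        subst hv
        exact absurd hvC hzC
    · intro hv
      exact ⟨List.mem_append_left _ (List.mem_cons_of_mem _ hv), hC v hv⟩
  have hin : ∀ v ∈ mid, v ∈ y :: mid ++ [z] ∧ v ∈ C := fun v hv =>
    ⟨List.mem_append_left _ (List.mem_cons_of_mem _ hv), hC v hv⟩
  refine ⟨?_, ⟨y, hy, mid.head hne, hin _ (List.head_mem hne), h2⟩,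
    ⟨z, hz, mid.getLast hne, hin _ (List.getLast_mem hne), h3⟩⟩
  rw [hE]
  exact conn_list hne h1

/-- The branch sets. -/
def Br (C : Set V) (m : ℕ) (A : ℕ → Set V) (p : ℕ → ℕ → List V) (i : ℕ) : Set V :=
  A i ∪ ⋃ j : {j : ℕ // i < j ∧ j < m}, {v | v ∈ p i j ∧ v ∈ C}

theorem main (C : Set V) (m : ℕ) (A : ℕ → Set V) (p : ℕ → ℕ → List V)
    (hA : ∀ i < m, (G.induce (A i)).Connected) (hAC : ∀ i < m, Disjoint (A i) C)
    (hAA : ∀ i < m, ∀ j < m, i ≠ j → Disjoint (A i) (A j))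
    (hp : ∀ i j, i < j → j < m → CP G C (A i) (A j) (p i j))
    (hd : ∀ i j i' j', i < j → j < m → i' < j' → j' < m → (i, j) ≠ (i', j') →
      List.Disjoint (p i j) (p i' j')) : HasClique G m := by
  have hedge : ∀ i j, i < j → j < m → ∃ a ∈ Br C m A p i, ∃ b ∈ Br C m A p j, G.Adj a b := by
    intro i j hij hj
    obtain ⟨-, -, z, hz, b, hb, hbz⟩ := inner (hp i j hij hj) (hAC i (hij.trans hj)) (hAC j hj)
    exact ⟨b, Or.inr (Set.mem_iUnion.2 ⟨⟨j, hij, hj⟩, hb⟩), z, Or.inl hz, hbz⟩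
  refine ⟨Br C m A p, ?_, ?_, ?_⟩
  · intro i hi
    refine conn_iUnion (hA i hi) ?_ ?_
    · rintro ⟨j, hij, hj⟩
      exact (inner (hp i j hij hj) (hAC i hi) (hAC j hj)).1
    · rintro ⟨j, hij, hj⟩
      obtain ⟨-, ⟨y, hy, a, ha, hya⟩, -⟩ := inner (hp i j hij hj) (hAC i hi) (hAC j hj)
      exact ⟨y, hy, a, ha, Or.inr hya⟩
  · intro i hi i' hi' hne
    rw [Set.disjoint_left]
    rintro v (hv | hv) (hv' | hv')
    · exact Set.disjoint_left.1 (hAA i hi i' hi' hne) hv hv'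
    · obtain ⟨j, hj⟩ := Set.mem_iUnion.1 hv'
      exact Set.disjoint_left.1 (hAC i hi) hv hj.2
    · obtain ⟨j, hj⟩ := Set.mem_iUnion.1 hv
      exact Set.disjoint_left.1 (hAC i' hi') hv' hj.2
    · obtain ⟨⟨j, hij, hj⟩, hvj⟩ := Set.mem_iUnion.1 hv
      obtain ⟨⟨j', hij', hj'⟩, hvj'⟩ := Set.mem_iUnion.1 hv'
      exact hd i j i' j' hij hj hij' hj' (fun h => hne (congrArg Prod.fst h)) hvj.1 hvj'.1
  · intro i hi j hj hne
    rcases Nat.lt_or_gt_of_ne hne with h | h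
    · exact hedge i j h hj
    · obtain ⟨a, ha, b, hb, hab⟩ := hedge j i h hi
      exact ⟨b, hb, a, ha, hab.symm⟩

end AuxE3

theorem E3 : PE3 := fun _ C m A p hA hAC hAA hp hd => AuxE3.main C m A p hA hAC hAA hp hd

end Pool.Agent.GridThm
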