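import Pool.Agent.Work.Tools.GridThm.Stmts

set_option autoImplicit false

namespace Pool.Agent.GridThm

namespace AuxE4

variable {V : Type}

theorem mono {G : SimpleGraph V} {C Y Z Y' Z' : Set V} {l : List V} (hY : Y ⊆ Y') (hZ : Z ⊆ Z')
    (h : CP G C Y Z l) : CP G C Y' Z' l := by
  obtain ⟨h1, h2, y, mid, z, h3, h4, h5, h6, h7⟩ := h
  exact ⟨h1, h2, y, mid, z, h3, hY h4, hZ h5, h6, h7⟩

/-- The pair of indices coded by `s`. -/
def idx (m s : ℕ) : ℕ × ℕ := if s / m = s % m then (0, 1) else (s / m, s % m)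

theorem idx_spec {m s : ℕ} (hm : 2 ≤ m) (hs : s < m * m) :
    (idx m s).1 < m ∧ (idx m s).2 < m ∧ (idx m s).1 ≠ (idx m s).2 := by
  unfold idx
  split_ifs with h
  · exact ⟨by show 0 < m; omega, by show 1 < m; omega, by decide⟩
  · exact ⟨Nat.div_lt_of_lt_mul hs, Nat.mod_lt _ (by omega), h⟩

theorem idx_code {m i j : ℕ} (hj : j < m) (hij : i ≠ j) : idx m (i * m + j) = (i, j) := by
  have h1 : (i * m + j) / m = i := by
    rw [Nat.mul_comm, Nat.mul_add_div (by omega), Nat.div_eq_of_lt hj, Nat.add_zero]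
  have h2 : (i * m + j) % m = j := by
    rw [Nat.mul_comm, Nat.mul_add_mod, Nat.mod_eq_of_lt hj]
  unfold idx
  rw [h1, h2, if_neg hij]

end AuxE4

open AuxE4

theorem E4 (h1 : PB) (h2 : PC8) (h3 : PE2) (h4 : PE3) : PE4 := by
  intro K
  obtain ⟨m, hmdef⟩ : ∃ m, m = K * K + 2 := ⟨_, rfl⟩
  obtain ⟨a, ha⟩ := h3 K (m * m)
  refine ⟨m * (2 * (a + 1) - 1), a + 1, ?_, by omega, ?_⟩
  · have : 1 * 1 ≤ m * (2 * (a + 1) - 1) := Nat.mul_le_mul (by omega) (by omega)
    omega
  intro V _ G C S c hM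
  obtain ⟨A, hA, hAd⟩ := h1 G S c (nbs G C) m (a + 1) hM.bt hM.sub (by omega) (le_of_eq hM.card.symm)
  have hW : ∀ i, ∃ W : Set V, i < m → (W ⊆ A i ∩ nbs G C ∧ W.ncard = a) := by
    intro i
    by_cases hi : i < m
    · have hc : a ≤ (A i ∩ nbs G C).ncard := by
        have := (hA i hi).2.2
        omega
      obtain ⟨W, hW1, hW2⟩ := Set.exists_subset_card_eq hc
      exact ⟨W, fun _ => ⟨hW1, hW2⟩⟩
    · exact ⟨∅, fun h => absurd h hi⟩
  choose W hW using hW
  have hnC : ∀ i < m, Disjoint (W i) C := by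
    intro i hi
    rw [Set.disjoint_left]
    intro v hv hvC
    exact ((hW i hi).1 hv).2.1 hvC
  have hWd : ∀ i < m, ∀ j < m, i ≠ j → Disjoint (W i) (W j) := by
    intro i hi j hj hij
    exact (hAd i hi j hj hij).mono (fun v hv => ((hW i hi).1 hv).1)
      (fun v hv => ((hW j hj).1 hv).1)
  have hm2 : 2 ≤ m := by omega
  have e1 : ∀ s < m * m, Disjoint (W (idx m s).1) C ∧ Disjoint (W (idx m s).2) C ∧
      Disjoint (W (idx m s).1) (W (idx m s).2) := by
    intro s hs
    obtain ⟨g1, g2, g3⟩ := idx_spec hm2 hs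
    exact ⟨hnC _ g1, hnC _ g2, hWd _ g1 _ g2 g3⟩
  have e2 : ∀ s < m * m, ∃ Q, Fam G C (W (idx m s).1) (W (idx m s).2) Q ∧ Q.card = a := by
    intro s hs
    obtain ⟨g1, g2, g3⟩ := idx_spec hm2 hs
    obtain ⟨P, hP, hPc⟩ := hM.link (W (idx m s).1) (W (idx m s).2)
      (fun v hv => ((hW _ g1).1 hv).2) (fun v hv => ((hW _ g2).1 hv).2) (hWd _ g1 _ g2 g3)
      (by rw [(hW _ g1).2, (hW _ g2).2]) (by rw [(hW _ g1).2]; omega)
    exact ⟨P, hP, by rw [hPc, (hW _ g1).2]⟩
  rcases ha G C (fun s => W (idx m s).1) (fun s => W (idx m s).2) e1 e2 with h | ⟨p, hp, hpd⟩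
  · exact h
  · refine h2 G K m (by omega) (h4 G C m A (fun i j => p (i * m + j)) (fun i hi => (hA i hi).2.1)
      ?_ hAd ?_ ?_)
    · intro i hi
      exact hM.disj.mono (hA i hi).1 (le_refl _)
    · intro i j hij hj
      have hs : i * m + j < m * m := by
        have : i * m + m ≤ m * m := by
          rw [← Nat.succ_mul]
          exact Nat.mul_le_mul_right m (by omega)
        omega
      have := hp (i * m + j) hs
      simp only [idx_code hj (Nat.ne_of_lt hij)] at this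
      exact mono (fun v hv => ((hW i (by omega)).1 hv).1) (fun v hv => ((hW j hj).1 hv).1) this
    · intro i j i' j' hij hj hij' hj' hne
      have hs : ∀ i j : ℕ, i < j → j < m → i * m + j < m * m := by
        intro i j hij hj
        have : i * m + m ≤ m * m := by
          rw [← Nat.succ_mul]
          exact Nat.mul_le_mul_right m (by omega)
        omega
      refine hpd _ (hs i j hij hj) _ (hs i' j' hij' hj') ?_
      intro he
      apply hne
      rw [← idx_code hj (Nat.ne_of_lt hij), he, idx_code hj' (Nat.ne_of_lt hij')]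

end Pool.Agent.GridThm
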