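import Pool.Agent.Work.Tools.GridThm.Stmts
import Pool.Agent.Work.MP_d76268_co.Menger

/-!
# The excluded grid theorem: item M (Menger for paths through `C`)
-/

set_option autoImplicit false

namespace Pool.Agent.GridThm

namespace AuxM

variable {V : Type}

theorem chain_mem {R : V → V → Prop} {Q : V → Prop} (h : ∀ a b, R a b → Q b) :
    ∀ (l : List V) (c : V), (c :: l).IsChain R → ∀ x ∈ l, Q x := by
  intro l
  induction l with
  | nil => intro c _ x hx; simp at hx
  | cons d t ih =>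
    intro c hc x hx
    rw [List.isChain_cons_cons] at hc
    rcases List.mem_cons.1 hx with rfl | hx
    · exact h _ _ hc.1
    · exact ih d hc.2 x hx

/-- shortening a path from `Y` to `Z` -/
theorem shorten {G : SimpleGraph V} {C Y Z : Set V} {R : V → V → Prop}
    (hYC : Disjoint Y C) (hZC : Disjoint Z C) (hYZ : Disjoint Y Z)
    (hR : ∀ a b, R a b → G.Adj a b ∧ (a ∈ C ∨ b ∈ C) ∧ a ∈ C ∪ Y ∪ Z ∧ b ∈ C ∪ Y ∪ Z)
    (l : List V) (hl : BiP4.IsAB R Y Z l) :
    ∃ l' : List V, (∀ x ∈ l', x ∈ l) ∧ CP G C Y Z l' ∧ l'.IsChain R ∧ BiP4.IsAB R Y Z l' := by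
  obtain ⟨hne, hnd, hch, hhd, hlt⟩ := hl
  obtain ⟨a, ha⟩ : ∃ a, l.head? = some a := by
    cases l with
    | nil => exact absurd rfl hne
    | cons c t => exact ⟨c, rfl⟩
  have haY : a ∈ Y := hhd a ha
  obtain ⟨l1, c, l2, hl12, hcY, hl2⟩ := BiP4.Menger.last_mem' Y l
    ⟨a, List.mem_of_mem_head? ha, haY⟩
  have hlast : ∃ z ∈ l2, z ∈ Z := by
    rcases List.eq_nil_or_concat l2 with h2 | ⟨l3, z, h2⟩
    · exfalso
      subst h2
      have : c ∈ l.getLast? := by rw [hl12]; simp
      exact Set.disjoint_left.1 hYZ hcY (hlt c this)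
    · refine ⟨z, by rw [h2]; simp, hlt z ?_⟩
      rw [hl12, h2]
      have : l1 ++ c :: l3.concat z = (l1 ++ c :: l3) ++ [z] := by simp
      rw [this]
      exact List.getLast?_concat
  obtain ⟨m1, z, m2, hm, hzZ, hm1⟩ := BiP4.Menger.first_mem Z l2 hlast
  have hl' : l = l1 ++ (c :: m1 ++ [z]) ++ m2 := by
    rw [hl12, hm]; simp
  have hsub : ∀ x ∈ (c :: m1 ++ [z]), x ∈ l := by
    intro x hx
    rw [hl']
    exact List.mem_append_left _ (List.mem_append_right _ hx)
  have hch' : (c :: m1 ++ [z]).IsChain R := by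
    rw [hl'] at hch
    exact (hch.left_of_append).right_of_append
  have hnd' : (c :: m1 ++ [z]).Nodup := by
    rw [hl'] at hnd
    exact (hnd.of_append_left).of_append_right
  have hmid : ∀ v ∈ m1, v ∈ C := by
    intro v hv
    have h1 : v ∈ C ∪ Y ∪ Z := by
      have hcc : (c :: (m1 ++ [z])).IsChain R := hch'
      exact chain_mem (Q := fun b => b ∈ C ∪ Y ∪ Z) (fun a b hab => (hR a b hab).2.2.2)
        (m1 ++ [z]) c hcc v (List.mem_append_left _ hv)
    have h2 : v ∉ Y := by
      apply hl2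
      rw [hm]
      exact List.mem_append_left _ hv
    have h3 : v ∉ Z := hm1 v hv
    rcases h1 with (h1 | h1) | h1
    · exact h1
    · exact absurd h1 h2
    · exact absurd h1 h3
  have hmne : m1 ≠ [] := by
    rintro rfl
    have : R c z := by
      have h := hch'
      simp only [List.cons_append, List.nil_append] at h
      rw [List.isChain_cons_cons] at h
      exact h.1
    rcases (hR c z this).2.1 with h | h
    · exact Set.disjoint_left.1 hYC hcY h
    · exact Set.disjoint_left.1 hZC hzZ h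
  refine ⟨c :: m1 ++ [z], hsub, ⟨hch'.imp (fun a b hab => (hR a b hab).1), hnd',
    c, m1, z, rfl, hcY, hzZ, hmne, hmid⟩, hch', by simp, hnd', hch', ?_, ?_⟩
  · intro a ha
    have : a = c := by simpa using ha.symm
    rw [this]; exact hcY
  · intro b hb
    have : b = z := by
      have h : (c :: m1 ++ [z]).getLast? = some z := List.getLast?_concat
      rw [h] at hb
      simpa using hb.symm
    rw [this]; exact hzZ

end AuxM

open Classical in
theorem M : PM := by
  intro V _ G C Y Z R hYC hZC hYZ hR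
  have : Fintype V := Fintype.ofFinite V
  -- a smallest separator
  let Sepa : Finset V → Prop := fun S => ∀ l, BiP4.IsAB R Y Z l → ∃ x ∈ l, x ∈ S
  have hne : (Finset.univ.filter Sepa).Nonempty := by
    refine ⟨Finset.univ, ?_⟩
    rw [Finset.mem_filter]
    refine ⟨Finset.mem_univ _, fun l hl => ?_⟩
    obtain ⟨x, hx⟩ := List.exists_mem_of_ne_nil l hl.1
    exact ⟨x, hx, Finset.mem_univ _⟩
  obtain ⟨S, hS, hmin⟩ := Finset.exists_min_image _ Finset.card hne
  have hS' : Sepa S := (Finset.mem_filter.1 hS).2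
  obtain ⟨P0, hP0, hdis0⟩ := BiP4.menger V R Y Z S.card (fun T hT =>
    hmin T (Finset.mem_filter.2 ⟨Finset.mem_univ _, hT⟩))
  have hsh := fun i => AuxM.shorten (G := G) hYC hZC hYZ hR (P0 i) (hP0 i)
  choose p hpsub hpCP hpch hpAB using hsh
  have hdis : ∀ i j, i ≠ j → List.Disjoint (p i) (p j) := by
    intro i j hij x hx hx'
    exact hdis0 i j hij (hpsub i x hx) (hpsub j x hx')
  have hmeet : ∀ i, ∃ x ∈ p i, x ∈ S := fun i => hS' _ (hpAB i)
  choose x hxp hxS using hmeet
  have hxinj : Function.Injective x := by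
    intro i j hij
    by_contra hne
    exact hdis i j hne (hxp i) (hij ▸ hxp j)
  have hpinj : Function.Injective p := by
    intro i j hij
    by_contra hne
    exact hdis i j hne (hxp i) (hij ▸ hxp i)
  have hxsurj : ∀ y ∈ S, ∃ i, x i = y := by
    have himg : Finset.univ.image x = S := by
      apply Finset.eq_of_subset_of_card_le
      · intro y hy
        obtain ⟨i, _, rfl⟩ := Finset.mem_image.1 hy
        exact hxS i
      · rw [Finset.card_image_of_injective _ hxinj]
        simp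
    intro y hy
    rw [← himg] at hy
    obtain ⟨i, _, hi⟩ := Finset.mem_image.1 hy
    exact ⟨i, hi⟩
  refine ⟨↑S, Finset.univ.image p, ⟨?_, ?_⟩, ?_, ?_, ?_, ?_, ?_⟩
  · intro l hl
    obtain ⟨i, _, rfl⟩ := Finset.mem_image.1 hl
    exact hpCP i
  · intro l hl l' hl' hll
    obtain ⟨i, _, rfl⟩ := Finset.mem_image.1 hl
    obtain ⟨j, _, rfl⟩ := Finset.mem_image.1 hl'
    exact hdis i j (fun h => hll (by rw [h]))
  · rw [Finset.card_image_of_injective _ hpinj, Set.ncard_coe_finset]
    simp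
  · intro l hl
    obtain ⟨i, _, rfl⟩ := Finset.mem_image.1 hl
    exact hpch i
  · intro l hl
    obtain ⟨i, _, rfl⟩ := Finset.mem_image.1 hl
    refine ⟨x i, hxp i, hxS i, fun y hy hyS => ?_⟩
    obtain ⟨j, rfl⟩ := hxsurj y hyS
    by_cases hij : i = j
    · rw [hij]
    · exact absurd (hxp j) (fun h => hdis i j hij hy h)
  · intro y hy
    obtain ⟨i, rfl⟩ := hxsurj y hy
    exact ⟨p i, Finset.mem_image.2 ⟨i, Finset.mem_univ _, rfl⟩, hxp i⟩
  · rintro w hw ⟨a, ha, haY⟩ ⟨b, hb, hbZ⟩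
    have hwk : BiP4.Menger.Wk R a b w := ⟨hw, ha, hb⟩
    obtain ⟨w', hnd, hsub, hwk'⟩ := BiP4.Menger.Wk.simple w hwk
    obtain ⟨y, hy, hyS⟩ := hS' w' (BiP4.Menger.isAB_iff.2 ⟨a, haY, b, hbZ, hwk', hnd⟩)
    exact ⟨y, hsub y hy, hyS⟩

end Pool.Agent.GridThm
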