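import Pool.Agent.Work.Tools.GridThm.Stmts

set_option autoImplicit false

namespace Pool.Agent.GridThm

namespace AuxT0

variable {ι : Type} {T : ι → Type}

theorem glue_adj {t : ∀ i, SimpleGraph (T i)} {r : ∀ i, T i} {a b : Option (Σ i, T i)}
    (h : (glue t r).Adj a b) : (∃ i, a = none ∧ b = some ⟨i, r i⟩) ∨
      (∃ i, b = none ∧ a = some ⟨i, r i⟩) ∨
      ∃ i x y, a = some ⟨i, x⟩ ∧ b = some ⟨i, y⟩ ∧ (t i).Adj x y := by
  rw [glue, SimpleGraph.fromRel_adj] at h
  obtain ⟨_, (h | h) | (h | h)⟩ := h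
  · exact Or.inl h
  · exact Or.inr (Or.inr h)
  · obtain ⟨i, h1, h2⟩ := h
    exact Or.inr (Or.inl ⟨i, h1, h2⟩)
  · obtain ⟨i, x, y, h1, h2, h3⟩ := h
    exact Or.inr (Or.inr ⟨i, y, x, h2, h1, h3.symm⟩)

theorem adj_none (t : ∀ i, SimpleGraph (T i)) (r : ∀ i, T i) (i : ι) :
    (glue t r).Adj none (some ⟨i, r i⟩) := by
  rw [glue, SimpleGraph.fromRel_adj]
  exact ⟨by simp, Or.inl (Or.inl ⟨i, rfl, rfl⟩)⟩

theorem adj_some (t : ∀ i, SimpleGraph (T i)) (r : ∀ i, T i) (i : ι) {x y : T i}
    (h : (t i).Adj x y) : (glue t r).Adj (some ⟨i, x⟩) (some ⟨i, y⟩) := by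
  rw [glue, SimpleGraph.fromRel_adj]
  refine ⟨?_, Or.inl (Or.inr ⟨i, x, y, rfl, rfl, h⟩)⟩
  intro hh
  simp only [Option.some.injEq, Sigma.mk.injEq, heq_eq_eq, true_and] at hh
  exact h.ne hh

open Classical in
/-- Everything outside the copy `i` is mapped to `r i`. -/
noncomputable def proj (r : ∀ i, T i) (i : ι) (a : Option (Σ i, T i)) : T i :=
  if h : ∃ z, a = some ⟨i, z⟩ then h.choose else r i

theorem proj_some (r : ∀ i, T i) (i : ι) (z : T i) : proj r i (some ⟨i, z⟩) = z := by
  have h : ∃ z', (some ⟨i, z⟩ : Option (Σ i, T i)) = some ⟨i, z'⟩ := ⟨z, rfl⟩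
  rw [proj, dif_pos h]
  have h2 := Option.some.inj h.choose_spec
  exact (eq_of_heq (Sigma.mk.inj h2).2).symm

theorem proj_none (r : ∀ i, T i) (i : ι) : proj r i none = r i := by
  rw [proj, dif_neg]
  rintro ⟨z, hz⟩
  exact absurd hz (by simp)

theorem proj_ne (r : ∀ i, T i) (i j : ι) (z : T j) (h : j ≠ i) :
    proj r i (some ⟨j, z⟩) = r i := by
  rw [proj, dif_neg]
  rintro ⟨z', hz⟩
  simp only [Option.some.injEq, Sigma.mk.injEq] at hz
  exact h hz.1

theorem proj_root (r : ∀ i, T i) (i j : ι) : proj r i (some ⟨j, r j⟩) = r i := by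
  by_cases h : j = i
  · subst h
    exact proj_some r j (r j)
  · exact proj_ne r i j _ h

theorem reach_inv {V W : Type} {H : SimpleGraph V} {K : SimpleGraph W} (f : V → W)
    (hf : ∀ a b, H.Adj a b → f a = f b ∨ K.Adj (f a) (f b)) {a b : V} (h : H.Reachable a b) :
    K.Reachable (f a) (f b) := by
  obtain ⟨p⟩ := h
  induction p with
  | nil => exact SimpleGraph.Reachable.refl _
  | cons hab _ ih =>
    rcases hf _ _ hab with h1 | h1
    · rw [h1]
      exact ih
    · exact h1.reachable.trans ih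

theorem bridge_some (t : ∀ i, SimpleGraph (T i)) (r : ∀ i, T i) (i : ι) {x y : T i}
    (hb : (t i).IsBridge s(x, y)) : (glue t r).IsBridge s(some ⟨i, x⟩, some ⟨i, y⟩) := by
  rw [SimpleGraph.isBridge_iff] at hb ⊢
  intro h
  apply hb
  have h2 := reach_inv (K := (t i).deleteEdges {s(x, y)}) (proj r i) ?_ h
  · rwa [proj_some, proj_some] at h2
  · intro a b hab
    rw [SimpleGraph.deleteEdges_adj] at hab
    obtain ⟨h1, h3⟩ := hab
    rcases glue_adj h1 with ⟨j, rfl, rfl⟩ | ⟨j, rfl, rfl⟩ | ⟨j, u, v, rfl, rfl, huv⟩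
    · left
      rw [proj_none, proj_root]
    · left
      rw [proj_none, proj_root]
    · by_cases hj : j = i
      · subst hj
        right
        rw [proj_some, proj_some, SimpleGraph.deleteEdges_adj]
        refine ⟨huv, ?_⟩
        intro h4
        apply h3
        rw [Set.mem_singleton_iff, Sym2.eq_iff] at h4 ⊢
        rcases h4 with ⟨rfl, rfl⟩ | ⟨rfl, rfl⟩
        · exact Or.inl ⟨rfl, rfl⟩
        · exact Or.inr ⟨rfl, rfl⟩
      · left
        rw [proj_ne r i j _ hj, proj_ne r i j _ hj]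

theorem bridge_none (t : ∀ i, SimpleGraph (T i)) (r : ∀ i, T i) (i : ι) :
    (glue t r).IsBridge s(none, some ⟨i, r i⟩) := by
  rw [SimpleGraph.isBridge_iff]
  intro h
  have h2 := reach_inv (K := (⊥ : SimpleGraph Prop))
    (fun a : Option (Σ i, T i) => ∃ z, a = some ⟨i, z⟩) ?_ h
  · rw [SimpleGraph.reachable_bot] at h2
    have h3 : ∃ z, (none : Option (Σ i, T i)) = some ⟨i, z⟩ := by
      rw [h2]
      exact ⟨r i, rfl⟩
    obtain ⟨z, hz⟩ := h3
    exact absurd hz (by simp)
  · intro a b hab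
    left
    rw [SimpleGraph.deleteEdges_adj] at hab
    obtain ⟨h1, h3⟩ := hab
    apply propext
    rcases glue_adj h1 with ⟨j, rfl, rfl⟩ | ⟨j, rfl, rfl⟩ | ⟨j, u, v, rfl, rfl, huv⟩
    · constructor
      · rintro ⟨z, hz⟩
        exact absurd hz (by simp)
      · rintro ⟨z, hz⟩
        have hj : j = i := by
          simp only [Option.some.injEq, Sigma.mk.injEq] at hz
          exact hz.1
        subst hj
        exact absurd rfl h3
    · constructor
      · rintro ⟨z, hz⟩
        have hj : j = i := by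
          simp only [Option.some.injEq, Sigma.mk.injEq] at hz
          exact hz.1
        subst hj
        exact absurd Sym2.eq_swap h3
      · rintro ⟨z, hz⟩
        exact absurd hz (by simp)
    · constructor
      · rintro ⟨z, hz⟩
        have hj : j = i := by
          simp only [Option.some.injEq, Sigma.mk.injEq] at hz
          exact hz.1
        subst hj
        exact ⟨v, rfl⟩
      · rintro ⟨z, hz⟩
        have hj : j = i := by
          simp only [Option.some.injEq, Sigma.mk.injEq] at hz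
          exact hz.1
        subst hj
        exact ⟨u, rfl⟩

/-- The embedding of the copy `i`. -/
def emb (t : ∀ i, SimpleGraph (T i)) (r : ∀ i, T i) (i : ι) : t i →g glue t r where
  toFun x := some ⟨i, x⟩
  map_rel' h := adj_some t r i h

end AuxT0

open AuxT0

theorem T0 : PT0 := by
  intro ι T t r ht
  refine ⟨?_, ?_⟩
  · have key : ∀ a, (glue t r).Reachable none a := by
      rintro (_ | ⟨i, x⟩)
      · exact SimpleGraph.Reachable.refl _
      · exact (adj_none t r i).reachable.trans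
          (((ht i).connected.preconnected (r i) x).map (emb t r i))
    have : Nonempty (Option (Σ i, T i)) := ⟨none⟩
    exact ⟨fun a b => (key a).symm.trans (key b)⟩
  · rw [SimpleGraph.isAcyclic_iff_forall_adj_isBridge]
    intro a b hab
    rcases glue_adj hab with ⟨j, rfl, rfl⟩ | ⟨j, rfl, rfl⟩ | ⟨j, u, v, rfl, rfl, huv⟩
    · exact bridge_none t r j
    · rw [Sym2.eq_swap]
      exact bridge_none t r j
    · exact bridge_some t r j
        (SimpleGraph.isAcyclic_iff_forall_adj_isBridge.1 (ht j).isAcyclic huv)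

end Pool.Agent.GridThm
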