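import Pool.Agent.Work.Tools.GridThm.Stmts

set_option autoImplicit false

namespace Pool.Agent.GridThm

namespace AuxT1

/-- The image of a connected set is connected. -/
theorem conn_image {V W : Type} {G : SimpleGraph V} {H : SimpleGraph W} (f : V → W)
    (hf : ∀ a b, G.Adj a b → H.Adj (f a) (f b)) {A : Set V} (hA : (G.induce A).Connected) :
    (H.induce (f '' A)).Connected := by
  let g : G.induce A →g H.induce (f '' A) :=
    { toFun := fun x => ⟨f x.1, Set.mem_image_of_mem f x.2⟩
      map_rel' := fun {a b} h => hf a.1 b.1 h }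
  refine hA.map g ?_
  rintro ⟨_, x, hx, rfl⟩
  exact ⟨⟨x, hx⟩, rfl⟩

theorem adj_none {ι : Type} {T : ι → Type} (t : ∀ i, SimpleGraph (T i)) (r : ∀ i, T i) (i : ι) :
    (glue t r).Adj none (some ⟨i, r i⟩) := by
  rw [glue, SimpleGraph.fromRel_adj]
  exact ⟨by simp, Or.inl (Or.inl ⟨i, rfl, rfl⟩)⟩

theorem adj_some {ι : Type} {T : ι → Type} (t : ∀ i, SimpleGraph (T i)) (r : ∀ i, T i) (i : ι)
    (x y : T i) (h : (t i).Adj x y) : (glue t r).Adj (some ⟨i, x⟩) (some ⟨i, y⟩) := by
  rw [glue, SimpleGraph.fromRel_adj]
  refine ⟨?_, Or.inl (Or.inr ⟨i, x, y, rfl, rfl, h⟩)⟩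
  intro hh
  simp only [Option.some.injEq, Sigma.mk.injEq, heq_eq_eq, true_and] at hh
  exact h.ne hh

end AuxT1

open AuxT1

theorem T1 (h1 : PT0) : PT1 := by
  intro V G w S Q h
  induction h with
  | mk X ι S Q Q₀ hX h hQS hQX hSX hSS hadj hQ₀ ih =>
    choose T t bag x0 ht hb hconn hedge hcard hQ using ih
    let bag' : Option (Σ i, T i) → Set V := fun a => a.elim X (fun p => bag p.1 p.2)
    have hnone : bag' none = X := rfl
    have hsome : ∀ (i : ι) (x : T i), bag' (some ⟨i, x⟩) = bag i x := fun i x => rfl
    have hpiece : ∀ (v : V) (i : ι), v ∈ S i →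
        ((glue t x0).induce ((fun x : T i => (some ⟨i, x⟩ : Option (Σ i, T i))) ''
          {x | v ∈ bag i x})).Connected := fun v i hv =>
      conn_image (fun x : T i => (some ⟨i, x⟩ : Option (Σ i, T i))) (adj_some t x0 i)
        (hconn i v hv)
    refine ⟨Option (Σ i, T i), glue t x0, bag', none, h1 ι T t x0 ht, ?_, ?_, ?_, ?_, hQ₀⟩
    · rintro (_ | ⟨i, x⟩)
      · exact Set.subset_union_left
      · intro v hv
        exact Or.inr (Set.mem_iUnion.2 ⟨i, hb i x hv⟩)
    · intro v hv
      by_cases hvX : v ∈ X
      · have h2 : {a | v ∈ bag' a} = {(none : Option (Σ i, T i))} ∪ ⋃ i : {i // v ∈ S i},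
            ((fun x : T i.1 => (some ⟨i.1, x⟩ : Option (Σ i, T i))) '' {x | v ∈ bag i.1 x}) := by
          ext a
          rcases a with _ | ⟨i, x⟩
          · simp only [Set.mem_setOf_eq, hnone, Set.mem_union, Set.mem_singleton_iff, true_or,
              iff_true]
            exact hvX
          · constructor
            · intro ha
              have ha' : v ∈ bag i x := ha
              exact Or.inr (Set.mem_iUnion.2 ⟨⟨i, hb i x ha'⟩, x, ha', rfl⟩)
            · rintro (ha | ha)
              · exact absurd ha (by simp)
              · rw [Set.mem_iUnion] at ha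
                obtain ⟨⟨j, hj⟩, y, hy, hyx⟩ := ha
                have hyx' : (some ⟨j, y⟩ : Option (Σ i, T i)) = some ⟨i, x⟩ := hyx
                rw [← hyx']
                exact hy
        rw [h2]
        refine conn_iUnion (conn_single _) (fun i => hpiece v i.1 i.2) ?_
        intro i
        refine ⟨none, rfl, some ⟨i.1, x0 i.1⟩, ⟨x0 i.1, ?_, rfl⟩, Or.inr (adj_none t x0 i.1)⟩
        exact hQ i.1 (hSX i.1 ⟨i.2, hvX⟩)
      · have hvS : ∃ i, v ∈ S i := by
          rcases hv with hv | hv
          · exact absurd hv hvX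
          · exact Set.mem_iUnion.1 hv
        obtain ⟨i, hi⟩ := hvS
        have h2 : {a | v ∈ bag' a} =
            (fun x : T i => (some ⟨i, x⟩ : Option (Σ i, T i))) '' {x | v ∈ bag i x} := by
          ext a
          rcases a with _ | ⟨j, x⟩
          · constructor
            · intro ha
              exact absurd ha hvX
            · rintro ⟨y, _, hy⟩
              exact absurd hy (by simp)
          · constructor
            · intro ha
              have ha' : v ∈ bag j x := ha
              have hij : j = i := by
                by_contra hne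
                exact hvX (hSS j i hne ⟨hb j x ha', hi⟩)
              subst hij
              exact ⟨x, ha', rfl⟩
            · rintro ⟨y, hy, hyx⟩
              have hyx' : (some ⟨i, y⟩ : Option (Σ i, T i)) = some ⟨j, x⟩ := hyx
              rw [← hyx']
              exact hy
        rw [h2]
        exact hpiece v i hi
    · intro u hu v hv huv
      by_cases huX : u ∈ X
      · by_cases hvX : v ∈ X
        · exact ⟨none, huX, hvX⟩
        · have hvS : ∃ i, v ∈ S i := by
            rcases hv with hv | hv
            · exact absurd hv hvX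
            · exact Set.mem_iUnion.1 hv
          obtain ⟨i, hi⟩ := hvS
          have hui := hadj i v hi hvX u hu huv.symm
          obtain ⟨x, hx1, hx2⟩ := hedge i u hui v hi huv
          exact ⟨some ⟨i, x⟩, hx1, hx2⟩
      · have huS : ∃ i, u ∈ S i := by
          rcases hu with hu | hu
          · exact absurd hu huX
          · exact Set.mem_iUnion.1 hu
        obtain ⟨i, hi⟩ := huS
        have hvi := hadj i u hi huX v hv huv
        obtain ⟨x, hx1, hx2⟩ := hedge i u hi v hvi huv
        exact ⟨some ⟨i, x⟩, hx1, hx2⟩
    · rintro (_ | ⟨i, x⟩)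
      · exact hX
      · exact hcard i x

end Pool.Agent.GridThm
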