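import Pool.Agent.Work.Tools.GridThm.Main
import Pool.Agent.Work.Tools.GridThm.T0
import Pool.Agent.Work.Tools.GridThm.T1
import Pool.Agent.Work.Tools.GridThm.A0
import Pool.Agent.Work.Tools.GridThm.A1
import Pool.Agent.Work.Tools.GridThm.A2
import Pool.Agent.Work.Tools.GridThm.A3
import Pool.Agent.Work.Tools.GridThm.A4
import Pool.Agent.Work.Tools.GridThm.A5
import Pool.Agent.Work.Tools.GridThm.A6
import Pool.Agent.Work.Tools.GridThm.M
import Pool.Agent.Work.Tools.GridThm.B
import Pool.Agent.Work.Tools.GridThm.C1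
import Pool.Agent.Work.Tools.GridThm.C2
import Pool.Agent.Work.Tools.GridThm.C3
import Pool.Agent.Work.Tools.GridThm.C4
import Pool.Agent.Work.Tools.GridThm.C5
import Pool.Agent.Work.Tools.GridThm.C6
import Pool.Agent.Work.Tools.GridThm.C7
import Pool.Agent.Work.Tools.GridThm.C8
import Pool.Agent.Work.Tools.GridThm.C9
import Pool.Agent.Work.Tools.GridThm.D1
import Pool.Agent.Work.Tools.GridThm.D2
import Pool.Agent.Work.Tools.GridThm.D3
import Pool.Agent.Work.Tools.GridThm.D4
import Pool.Agent.Work.Tools.GridThm.D5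
import Pool.Agent.Work.Tools.GridThm.E1
import Pool.Agent.Work.Tools.GridThm.E2
import Pool.Agent.Work.Tools.GridThm.E3
import Pool.Agent.Work.Tools.GridThm.E4

/-!
# The excluded grid theorem
-/

set_option autoImplicit false

namespace Pool.Agent.GridThm

theorem t1 : PT1 := T1 T0
theorem a3 : PA3 := A3 A2
theorem a4 : PA4 := A4 M a3
theorem a5 : PA5 := A5 A0 A1 a4
theorem a6 : PA6 := A6 t1 A0 a5
theorem c2 : PC2 := C2 C1
theorem c6 : PC6 := C6 C4 C5
theorem c7 : PC7 := C7 C4
theorem c9 : PC9 := C9 c2 C3 c6 c7 C8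
theorem d2 : PD2 := D2 M
theorem d5 : PD5 := D5 d2 D3 D4
theorem e1 : PE1 := E1 c9 D1 d5
theorem e2 : PE2 := E2 e1
theorem e4 : PE4 := E4 B C8 e2 E3

/-- The excluded grid theorem (Robertson and Seymour): for every `K` there is a `w` such that every
finite graph of tree width larger than `w` has a `K × K` grid minor. -/
theorem grid_minor : PGrid := grid_of a6 e4

end Pool.Agent.GridThm
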