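import Pool.Agent.Work.Tools.GridThm.Defs

/-!
# The excluded grid theorem: basic lemmas on connected sets
-/

set_option autoImplicit false

namespace Pool.Agent.GridThm

variable {V : Type} {G : SimpleGraph V}

theorem conn_single (x : V) : (G.induce {x}).Connected := by
  have : Nonempty ({x} : Set V) := ⟨⟨x, rfl⟩⟩
  have : Subsingleton ({x} : Set V) := ⟨fun a b => Subtype.ext (a.2.trans b.2.symm)⟩
  exact ⟨fun a b => by rw [Subsingleton.elim a b]⟩

/-- Two connected sets with a common vertex. -/
theorem conn_union {A B : Set V} (hA : (G.induce A).Connected) (hB : (G.induce B).Connected)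
    (h : (A ∩ B).Nonempty) : (G.induce (A ∪ B)).Connected :=
  SimpleGraph.induce_union_connected hA.preconnected hB.preconnected h

/-- Two connected sets joined by an edge. -/
theorem conn_adj {A B : Set V} {a b : V} (hA : (G.induce A).Connected)
    (hB : (G.induce B).Connected) (ha : a ∈ A) (hb : b ∈ B) (h : G.Adj a b) :
    (G.induce (A ∪ B)).Connected :=
  SimpleGraph.connected_induce_union hA.preconnected hB.preconnected ha hb h

/-- A connected set with one more vertex. -/
theorem conn_insert {A : Set V} {a b : V} (hA : (G.induce A).Connected) (ha : a ∈ A)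
    (h : G.Adj a b) : (G.induce (insert b A)).Connected := by
  have := conn_adj hA (conn_single b) ha rfl h
  rwa [Set.union_comm, Set.singleton_union] at this

/-- The vertex set of a path is connected. -/
theorem conn_list : ∀ {l : List V}, l ≠ [] → l.IsChain G.Adj →
    (G.induce {v | v ∈ l}).Connected := by
  intro l
  induction l with
  | nil => intro h; exact absurd rfl h
  | cons a t ih =>
    intro _ h
    rcases t with _ | ⟨b, t⟩
    · have : {v | v ∈ [a]} = ({a} : Set V) := by ext; simp
      rw [this]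
      exact conn_single a
    · rw [List.isChain_cons_cons] at h
      have h1 := ih (by simp) h.2
      have h2 := conn_insert (b := a) h1 (a := b) (by simp) h.1.symm
      have h3 : {v | v ∈ a :: b :: t} = insert a {v | v ∈ b :: t} := by
        ext
        simp
      rw [h3]
      exact h2

/-- A connected set with connected sets attached to it. -/
theorem conn_iUnion {ι : Type} {A : Set V} {B : ι → Set V} (hA : (G.induce A).Connected)
    (hB : ∀ i, (G.induce (B i)).Connected)
    (h : ∀ i, ∃ a ∈ A, ∃ b ∈ B i, a = b ∨ G.Adj a b) : (G.induce (A ∪ ⋃ i, B i)).Connected := by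
  obtain ⟨⟨u, hu⟩⟩ := hA.nonempty
  refine SimpleGraph.induce_connected_of_patches u (Or.inl hu) ?_
  intro v hv
  rcases hv with hv | hv
  · exact ⟨A, Set.subset_union_left, hu, hv, hA.preconnected _ _⟩
  · rw [Set.mem_iUnion] at hv
    obtain ⟨i, hv⟩ := hv
    obtain ⟨a, ha, b, hb, hab⟩ := h i
    have hc : (G.induce (A ∪ B i)).Connected := by
      rcases hab with rfl | hab
      · exact conn_union hA (hB i) ⟨a, ha, hb⟩
      · exact conn_adj hA (hB i) ha hb hab
    exact ⟨A ∪ B i, Set.union_subset_union_right A (Set.subset_iUnion B i), Or.inl hu, Or.inr hv,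
      hc.preconnected _ _⟩

theorem Bt.conn {S : Set V} {c : V → ℕ} (h : Bt G S c) : (G.induce S).Connected := by
  induction h with
  | single r => exact conn_single r
  | add S c c' u v _ hu _ ha _ _ _ _ ih => exact conn_insert ih hu ha

/-- Every vertex of `D` lies in a component of `G[D]`. -/
theorem exists_comp {D : Set V} {v : V} (hv : v ∈ D) : ∃ E, Comp G D E ∧ v ∈ E := by
  let E : Set V := {x | ∃ hx : x ∈ D, (G.induce D).Reachable ⟨v, hv⟩ ⟨x, hx⟩}
  have key : ∀ (a b : D) (q : (G.induce D).Walk a b) (ha : (a : V) ∈ E) (hb : (b : V) ∈ E),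
      (G.induce E).Reachable ⟨a, ha⟩ ⟨b, hb⟩ := by
    intro a b q
    induction q with
    | nil => intro ha hb; exact SimpleGraph.Reachable.refl _
    | @cons a c b hac q ih =>
      intro ha hb
      have hc : (c : V) ∈ E := by
        obtain ⟨_, hr⟩ := ha
        exact ⟨c.2, hr.trans hac.reachable⟩
      have h1 : (G.induce E).Adj ⟨a, ha⟩ ⟨c, hc⟩ := hac
      exact h1.reachable.trans (ih hc hb)
  have hvE : v ∈ E := ⟨hv, SimpleGraph.Reachable.refl _⟩
  refine ⟨E, ⟨fun x hx => hx.1, ?_, ?_⟩, hvE⟩
  · refine SimpleGraph.induce_connected_of_patches v hvE ?_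
    rintro x ⟨hx, hr⟩
    obtain ⟨p⟩ := hr
    exact ⟨E, le_refl _, hvE, ⟨hx, ⟨p⟩⟩, key _ _ p _ _⟩
  · rintro a ⟨ha, hr⟩ b hb hab
    refine ⟨hb, hr.trans ?_⟩
    have : (G.induce D).Adj ⟨a, ha⟩ ⟨b, hb⟩ := hab
    exact this.reachable

/-- A connected subset of `D` that meets a component lies in it. -/
theorem Comp.subset {D E F : Set V} (h : Comp G D E) (hF : (G.induce F).Connected) (hFD : F ⊆ D)
    (hi : (E ∩ F).Nonempty) : F ⊆ E := by
  obtain ⟨x, hxE, hxF⟩ := hi
  intro y hy
  obtain ⟨p⟩ := hF.preconnected ⟨x, hxF⟩ ⟨y, hy⟩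
  have key : ∀ (a b : F) (q : (G.induce F).Walk a b), (a : V) ∈ E → (b : V) ∈ E := by
    intro a b q
    induction q with
    | nil => exact id
    | @cons a c b hac q ih =>
      intro ha
      exact ih (h.closed a ha c (hFD c.2) hac)
  exact key _ _ p hxE

/-- Components are equal or disjoint. -/
theorem Comp.eq {D E F : Set V} (h : Comp G D E) (h' : Comp G D F) (hi : (E ∩ F).Nonempty) :
    E = F :=
  Set.Subset.antisymm (h'.subset h.conn h.sub (by rwa [Set.inter_comm]))
    (h.subset h'.conn h'.sub hi)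

/-- A connected set `C` with a proper nonempty subset `E` has an edge from `E` to `C ∖ E`. -/
theorem exists_edge {C E : Set V} (h : (G.induce C).Connected) (hE : E ⊆ C) {x y : V}
    (hx : x ∈ E) (hy : y ∈ C) (hy' : y ∉ E) : ∃ a ∈ E, ∃ b ∈ C, b ∉ E ∧ G.Adj a b := by
  obtain ⟨p⟩ := h.preconnected ⟨x, hE hx⟩ ⟨y, hy⟩
  have key : ∀ (a b : C) (q : (G.induce C).Walk a b), (a : V) ∈ E → (b : V) ∉ E →
      ∃ a ∈ E, ∃ b ∈ C, b ∉ E ∧ G.Adj a b := by
    intro a b q
    induction q with
    | nil => intro h1 h2; exact absurd h1 h2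
    | @cons a c b hac q ih =>
      intro ha hb
      by_cases hc : (c : V) ∈ E
      · exact ih hc hb
      · exact ⟨a, ha, c, c.2, hc, hac⟩
  exact key _ _ p hx hy'

end Pool.Agent.GridThm
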