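import Pool.Agent.Work.Tools.GridThm.Basic

/-!
# The excluded grid theorem: the items

Every item `X` is a Prop `PX`; it is proved as `theorem X : PX` (with hypotheses `PY` where the
comment says `from Y`) in the file `X.lean`.
-/

set_option autoImplicit false

namespace Pool.Agent.GridThm

/-! ### Tree decompositions -/

/-- T0: trees glued to a new vertex give a tree. -/
def PT0 : Prop := ∀ (ι : Type) (T : ι → Type) (t : ∀ i, SimpleGraph (T i)) (r : ∀ i, T i),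
  (∀ i, (t i).IsTree) → (glue t r).IsTree

/-- T1: a recursive tree decomposition is a tree decomposition (from T0). -/
def PT1 : Prop := ∀ {V : Type} (G : SimpleGraph V) (w : ℕ) (S Q : Set V), TD G w S Q →
  TDec G w S Q

/-! ### From large tree width to a mesh -/

/-- A0: a decomposition of `C ∪ nbs C` from decompositions of the components of `C ∖ X`. -/
def PA0 : Prop := ∀ {V : Type} [Finite V] (G : SimpleGraph V) (w : ℕ) (C X : Set V),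
  nbs G C ⊆ X → X ⊆ C ∪ nbs G C → X.ncard ≤ w + 1 →
  (∀ C', Comp G (C \ X) C' → TD G w (C' ∪ nbs G C') (nbs G C')) →
  TD G w (C ∪ nbs G C) (nbs G C)

/-- A1: one step if `C` has fewer than `h` neighbours. -/
def PA1 : Prop := ∀ {V : Type} [Finite V] (G : SimpleGraph V) (h w : ℕ) (C S : Set V)
  (c : V → ℕ), h ≤ w + 1 → Inv G h C S c → (nbs G C).ncard < h → Good G h w C

/-- M: Menger's theorem for paths through `C` from `Y` to `Z`, in the form of a separator and a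
family of paths of the same size. -/
def PM : Prop := ∀ {V : Type} [Finite V] (G : SimpleGraph V) (C Y Z : Set V) (R : V → V → Prop),
  Disjoint Y C → Disjoint Z C → Disjoint Y Z →
  (∀ a b, R a b → G.Adj a b ∧ (a ∈ C ∨ b ∈ C) ∧ a ∈ C ∪ Y ∪ Z ∧ b ∈ C ∪ Y ∪ Z) →
  ∃ (S : Set V) (P : Finset (List V)), Fam G C Y Z P ∧ P.card = S.ncard ∧
    (∀ l ∈ P, l.IsChain R) ∧ (∀ l ∈ P, ∃ x ∈ l, x ∈ S ∧ ∀ y ∈ l, y ∈ S → y = x) ∧
    (∀ x ∈ S, ∃ l ∈ P, x ∈ l) ∧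
    ∀ w : List V, w.IsChain R → (∃ a ∈ w.head?, a ∈ Y) → (∃ b ∈ w.getLast?, b ∈ Z) →
      ∃ x ∈ w, x ∈ S

/-- A2: paths attached to a binary tree. -/
def PA2 : Prop := ∀ {V : Type} [Finite V] (G : SimpleGraph V) (S : Set V) (c : V → ℕ)
  (L : Finset (List V)), Bt G S c →
  (∀ l ∈ L, l.IsChain G.Adj ∧ l.Nodup ∧ ∃ y r, l = y :: r ∧ r ≠ [] ∧ y ∈ S ∧ c y ≤ 1 ∧
    ∀ x ∈ r, x ∉ S) →
  (∀ l ∈ L, ∀ l' ∈ L, l ≠ l' → List.Disjoint l l') →
  ∃ c', Bt G (S ∪ {x | ∃ l ∈ L, x ∈ l}) c' ∧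
    (∀ x ∈ S, (∀ l ∈ L, x ∉ l) → c' x = c x) ∧ ∀ l ∈ L, ∀ z ∈ l.getLast?, c' z = 0

/-- A3: a component of `C ∖ S` without neighbours in `Y ∖ S` (from A2). -/
def PA3 : Prop := ∀ {V : Type} [Finite V] (G : SimpleGraph V) (h : ℕ) (C S₀ : Set V)
  (c : V → ℕ) (Y Z S : Set V) (P : Finset (List V)) (C' : Set V), Inv G h C S₀ c →
  Y ⊆ nbs G C → Z ⊆ nbs G C → Disjoint Y Z → S ⊆ C ∪ nbs G C → S.ncard < Y.ncard →
  Fam G C Y Z P → (∀ l ∈ P, ∃ x ∈ l, x ∈ S ∧ ∀ y ∈ l, y ∈ S → y = x) →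
  (∀ x ∈ S, ∃ l ∈ P, x ∈ l) → Comp G (C \ S) C' → (∀ y ∈ Y, y ∉ S → y ∉ nbs G C') →
  ∃ S' c', Inv G h C' S' c'

/-- A4: one step if `C` has `h` neighbours and there is no mesh (from M, A3). -/
def PA4 : Prop := ∀ {V : Type} [Finite V] (G : SimpleGraph V) (h k w : ℕ) (C S : Set V)
  (c : V → ℕ), h + k ≤ w + 2 → Inv G h C S c → (nbs G C).ncard = h → ¬ Mesh G h k C S c →
  Good G h w C

/-- A5: recursion on the size of `C` (from A0, A1, A4). -/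
def PA5 : Prop := ∀ {V : Type} [Finite V] (G : SimpleGraph V) (h k w : ℕ), 1 ≤ k →
  h + k ≤ w + 2 → (∀ C S c, ¬ Mesh G h k C S c) → ∀ (C S : Set V) (c : V → ℕ), Inv G h C S c →
    TD G w (C ∪ nbs G C) (nbs G C)

/-- A6: a graph without mesh has small tree width (from T1, A0, A5). -/
def PA6 : Prop := ∀ {V : Type} [Finite V] (G : SimpleGraph V) (h k w : ℕ), 1 ≤ h → 1 ≤ k →
  h + k ≤ w + 2 → (∀ C S c, ¬ Mesh G h k C S c) → TreeWidthLE G w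

/-- B: partition of a binary tree. -/
def PB : Prop := ∀ {V : Type} [Finite V] (G : SimpleGraph V) (S : Set V) (c : V → ℕ) (X : Set V)
  (m k : ℕ), Bt G S c → X ⊆ S → 1 ≤ k → m * (2 * k - 1) ≤ X.ncard →
  ∃ A : ℕ → Set V, (∀ i < m, A i ⊆ S ∧ (G.induce (A i)).Connected ∧ k ≤ (A i ∩ X).ncard) ∧
    ∀ i < m, ∀ j < m, i ≠ j → Disjoint (A i) (A j)

/-! ### From an ordered crossing to a grid -/

/-- C1: the hit graph of a list that meets all `hz i` is connected. -/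
def PC1 : Prop := ∀ {V : Type} (N : ℕ) (hz : ℕ → List V) (v : List V), 0 < N →
  (∀ i < N, ∀ j < N, i ≠ j → List.Disjoint (hz i) (hz j)) → (∀ i < N, ∃ x ∈ v, x ∈ hz i) →
    (SimpleGraph.fromRel fun i j : Fin N => Ht N hz v i j).Connected

/-- C2: many verticals with the same connected hit graph (from C1). -/
def PC2 : Prop := ∀ {V : Type} (G : SimpleGraph V) (d D N : ℕ) (Vs hz : ℕ → List V), 0 < N →
  Crs G d N Vs hz → 2 ^ (N * N) * D ≤ d → ∃ (Γ : SimpleGraph (Fin N)) (f : ℕ → ℕ),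
    Γ.Connected ∧ (∀ n < D, f n < d) ∧ (∀ n < D, ∀ n' < D, n < n' → f n < f n') ∧
    ∀ n < D, ∀ i j : Fin N, Γ.Adj i j → Ht N hz (Vs (f n)) i j

/-- C3: a large connected graph has a long path or a vertex of large degree. -/
def PC3 : Prop := ∀ (K Δ N : ℕ) (Γ : SimpleGraph (Fin N)), (Δ + 1) ^ K ≤ N → Γ.Connected →
  (∃ p : ℕ → Fin N, (∀ i < K, ∀ j < K, i ≠ j → p i ≠ p j) ∧
    ∀ i, i + 1 < K → Γ.Adj (p i) (p (i + 1))) ∨
  ∃ (c : Fin N) (p : ℕ → Fin N), (∀ i < Δ, Γ.Adj c (p i)) ∧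
    ∀ i < Δ, ∀ j < Δ, i ≠ j → p i ≠ p j

/-- C4: the horizontals are cut into segments, one for each vertical. -/
def PC4 : Prop := ∀ {V : Type} (G : SimpleGraph V) (d N : ℕ) (Vs hz : ℕ → List V),
  Crs G d N Vs hz → ∃ sg : ℕ → ℕ → List V, ∀ i < N,
    (∀ n < d, sg i n ≠ [] ∧ (sg i n).IsChain G.Adj ∧ (∀ x ∈ sg i n, x ∈ hz i) ∧
      ∀ x ∈ hz i, x ∈ Vs n → x ∈ sg i n) ∧
    (∀ n < d, ∀ n' < d, n ≠ n' → List.Disjoint (sg i n) (sg i n')) ∧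
    ∀ n, n + 1 < d → ∃ a ∈ sg i n, ∃ b ∈ sg i (n + 1), G.Adj a b

/-- C5: subpaths between consecutive hits are disjoint or have the same ends. -/
def PC5 : Prop := ∀ {V : Type} (A : Set V) (v s mid t s' mid' t' : List V) (x y x' y' z : V),
  v.Nodup → v = s ++ x :: mid ++ y :: t → v = s' ++ x' :: mid' ++ y' :: t' →
  x ∈ A → y ∈ A → x' ∈ A → y' ∈ A → (∀ u ∈ mid, u ∉ A) → (∀ u ∈ mid', u ∉ A) →
  z ∈ mid → z ∈ mid' → x = x' ∧ y = y'

/-- C6: if the hit graphs contain a path through all horizontals, there is a grid (from C4,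
C5). -/
def PC6 : Prop := ∀ {V : Type} (G : SimpleGraph V) (K : ℕ) (Vs hz : ℕ → List V),
  Crs G K K Vs hz → (∀ n < K, ∀ t, t + 1 < K → Ht K hz (Vs n) t (t + 1)) → HasGrid G K

/-- C7: if the hit graphs contain a star, there is a complete minor (from C4). -/
def PC7 : Prop := ∀ {V : Type} (G : SimpleGraph V) (D Δ : ℕ) (Vs hz : ℕ → List V),
  Crs G D (Δ + 1) Vs hz → Δ * Δ ≤ D → (∀ n < D, ∀ t < Δ, Ht (Δ + 1) hz (Vs n) t Δ) →
  HasClique G Δ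

/-- C8: a large complete minor contains a grid minor. -/
def PC8 : Prop := ∀ {V : Type} (G : SimpleGraph V) (K m : ℕ), K * K ≤ m → HasClique G m →
  HasGrid G K

/-- C9: a large ordered crossing gives a grid (from C2, C3, C6, C7, C8). -/
def PC9 : Prop := ∀ K : ℕ, ∃ N d : ℕ, ∀ {V : Type} (G : SimpleGraph V) (Vs hz : ℕ → List V),
  Crs G d N Vs hz → HasGrid G K

/-! ### From two families of paths to an ordered crossing -/

/-- D1: tight families exist. -/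
def PD1 : Prop := ∀ {V : Type} (G : SimpleGraph V) (C Y Z : Set V) (P Q : Finset (List V)),
  Fam G C Y Z Q → ∃ Q', Fam G C Y Z Q' ∧ Q'.card = Q.card ∧ Tight G C Y Z P Q'

/-- D2: separators from tightness (from M). -/
def PD2 : Prop := ∀ {V : Type} [Finite V] (G : SimpleGraph V) (C Y Z Y₀ Z₀ : Set V)
  (P Q : Finset (List V)) (q : List V) (u v : V), Disjoint Y C → Disjoint Z C → Disjoint Y Z →
  Fam G C Y₀ Z₀ P → Fam G C Y Z Q → Tight G C Y Z P Q → q ∈ Q → Nx q u v → ¬ Ed P u v →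
  ∃ S : Set V, Sep C Y Z P Q q u v S

/-- D3: cutting a list into segments that meet many paths. -/
def PD3 : Prop := ∀ {V : Type} (P W : Finset (List V)) (q : List V) (d M : ℕ), 0 < M →
  0 < d → W ⊆ P → (∀ l ∈ P, ∀ l' ∈ P, l ≠ l' → List.Disjoint l l') →
  (∀ l ∈ W, ∃ x ∈ l, x ∈ q) → d * M ≤ W.card →
  ∃ t : ℕ → ℕ, t 0 = 0 ∧ (∀ n n', n ≤ n' → n' < d → t n ≤ t n') ∧
    (∀ n, 0 < n → n < d → ∃ (s : List V) (u v : V) (r : List V), q = s ++ u :: v :: r ∧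
      s.length + 1 = t n ∧ ¬ Ed P u v) ∧
    ∀ n < d, ∃ W' ⊆ W, M ≤ W'.card ∧ ∀ l ∈ W', ∃ (i : ℕ) (x : V), q[i]? = some x ∧ x ∈ l ∧
      t n ≤ i ∧ (n + 1 < d → i < t (n + 1))

/-- D4: the order of two paths on both sides of a separator. -/
def PD4 : Prop := ∀ {V : Type} [Finite V] (G : SimpleGraph V) (C Y Z Y₀ Z₀ : Set V)
  (P Q : Finset (List V)) (S : Set V) (s t : List V) (u v : V) (l l' : List V),
  Disjoint Y C → Disjoint Z C → Disjoint Y Z → Fam G C Y₀ Z₀ P → Fam G C Y Z Q →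
  (s ++ u :: v :: t) ∈ Q → ¬ Ed P u v → Sep C Y Z P Q (s ++ u :: v :: t) u v S →
  l ∈ P → l' ∈ P → (∀ x ∈ l, x ∉ S) → (∀ x ∈ l', x ∉ S) →
  (∃ a ∈ l, a ∈ s ++ [u]) → (∃ b ∈ l', b ∈ v :: t) →
  l ≠ l' ∧ ∀ h ∈ Q, h ≠ s ++ u :: v :: t → ∀ (i j : ℕ) (x y : V), h[i]? = some x →
    h[j]? = some y → x ∈ l → y ∈ l' → i < j

/-- D5: an ordered crossing from two families (from D2, D3, D4). -/
def PD5 : Prop := ∀ {V : Type} [Finite V] (G : SimpleGraph V) (C Y Z Y₀ Z₀ : Set V)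
  (P Q W : Finset (List V)) (q : List V) (d N : ℕ) (hz : ℕ → List V),
  Disjoint Y C → Disjoint Z C → Disjoint Y Z → Fam G C Y₀ Z₀ P → Fam G C Y Z Q →
  Tight G C Y Z P Q → W ⊆ P → q ∈ Q → (∀ i < N, hz i ∈ Q ∧ hz i ≠ q) →
  (∀ i < N, ∀ j < N, i ≠ j → hz i ≠ hz j) → (∀ l ∈ W, ∃ x ∈ l, x ∈ q) →
  (∀ l ∈ W, ∀ i < N, ∃ x ∈ l, x ∈ hz i) → d * (d * Q.card) ≤ W.card →
  ∃ Vs, Crs G d N Vs hz

/-! ### Assembly -/

/-- E1: one path of `P` can be chosen, or there is a grid (from C9, D1, D5). -/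
def PE1 : Prop := ∀ K b R : ℕ, ∃ a : ℕ, ∀ {V : Type} [Finite V] (G : SimpleGraph V)
  (C Y₀ Z₀ : Set V) (Y Z : ℕ → Set V) (P : Finset (List V)),
  (∀ s < R, Disjoint (Y s) C ∧ Disjoint (Z s) C ∧ Disjoint (Y s) (Z s)) →
  Fam G C Y₀ Z₀ P → P.card = a → (∀ s < R, ∃ Q, Fam G C (Y s) (Z s) Q ∧ Q.card = a) →
  HasGrid G K ∨ ∃ p ∈ P, ∀ s < R, ∃ Q', Fam G (C \ {x | x ∈ p}) (Y s \ {x | x ∈ p})
    (Z s \ {x | x ∈ p}) Q' ∧ Q'.card = b

/-- E2: one path for every pair of sets (from E1). -/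
def PE2 : Prop := ∀ K R : ℕ, ∃ a : ℕ, ∀ {V : Type} [Finite V] (G : SimpleGraph V) (C : Set V)
  (Y Z : ℕ → Set V),
  (∀ s < R, Disjoint (Y s) C ∧ Disjoint (Z s) C ∧ Disjoint (Y s) (Z s)) →
  (∀ s < R, ∃ Q, Fam G C (Y s) (Z s) Q ∧ Q.card = a) →
  HasGrid G K ∨ ∃ p : ℕ → List V, (∀ s < R, CP G C (Y s) (Z s) (p s)) ∧
    ∀ s < R, ∀ s' < R, s ≠ s' → List.Disjoint (p s) (p s')

/-- E3: a complete minor from linked sets. -/
def PE3 : Prop := ∀ {V : Type} (G : SimpleGraph V) (C : Set V) (m : ℕ) (A : ℕ → Set V)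
  (p : ℕ → ℕ → List V), (∀ i < m, (G.induce (A i)).Connected) → (∀ i < m, Disjoint (A i) C) →
  (∀ i < m, ∀ j < m, i ≠ j → Disjoint (A i) (A j)) →
  (∀ i j, i < j → j < m → CP G C (A i) (A j) (p i j)) →
  (∀ i j i' j', i < j → j < m → i' < j' → j' < m → (i, j) ≠ (i', j') →
    List.Disjoint (p i j) (p i' j')) → HasClique G m

/-- E4: a mesh gives a grid (from B, C8, E2, E3). -/
def PE4 : Prop := ∀ K : ℕ, ∃ h k : ℕ, 1 ≤ h ∧ 1 ≤ k ∧ ∀ {V : Type} [Finite V]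
  (G : SimpleGraph V) (C S : Set V) (c : V → ℕ), Mesh G h k C S c → HasGrid G K

/-- The excluded grid theorem (from A6, E4). -/
def PGrid : Prop := ∀ K : ℕ, ∃ w : ℕ, ∀ {V : Type} [Finite V] (G : SimpleGraph V),
  ¬ TreeWidthLE G w → HasGrid G K

end Pool.Agent.GridThm
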