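import Pool.Agent.Work.Tools.GridThm.Stmts

/-!
# The excluded grid theorem: assembly
-/

set_option autoImplicit false

namespace Pool.Agent.GridThm

/-- The excluded grid theorem from the fact that meshes exist and the fact that they give grids. -/
theorem grid_of (a6 : PA6) (e4 : PE4) : PGrid := by
  intro K
  obtain ⟨h, k, hh, hk, hE⟩ := e4 K
  refine ⟨h + k - 2, fun {V} _ G htw => ?_⟩
  by_contra hg
  exact htw (a6 G h k (h + k - 2) hh hk (by omega) fun C S c hm => hg (hE G C S c hm))

end Pool.Agent.GridThm
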