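import Pool.Agent.Work.Tools.GridThm.Stmts

/-!
# The excluded grid theorem, item C1 (helper43): the hit graph is connected
-/

set_option autoImplicit false

namespace Pool.Agent.GridThm

namespace AuxC1

variable {V : Type}

/-- after a hit of `hz i` every later hit is reachable -/
theorem later {N : ℕ} {hz : ℕ → List V} {v : List V}
    (hdis : ∀ i < N, ∀ j < N, i ≠ j → List.Disjoint (hz i) (hz j)) (w : List V) :
    ∀ (s mid : List V) (x : V) (i : Fin N), v = s ++ x :: mid ++ w → x ∈ hz i →
      (∀ z ∈ mid, ∀ l < N, z ∉ hz l) → ∀ j : Fin N, (∃ y ∈ w, y ∈ hz j) →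
      (SimpleGraph.fromRel fun i j : Fin N => Ht N hz v i j).Reachable i j := by
  induction w with
  | nil =>
    intro s mid x i _ _ _ j hj
    obtain ⟨y, hy, _⟩ := hj
    exact absurd hy (List.not_mem_nil)
  | cons y w ih =>
    intro s mid x i hv hx hmid j hj
    by_cases hhit : ∃ k : Fin N, y ∈ hz k
    · obtain ⟨k, hk⟩ := hhit
      have hik : (SimpleGraph.fromRel fun i j : Fin N => Ht N hz v i j).Reachable i k := by
        by_cases hne : i = k
        · rw [hne]
        · apply SimpleGraph.Adj.reachable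
          rw [SimpleGraph.fromRel_adj]
          exact ⟨hne, Or.inl ⟨s, mid, w, x, y, hv, Or.inl ⟨hx, hk⟩, hmid⟩⟩
      obtain ⟨z, hz1, hz2⟩ := hj
      rcases List.mem_cons.1 hz1 with rfl | hz1
      · have hkj : k = j := by
          by_contra hne
          exact hdis k k.2 j j.2 (fun h => hne (Fin.ext h)) hk hz2
        rw [← hkj]
        exact hik
      · refine hik.trans (ih (s ++ x :: mid) [] y k ?_ hk ?_ j ⟨z, hz1, hz2⟩)
        · rw [hv]
          simp
        · intro z hz
          exact absurd hz (List.not_mem_nil)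
    · push Not at hhit
      refine ih s (mid ++ [y]) x i ?_ hx ?_ j ?_
      · rw [hv]
        simp
      · intro z hz l hl
        rcases List.mem_append.1 hz with hz | hz
        · exact hmid z hz l hl
        · rw [List.mem_singleton] at hz
          rw [hz]
          exact hhit ⟨l, hl⟩
      · obtain ⟨z, hz1, hz2⟩ := hj
        rcases List.mem_cons.1 hz1 with rfl | hz1
        · exact absurd hz2 (hhit j)
        · exact ⟨z, hz1, hz2⟩

theorem first {N : ℕ} {hz : ℕ → List V} {v : List V} (hN : 0 < N)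
    (hdis : ∀ i < N, ∀ j < N, i ≠ j → List.Disjoint (hz i) (hz j)) (w : List V) :
    ∀ (mid : List V), v = mid ++ w →
      ∃ i : Fin N, ∀ j : Fin N, (∃ y ∈ w, y ∈ hz j) →
      (SimpleGraph.fromRel fun i j : Fin N => Ht N hz v i j).Reachable i j := by
  induction w with
  | nil =>
    intro mid _
    refine ⟨⟨0, hN⟩, fun j hj => ?_⟩
    obtain ⟨y, hy, _⟩ := hj
    exact absurd hy (List.not_mem_nil)
  | cons y w ih =>
    intro mid hv
    by_cases hhit : ∃ k : Fin N, y ∈ hz k
    · obtain ⟨k, hk⟩ := hhit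
      refine ⟨k, fun j hj => ?_⟩
      obtain ⟨z, hz1, hz2⟩ := hj
      rcases List.mem_cons.1 hz1 with rfl | hz1
      · have hkj : k = j := by
          by_contra hne
          exact hdis k k.2 j j.2 (fun h => hne (Fin.ext h)) hk hz2
        rw [← hkj]
      · refine later hdis w mid [] y k ?_ hk ?_ j ⟨z, hz1, hz2⟩
        · rw [hv]
          simp
        · intro z hz
          exact absurd hz (List.not_mem_nil)
    · push Not at hhit
      obtain ⟨i, hi⟩ := ih (mid ++ [y]) (by rw [hv]; simp)
      refine ⟨i, fun j hj => hi j ?_⟩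
      obtain ⟨z, hz1, hz2⟩ := hj
      rcases List.mem_cons.1 hz1 with rfl | hz1
      · exact absurd hz2 (hhit j)
      · exact ⟨z, hz1, hz2⟩

end AuxC1

theorem C1 : PC1 := by
  intro V N hz v hN hdis hmeet
  obtain ⟨i0, hi0⟩ := AuxC1.first hN hdis v [] rfl
  have : Nonempty (Fin N) := ⟨⟨0, hN⟩⟩
  refine ⟨fun i j => ?_⟩
  exact (hi0 i (hmeet i i.2)).symm.trans (hi0 j (hmeet j j.2))

end Pool.Agent.GridThm
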