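import Pool.Agent.Work.Tools.GridThm.Stmts

/-!
# The excluded grid theorem, item D5 (helper85): an ordered crossing from two families
-/

set_option autoImplicit false

namespace Pool.Agent.GridThm

namespace AuxD5

/-- A family of disjoint lists with more members than a set avoids the set with one of them. -/
theorem exists_avoid {V : Type} [Finite V] (W : Finset (List V)) (U : Set V)
    (hd : ∀ l ∈ W, ∀ l' ∈ W, l ≠ l' → List.Disjoint l l') (h : U.ncard < W.card) :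
    ∃ l ∈ W, ∀ x ∈ l, x ∉ U := by
  classical
  by_contra hc
  push Not at hc
  obtain ⟨l0, hl0⟩ := Finset.card_pos.1 (show 0 < W.card by omega)
  obtain ⟨x0, _⟩ := hc l0 hl0
  have : Nonempty V := ⟨x0⟩
  choose! f hf1 hf2 using hc
  have hinj : Set.InjOn f (W : Set (List V)) := by
    intro l hl l' hl' he
    by_contra hne
    have h1 := hf1 l hl
    have h2 := hf1 l' hl'
    rw [← he] at h2
    exact hd l hl l' hl' hne h1 h2
  have h1 : (f '' (W : Set (List V))).ncard = W.card := by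
    rw [hinj.ncard_image, Set.ncard_coe_finset]
  have h2 : f '' (W : Set (List V)) ⊆ U := by
    rintro _ ⟨l, hl, rfl⟩
    exact hf2 l hl
  have h3 := Set.ncard_le_ncard h2 (Set.toFinite _)
  omega

theorem ncard_iUnion {V : Type} [Finite V] (S : ℕ → Set V) (d a : ℕ) (h : ∀ m, (S m).ncard ≤ a) :
    (⋃ m ∈ Finset.range d, S m).ncard ≤ d * a := by
  induction d with
  | zero => simp
  | succ d ih =>
    have h1 : (⋃ m ∈ Finset.range (d + 1), S m) = (⋃ m ∈ Finset.range d, S m) ∪ S d := by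
      ext x
      simp only [Finset.mem_range, Set.mem_iUnion, Set.mem_union, exists_prop]
      constructor
      · rintro ⟨m, hm, hx⟩
        rcases Nat.lt_succ_iff_lt_or_eq.1 hm with h2 | rfl
        · exact Or.inl ⟨m, h2, hx⟩
        · exact Or.inr hx
      · rintro (⟨m, hm, hx⟩ | hx)
        · exact ⟨m, by omega, hx⟩
        · exact ⟨d, by omega, hx⟩
    rw [h1]
    have h2 := Set.ncard_union_le (⋃ m ∈ Finset.range d, S m) (S d)
    have h3 := h d
    rw [Nat.succ_mul]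
    omega

end AuxD5

open AuxD5

theorem D5 (h1 : PD2) (h2 : PD3) (h3 : PD4) : PD5 := by
  intro V _ G C Y Z Y₀ Z₀ P Q W q d N hz hYC hZC hYZ hP hQ hT hWP hq hhz hinj hWq hWhz hcard
  classical
  have hch : ∀ i < N, (hz i).IsChain G.Adj ∧ (hz i).Nodup := fun i hi =>
    ⟨(hQ.cp _ (hhz i hi).1).ch, (hQ.cp _ (hhz i hi).1).nd⟩
  have hdis : ∀ i < N, ∀ j < N, i ≠ j → List.Disjoint (hz i) (hz j) := fun i hi j hj hij =>
    hQ.dis _ (hhz i hi).1 _ (hhz j hj).1 (hinj i hi j hj hij)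
  rcases Nat.eq_zero_or_pos d with rfl | hd
  · exact ⟨fun _ => [], ⟨fun n hn => absurd hn (Nat.not_lt_zero _), fun n hn =>
      absurd hn (Nat.not_lt_zero _), hch, hdis, fun n hn => absurd hn (Nat.not_lt_zero _),
      fun n hn => absurd hn (Nat.not_lt_zero _)⟩⟩
  have hQpos : 0 < Q.card := Finset.card_pos.2 ⟨q, hq⟩
  obtain ⟨t, _, ht1, ht2, ht3⟩ := h2 P W q d (d * Q.card) (Nat.mul_pos hd hQpos) hd hWP hP.dis
    hWq hcard
  have hsep : ∀ n, 0 < n → n < d → ∃ (S : Set V) (s : List V) (u v : V) (r : List V),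
      q = s ++ u :: v :: r ∧ s.length + 1 = t n ∧ ¬ Ed P u v ∧ Sep C Y Z P Q q u v S := by
    intro n hn hn'
    obtain ⟨s, u, v, r, e1, e2, e3⟩ := ht2 n hn hn'
    obtain ⟨S, hS⟩ := h1 G C Y Z Y₀ Z₀ P Q q u v hYC hZC hYZ hP hQ hT hq ⟨s, r, e1⟩ e3
    exact ⟨S, s, u, v, r, e1, e2, e3, hS⟩
  have hsep' : ∀ n, ∃ S : Set V, S.ncard ≤ Q.card - 1 ∧ (0 < n → n < d →
      ∃ (s : List V) (u v : V) (r : List V),
      q = s ++ u :: v :: r ∧ s.length + 1 = t n ∧ ¬ Ed P u v ∧ Sep C Y Z P Q q u v S) := by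
    intro n
    by_cases hn : 0 < n ∧ n < d
    · obtain ⟨S, s, u, v, r, e1, e2, e3, e4⟩ := hsep n hn.1 hn.2
      refine ⟨S, ?_, fun _ _ => ⟨s, u, v, r, e1, e2, e3, e4⟩⟩
      have := e4.card
      omega
    · exact ⟨∅, by simp, fun a b => absurd ⟨a, b⟩ hn⟩
  choose S hS1 hS2 using hsep'
  have hU : (⋃ m ∈ Finset.range d, S m).ncard < d * Q.card := by
    have h4 := ncard_iUnion S d (Q.card - 1) hS1
    have h5 : d * (Q.card - 1) < d * Q.card := Nat.mul_lt_mul_of_pos_left (by omega) hd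
    omega
  have hV : ∀ n, ∃ l : List V, n < d → l ∈ W ∧ (∀ m < d, ∀ x ∈ l, x ∉ S m) ∧
      ∃ (i : ℕ) (x : V), q[i]? = some x ∧ x ∈ l ∧ t n ≤ i ∧ (n + 1 < d → i < t (n + 1)) := by
    intro n
    by_cases hn : n < d
    · obtain ⟨W', hW', hW'c, hW'2⟩ := ht3 n hn
      obtain ⟨l, hl, hlU⟩ := exists_avoid W' (⋃ m ∈ Finset.range d, S m)
        (fun l hl l' hl' => hP.dis l (hWP (hW' hl)) l' (hWP (hW' hl'))) (by omega)
      refine ⟨l, fun _ => ⟨hW' hl, fun m hm x hx hxS => hlU x hx ?_, hW'2 l hl⟩⟩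
      simp only [Finset.mem_range, Set.mem_iUnion, exists_prop]
      exact ⟨m, hm, hxS⟩
    · exact ⟨[], fun h => absurd h hn⟩
  choose Vs hVs using hV
  -- the order
  have key : ∀ n < d, ∀ n' < d, n < n' → Vs n ≠ Vs n' ∧ ∀ h ∈ Q, h ≠ q →
      ∀ (i j : ℕ) (x y : V), h[i]? = some x → h[j]? = some y → x ∈ Vs n → y ∈ Vs n' → i < j := by
    intro n hn n' hn' hnn'
    obtain ⟨hl1, hl2, i, x, hi1, hi2, hi3, hi4⟩ := hVs n hn
    obtain ⟨hm1, hm2, j, y, hj1, hj2, hj3, _⟩ := hVs n' hn'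
    obtain ⟨s, u, v, r, e1, e2, e3, e4⟩ := hS2 n' (by omega) hn'
    have hi5 : i < t n' := lt_of_lt_of_le (hi4 (by omega)) (ht1 (n + 1) n' (by omega) hn')
    have hx : x ∈ s ++ [u] := by
      have h5 : (s ++ [u])[i]? = some x := by
        rw [e1, show s ++ u :: v :: r = (s ++ [u]) ++ (v :: r) by simp] at hi1
        rwa [List.getElem?_append_left (by simp; omega)] at hi1
      exact List.mem_of_getElem? h5
    have hy : y ∈ v :: r := by
      have h5 : (v :: r)[j - (s ++ [u]).length]? = some y := by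
        rw [e1, show s ++ u :: v :: r = (s ++ [u]) ++ (v :: r) by simp] at hj1
        rwa [List.getElem?_append_right (by simp; omega)] at hj1
      exact List.mem_of_getElem? h5
    have h6 := h3 G C Y Z Y₀ Z₀ P Q (S n') s r u v (Vs n) (Vs n') hYC hZC hYZ hP hQ
      (e1 ▸ hq) e3 (e1 ▸ e4) (hWP hl1) (hWP hm1) (hl2 n' hn') (hm2 n' hn')
      ⟨x, hi2, hx⟩ ⟨y, hj2, hy⟩
    rw [← e1] at h6
    exact h6
  refine ⟨Vs, ⟨?_, ?_, hch, hdis, ?_, ?_⟩⟩
  · intro n hn
    have h4 := hP.cp _ (hWP (hVs n hn).1)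
    exact ⟨h4.ch, h4.nd⟩
  · intro n hn n' hn' hne
    refine hP.dis _ (hWP (hVs n hn).1) _ (hWP (hVs n' hn').1) ?_
    rcases Nat.lt_or_gt_of_ne hne with h4 | h4
    · exact (key n hn n' hn' h4).1
    · exact fun e => (key n' hn' n hn h4).1 e.symm
  · intro n hn i hi
    exact hWhz _ (hVs n hn).1 i hi
  · intro n hn n' hn' hnn' i hi a b x y ha hb hx hy
    exact (key n hn n' hn' hnn').2 (hz i) (hhz i hi).1 (hhz i hi).2 a b x y ha hb hx hy

end Pool.Agent.GridThm
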