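import Mathlib

/-!
# The excluded grid theorem (Robertson and Seymour): definitions

Final statement: for every `K` there is a `w` such that every finite graph of tree width larger than
`w` has a `K × K` grid minor.
-/

set_option autoImplicit false

namespace Pool.Agent.GridThm

variable {V : Type}

/-- `G` has tree width at most `w`: it has a tree decomposition into parts with at most `w + 1`
vertices. -/
def TreeWidthLE (G : SimpleGraph V) (w : ℕ) : Prop :=
  ∃ (T : Type) (t : SimpleGraph T) (bag : T → Set V), t.IsTree ∧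
    (∀ v, (t.induce {x | v ∈ bag x}).Connected) ∧
    (∀ u v, G.Adj u v → ∃ x, u ∈ bag x ∧ v ∈ bag x) ∧
    ∀ x, (bag x).encard ≤ w + 1

/-- `G` has a `K × K` grid minor: connected disjoint branch sets `B x y` such that branch sets of
neighbouring points of the grid are joined by an edge. -/
structure Grid (G : SimpleGraph V) (K : ℕ) (B : ℕ → ℕ → Set V) : Prop where
  conn : ∀ x y, x < K → y < K → (G.induce (B x y)).Connected
  disj : ∀ x y x' y', x < K → y < K → x' < K → y' < K → (x, y) ≠ (x', y') →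
    Disjoint (B x y) (B x' y')
  hor : ∀ x y, x + 1 < K → y < K → ∃ a ∈ B x y, ∃ b ∈ B (x + 1) y, G.Adj a b
  ver : ∀ x y, x < K → y + 1 < K → ∃ a ∈ B x y, ∃ b ∈ B x (y + 1), G.Adj a b

/-- `G` has a `K × K` grid minor. -/
def HasGrid (G : SimpleGraph V) (K : ℕ) : Prop := ∃ B, Grid G K B

/-- `G` has a complete minor with `m` branch sets. -/
def HasClique (G : SimpleGraph V) (m : ℕ) : Prop :=
  ∃ B : ℕ → Set V, (∀ i < m, (G.induce (B i)).Connected) ∧
    (∀ i < m, ∀ j < m, i ≠ j → Disjoint (B i) (B j)) ∧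
    ∀ i < m, ∀ j < m, i ≠ j → ∃ a ∈ B i, ∃ b ∈ B j, G.Adj a b

/-- The vertices outside `C` with a neighbour in `C`. -/
def nbs (G : SimpleGraph V) (C : Set V) : Set V := {v | v ∉ C ∧ ∃ u ∈ C, G.Adj u v}

/-! ### Tree decompositions, recursively -/

/-- `TD G w S Q`: the graph induced by `S` has a tree decomposition of width at most `w` with a part
that contains `Q`. The part `X` is glued to decompositions of `G[S i]` along `Q i`. -/
inductive TD (G : SimpleGraph V) (w : ℕ) : Set V → Set V → Prop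
  | mk (X : Set V) (ι : Type) (S Q : ι → Set V) (Q₀ : Set V) (hX : X.encard ≤ w + 1)
      (h : ∀ i, TD G w (S i) (Q i)) (hQS : ∀ i, Q i ⊆ S i) (hQX : ∀ i, Q i ⊆ X)
      (hSX : ∀ i, S i ∩ X ⊆ Q i) (hSS : ∀ i j, i ≠ j → S i ∩ S j ⊆ X)
      (hadj : ∀ i, ∀ u ∈ S i, u ∉ X → ∀ v ∈ X ∪ ⋃ j, S j, G.Adj u v → v ∈ S i)
      (hQ₀ : Q₀ ⊆ X) : TD G w (X ∪ ⋃ i, S i) Q₀

/-- `S` has a tree decomposition of width at most `w` with a part that contains `Q`. -/
def TDec (G : SimpleGraph V) (w : ℕ) (S Q : Set V) : Prop :=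
  ∃ (T : Type) (t : SimpleGraph T) (bag : T → Set V) (x₀ : T), t.IsTree ∧
    (∀ x, bag x ⊆ S) ∧ (∀ v ∈ S, (t.induce {x | v ∈ bag x}).Connected) ∧
    (∀ u ∈ S, ∀ v ∈ S, G.Adj u v → ∃ x, u ∈ bag x ∧ v ∈ bag x) ∧
    (∀ x, (bag x).encard ≤ w + 1) ∧ Q ⊆ bag x₀

/-- Graphs `t i` glued to a new vertex `none` by edges to `r i`. -/
def glue {ι : Type} {T : ι → Type} (t : ∀ i, SimpleGraph (T i)) (r : ∀ i, T i) :
    SimpleGraph (Option (Σ i, T i)) :=
  SimpleGraph.fromRel fun a b => (∃ i, a = none ∧ b = some ⟨i, r i⟩) ∨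
    ∃ i x y, a = some ⟨i, x⟩ ∧ b = some ⟨i, y⟩ ∧ (t i).Adj x y

/-- `E` is (the vertex set of) a component of `G[D]`. -/
structure Comp (G : SimpleGraph V) (D E : Set V) : Prop where
  sub : E ⊆ D
  conn : (G.induce E).Connected
  closed : ∀ u ∈ E, ∀ v ∈ D, G.Adj u v → v ∈ E

/-! ### Binary trees in a graph -/

/-- `Bt G S c`: `S` is the vertex set of a tree in `G`, built from one vertex by adding leaves, in
which the vertex `x` has `c x ≤ 2` children. -/
inductive Bt (G : SimpleGraph V) : Set V → (V → ℕ) → Prop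
  | single (r : V) : Bt G {r} (fun _ => 0)
  | add (S : Set V) (c c' : V → ℕ) (u v : V) (h : Bt G S c) (hu : u ∈ S) (hv : v ∉ S)
      (ha : G.Adj u v) (hc : c u < 2) (hc' : c' u = c u + 1) (hv' : c' v = 0)
      (ho : ∀ x, x ≠ u → x ≠ v → c' x = c x) : Bt G (insert v S) c'

/-! ### Paths -/

/-- `u` and `v` are consecutive in the list `l`. -/
def Nx (l : List V) (u v : V) : Prop := ∃ s t, l = s ++ u :: v :: t

/-- `u v` is an edge of a path in `P`. -/
def Ed (P : Finset (List V)) (u v : V) : Prop := ∃ l ∈ P, Nx l u v ∨ Nx l v u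

/-- A path through `C` from `Y` to `Z`: the inner vertices (at least one) are in `C`. -/
structure CP (G : SimpleGraph V) (C Y Z : Set V) (l : List V) : Prop where
  ch : l.IsChain G.Adj
  nd : l.Nodup
  ex : ∃ y mid z, l = y :: mid ++ [z] ∧ y ∈ Y ∧ z ∈ Z ∧ mid ≠ [] ∧ ∀ v ∈ mid, v ∈ C

/-- A family of disjoint paths through `C` from `Y` to `Z`. -/
structure Fam (G : SimpleGraph V) (C Y Z : Set V) (P : Finset (List V)) : Prop where
  cp : ∀ l ∈ P, CP G C Y Z l
  dis : ∀ l ∈ P, ∀ l' ∈ P, l ≠ l' → List.Disjoint l l'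

/-- The family `Q` is tight with respect to `P`: no edge outside `P` can be spared. -/
def Tight (G : SimpleGraph V) (C Y Z : Set V) (P Q : Finset (List V)) : Prop :=
  ∀ u v, Ed Q u v → ¬ Ed P u v → ¬ ∃ Q' : Finset (List V), Fam G C Y Z Q' ∧
    Q'.card = Q.card ∧ ∀ a b, Ed Q' a b →
      (Ed P a b ∨ Ed Q a b) ∧ ¬ (a = u ∧ b = v) ∧ ¬ (a = v ∧ b = u)

/-- The edges of `P` and `Q` inside `C ∪ Y ∪ Z` except the edge `u v`. -/
def Rl (C Y Z : Set V) (P Q : Finset (List V)) (u v a b : V) : Prop :=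
  (Ed P a b ∨ Ed Q a b) ∧ a ∈ C ∪ Y ∪ Z ∧ b ∈ C ∪ Y ∪ Z ∧ ¬ (a = u ∧ b = v) ∧
    ¬ (a = v ∧ b = u)

/-- `S` separates: it has exactly one vertex on each path of `Q` other than `q`, no vertex on `q`,
fewer vertices than `Q` has paths, and it meets every walk from `Y` to `Z` that uses edges of `P`
and `Q` other than `u v`. -/
structure Sep (C Y Z : Set V) (P Q : Finset (List V)) (q : List V) (u v : V) (S : Set V) :
    Prop where
  one : ∀ l ∈ Q, l ≠ q → ∃ x ∈ l, x ∈ S ∧ ∀ y ∈ l, y ∈ S → y = x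
  off : ∀ x ∈ q, x ∉ S
  card : S.ncard < Q.card
  cut : ∀ w : List V, w.IsChain (Rl C Y Z P Q u v) → (∃ a ∈ w.head?, a ∈ Y) →
    (∃ b ∈ w.getLast?, b ∈ Z) → ∃ x ∈ w, x ∈ S

/-- `Vs n`, `n < d`, are pairwise disjoint paths which cross all the disjoint paths `hz i`,
`i < N`, in this order. -/
structure Crs (G : SimpleGraph V) (d N : ℕ) (Vs hz : ℕ → List V) : Prop where
  vch : ∀ n < d, (Vs n).IsChain G.Adj ∧ (Vs n).Nodup
  vdis : ∀ n < d, ∀ n' < d, n ≠ n' → List.Disjoint (Vs n) (Vs n')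
  hch : ∀ i < N, (hz i).IsChain G.Adj ∧ (hz i).Nodup
  hdis : ∀ i < N, ∀ j < N, i ≠ j → List.Disjoint (hz i) (hz j)
  meet : ∀ n < d, ∀ i < N, ∃ x ∈ Vs n, x ∈ hz i
  ord : ∀ n < d, ∀ n' < d, n < n' → ∀ i < N, ∀ (a b : ℕ) (x y : V), (hz i)[a]? = some x →
    (hz i)[b]? = some y → x ∈ Vs n → y ∈ Vs n' → a < b

/-- The list `v` contains a subpath between `hz i` and `hz j` whose inner vertices lie on no
`hz l`, `l < N`. -/
def Ht (N : ℕ) (hz : ℕ → List V) (v : List V) (i j : ℕ) : Prop :=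
  ∃ (s mid t : List V) (x y : V), v = s ++ x :: mid ++ y :: t ∧
    ((x ∈ hz i ∧ y ∈ hz j) ∨ (x ∈ hz j ∧ y ∈ hz i)) ∧ ∀ z ∈ mid, ∀ l < N, z ∉ hz l

/-- A mesh: a connected set `C`, whose neighbourhood has `h` vertices, lies in a binary tree outside
`C` and is linked through `C`. -/
structure Mesh (G : SimpleGraph V) (h k : ℕ) (C S : Set V) (c : V → ℕ) : Prop where
  conn : (G.induce C).Connected
  bt : Bt G S c
  disj : Disjoint S C
  sub : nbs G C ⊆ S
  card : (nbs G C).ncard = h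
  link : ∀ Y Z : Set V, Y ⊆ nbs G C → Z ⊆ nbs G C → Disjoint Y Z → Y.ncard = Z.ncard →
    Y.ncard ≤ k → ∃ P : Finset (List V), Fam G C Y Z P ∧ P.card = Y.ncard

/-- The invariant of the recursive construction of a tree decomposition: the neighbours of the
connected set `C`, at most `h` in number, lie in a binary tree outside `C`, have at most one child
in it, and one of them is a leaf. -/
structure Inv (G : SimpleGraph V) (h : ℕ) (C S : Set V) (c : V → ℕ) : Prop where
  conn : (G.induce C).Connected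
  bt : Bt G S c
  disj : Disjoint S C
  sub : nbs G C ⊆ S
  card : (nbs G C).ncard ≤ h
  one : ∀ x ∈ nbs G C, c x ≤ 1
  leaf : ∃ x ∈ nbs G C, c x = 0

/-- One step of the construction: a part `X` such that all components of `C ∖ X` satisfy the
invariant. -/
def Good (G : SimpleGraph V) (h w : ℕ) (C : Set V) : Prop :=
  ∃ X : Set V, nbs G C ⊆ X ∧ X ⊆ C ∪ nbs G C ∧ X.ncard ≤ w + 1 ∧ (X ∩ C).Nonempty ∧
    ∀ C', Comp G (C \ X) C' → ∃ S' c', Inv G h C' S' c'

end Pool.Agent.GridThm
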